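import Pool.Agent.Helper49.MD.Ap
import Pool.Agent.Helper84.MT.Pul

/-! THE KIND OF SYSTEMS OF LEAVES. Finite data of a system of leaves; the conditions of a window; systems of leaves are
exactly the objects which have a finite predicate up to `0`; so (slow) diagonals of systems of leaves, also of
approximate ones (types which are only `ε j`-full, `ε j → 0`), are systems of leaves. -/

set_option autoImplicit false

namespace Pool.Agent.Helper49.MD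

open Finset Filter Topology Matrix Pool.Agent.Helper69.RK Pool.Agent.Helper31.EC Pool.Agent.Helper31.EC.Sp
open Pool.Agent.Helper40.EL Pool.Agent.Helper84.MT

noncomputable section

/-- finite data of a type of leaves -/
structure FLf (Ω : Type) (M : ℕ) where
  e : ℕ
  La : Setoid Ω
  Y : Ω → Fin e → ℝ
  F : Ω → (Fin e → ℝ) → Fin M → ℝ
  al : Ω → ℕ → Set ((Fin e → ℝ) → ℝ)

/-- finite data of a system of leaves -/
structure FMs (Ω : Type) (M : ℕ) (ι : Type) where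
  Q : Ω → Fin M → ℝ
  lf : ι → FLf Ω M

/-- the kind of systems of leaves in `R ^ M` with types `ι` -/
def KM (M : ℕ) (ι : Type) : FK where
  X := fun F => FMs F.Ω M ι
  im := fun _ _ x => x

/-- the length `2 ^ (-r n)` -/
def dlF (F : FSp) (r : ℝ) : ℝ := (2 : ℝ) ^ (-(r * F.n))

/-- the window of a type of leaves -/
def FLf.win (F : FSp) {M : ℕ} (x : FLf F.Ω M) (c : ℝ) : FL F :=
  fc (x.La ⊓ Setoid.ker fun ω => cell (dlF F c) (x.Y ω))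

/-- the conditions of a window -/
def FMs.cnd (F : FSp) {M : ℕ} {ι : Type} (x : FMs F.Ω M ι) (c : ℝ) : Option ι → FL F
  | none => fc (Setoid.ker fun ω => cell (dlF F 1) (x.Q ω))
  | some i => (x.lf i).win F c

variable {S T : Sp} {M : ℕ} {E : ℕ → ℕ} {ι : Type}

/-- the finite data of a leaf -/
def lob {Q : S.VV M} (l : Leaf S Q E) (k : ℕ) : FLf (S.F k).Ω M := ⟨l.e, l.La k, l.Y.v k, l.F k, l.al k⟩

/-- the object of a system of leaves -/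
def ob (s : MSys S M E ι) : (KM M ι).Ob S := fun k => (⟨s.Q.v k, fun i => lob (s.lf i) k⟩ : FMs (S.F k).Ω M ι)

theorem ob_im (s : MSys S M E ι) (p : Pj T S) (A : ∀ k, (T.F k).Ω → Prop) (hA : 0 < ul (T.pr A)) :
    ob (s.im p A hA) = (KM M ι).imo (ob s) p A := rfl

theorem cnd_ob (s : MSys S M E ι) (c : ℝ) (i : Option ι) (k : ℕ) :
    s.cnd c i k = FMs.cnd (S.F k) (ob s k) c i := by
  cases i <;> rfl

/-! ### the finite predicate -/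

/-- a type of leaves, up to `δ` -/
def LfP (E : ℕ → ℕ) (F : FSp) {M : ℕ} (Q : F.Ω → Fin M → ℝ) (x : FLf F.Ω M) (δ : ℝ) : Prop :=
  x.e ≤ E 0 ∧
  (∃ c, tmc F δ c ∧ ∀ ω, F.μ ω ≠ 0 → ∀ i, |x.Y ω i| ≤ c) ∧
  (∀ ω ω', F.μ ω ≠ 0 → F.μ ω' ≠ 0 → F.Z ω ω' → x.La ω ω' → x.F ω = x.F ω') ∧
  (∃ c, tmc F δ c ∧ ∀ ω, F.μ ω ≠ 0 → ∀ y : Fin x.e → ℝ, (∀ i, |y i - x.Y ω i| ≤ 1) → ∀ j, |x.F ω y j| ≤ c) ∧
  (∀ ω, F.μ ω ≠ 0 → Alg x.e (x.Y ω) (x.al ω)) ∧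
  (∀ ω, F.μ ω ≠ 0 → ∀ j, (fun y => x.F ω y j) ∈ x.al ω 1) ∧
  (∀ D : ℕ, D * δ ≤ 1 → ∃ c, tmc F δ c ∧ ∀ ω, F.μ ω ≠ 0 → ∀ f ∈ x.al ω D, ∀ y z : Fin x.e → ℝ,
    (∀ i, |y i - x.Y ω i| ≤ 1) → (∀ i, |z i - x.Y ω i| ≤ 1) →
    RemS (E D) c (fun u => f (fun i => y i + u * (z i - y i))) ∧
      BmS c (fun u => f (fun i => y i + u * (z i - y i)))) ∧
  (∃ c, tmc F δ c ∧ ∀ ω, F.μ ω ≠ 0 → ∀ i, |Q ω i - x.F ω (x.Y ω) i| ≤ c * dlF F 1) ∧
  ((x.e : ℝ) - δ ≤ h (fc (Setoid.ker fun ω => cell (dlF F 1) (x.Y ω)) : FL F) (fc x.La) / F.n)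

theorem LfP.mono {F : FSp} {Q : F.Ω → Fin M → ℝ} {x : FLf F.Ω M} {δ δ' : ℝ} (h : δ ≤ δ') (hx : LfP E F Q x δ) :
    LfP E F Q x δ' := by
  obtain ⟨h1, ⟨c2, b2, h2⟩, h3, ⟨c4, b4, h4⟩, h5, h6, h7, ⟨c8, b8, h8⟩, h9⟩ := hx
  refine ⟨h1, ⟨c2, b2.mono h, h2⟩, h3, ⟨c4, b4.mono h, h4⟩, h5, h6, fun D hD => ?_, ⟨c8, b8.mono h, h8⟩, by linarith⟩
  obtain ⟨c, b, h10⟩ := h7 D ((mul_le_mul_of_nonneg_left h (Nat.cast_nonneg D)).trans hD)
  exact ⟨c, b.mono h, h10⟩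

/-- a system of leaves, up to `δ` -/
def MsP (E : ℕ → ℕ) (F : FSp) {M : ℕ} {ι : Type} (x : FMs F.Ω M ι) (δ : ℝ) : Prop :=
  (∃ c, tmc F δ c ∧ ∀ ω, F.μ ω ≠ 0 → ∀ i, |x.Q ω i| ≤ c) ∧ ∀ i, LfP E F x.Q (x.lf i) δ

/-- systems of leaves as an approximate predicate -/
def msA (M : ℕ) (E : ℕ → ℕ) (ι : Type) : AP (KM M ι) where
  P := fun F x δ => MsP E F x δ
  mono := fun _ _ _ _ h hx => ⟨hx.1.imp fun _ hc => ⟨hc.1.mono h, hc.2⟩, fun i => (hx.2 i).mono h⟩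

/-- the data of a leaf have the predicate -/
theorem LfP_lob {Q : S.VV M} (l : Leaf S Q E) {δ : ℝ} (hδ : 0 < δ) :
    ∀ᶠ k in UF, LfP E (S.F k) (Q.v k) (lob l k) δ := by
  have h2 := (sub_iff (S := S) fun k c => ∀ ω, (S.F k).μ ω ≠ 0 → ∀ i, |l.Y.v k ω i| ≤ c).mp l.Y.bd δ hδ
  have h4 := (sub_iff (S := S) fun k c => ∀ ω, (S.F k).μ ω ≠ 0 → ∀ y : Fin l.e → ℝ,
    (∀ i, |y i - l.Y.v k ω i| ≤ 1) → ∀ j, |l.F k ω y j| ≤ c).mp l.bd δ hδ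
  have h7 : ∀ᶠ k in UF, ∀ D ∈ Finset.range (⌊1 / δ⌋₊ + 1), ∃ c, tmc (S.F k) δ c ∧ ∀ ω, (S.F k).μ ω ≠ 0 →
      ∀ f ∈ l.al k ω D, ∀ y z : Fin l.e → ℝ, (∀ i, |y i - l.Y.v k ω i| ≤ 1) → (∀ i, |z i - l.Y.v k ω i| ≤ 1) →
      RemS (E D) c (fun u => f (fun i => y i + u * (z i - y i))) ∧
        BmS c (fun u => f (fun i => y i + u * (z i - y i))) := by
    rw [Filter.eventually_all_finset]
    intro D _
    exact (sub_iff (S := S) fun k c => ∀ ω, (S.F k).μ ω ≠ 0 →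
      ∀ f ∈ l.al k ω D, ∀ y z : Fin l.e → ℝ, (∀ i, |y i - l.Y.v k ω i| ≤ 1) → (∀ i, |z i - l.Y.v k ω i| ≤ 1) →
      RemS (E D) c (fun u => f (fun i => y i + u * (z i - y i))) ∧
        BmS c (fun u => f (fun i => y i + u * (z i - y i)))).mp (l.seg D) δ hδ
  have h8 := (sub_iff (S := S) fun k c => ∀ ω, (S.F k).μ ω ≠ 0 → ∀ i,
    |Q.v k ω i - l.F k ω (l.Y.v k ω) i| ≤ c * S.dl 1 k).mp l.pt δ hδ
  filter_upwards [h2, l.fn, h4, l.alg, l.crF, h7, h8,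
    l.full.eventually (lt_mem_nhds (show (l.e : ℝ) - δ < l.e by linarith))] with k a2 a3 a4 a5 a6 a7 a8 a9
  refine ⟨l.he, a2, a3, a4, a5, a6, fun D hD => a7 D ?_, a8, a9.le⟩
  rw [Finset.mem_range, Nat.lt_succ_iff]
  apply Nat.le_floor
  rw [le_div_iff₀ hδ]
  exact hD

theorem MsP_ob [Finite ι] (s : MSys S M E ι) : (msA M E ι).pd 0 S (ob s) := by
  intro δ hδ
  have h1 := (sub_iff (S := S) fun k c => ∀ ω, (S.F k).μ ω ≠ 0 → ∀ i, |s.Q.v k ω i| ≤ c).mp s.Q.bd δ hδ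
  have h2 : ∀ᶠ k in UF, ∀ i, LfP E (S.F k) (s.Q.v k) (lob (s.lf i) k) δ := by
    rw [eventually_all]
    exact fun i => LfP_lob (s.lf i) hδ
  filter_upwards [h1, h2] with k a b using ⟨a, b⟩

/-! ### leaves from finite data -/

/-- the parameter, with prescribed dimension -/
def FLf.Yc {Ω : Type} (x : FLf Ω M) (e : ℕ) : Ω → Fin e → ℝ :=
  if h : x.e = e then h ▸ x.Y else fun _ _ => 0

/-- the chart, with prescribed dimension -/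
def FLf.Fc {Ω : Type} (x : FLf Ω M) (e : ℕ) : Ω → (Fin e → ℝ) → Fin M → ℝ :=
  if h : x.e = e then h ▸ x.F else fun _ _ _ => 0

/-- the algebra, with prescribed dimension -/
def FLf.ac {Ω : Type} (x : FLf Ω M) (e : ℕ) : Ω → ℕ → Set ((Fin e → ℝ) → ℝ) :=
  if h : x.e = e then h ▸ x.al else fun _ _ => ∅

/-- the data with prescribed dimension -/
def FLf.cast {Ω : Type} (x : FLf Ω M) (e : ℕ) : FLf Ω M := ⟨e, x.La, x.Yc e, x.Fc e, x.ac e⟩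

theorem FLf.cast_eq {Ω : Type} (x : FLf Ω M) {e : ℕ} (h : x.e = e) : x.cast e = x := by
  subst h
  unfold FLf.cast FLf.Yc FLf.Fc FLf.ac
  simp

/-- a leaf from finite data of constant dimension -/
theorem leaf_of {Q : S.VV M} (e : ℕ) (x : ∀ k, FLf (S.F k).Ω M)
    (hx : ∀ δ : ℝ, 0 < δ → ∀ᶠ k in UF, LfP E (S.F k) (Q.v k) ((x k).cast e) δ) :
    ∃ l : Leaf S Q E, ∀ k, lob l k = (x k).cast e := by
  have h1 := hx 1 one_pos
  obtain ⟨k0, hk0⟩ := h1.exists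
  have bY : ∃ c : ℕ → ℝ, S.Sub c ∧ ∀ᶠ k in UF, ∀ ω, (S.F k).μ ω ≠ 0 → ∀ i, |(x k).Yc e ω i| ≤ c k :=
    (sub_iff (S := S) fun k c => ∀ ω, (S.F k).μ ω ≠ 0 → ∀ i, |(x k).Yc e ω i| ≤ c).mpr fun δ hδ =>
      (hx δ hδ).mono fun k hk => hk.2.1
  refine ⟨⟨e, hk0.1, fun k => (x k).La, ⟨fun k => (x k).Yc e, bY⟩, fun k => (x k).Fc e, h1.mono fun k hk => hk.2.2.1,
    ?_, fun k => (x k).ac e, h1.mono fun k hk => hk.2.2.2.2.1, h1.mono fun k hk => hk.2.2.2.2.2.1, ?_, ?_, ?_⟩,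
    fun k => rfl⟩
  · exact (sub_iff (S := S) fun k c => ∀ ω, (S.F k).μ ω ≠ 0 → ∀ y : Fin e → ℝ,
      (∀ i, |y i - (x k).Yc e ω i| ≤ 1) → ∀ j, |(x k).Fc e ω y j| ≤ c).mpr fun δ hδ =>
      (hx δ hδ).mono fun k hk => hk.2.2.2.1
  · intro D
    refine (sub_iff (S := S) fun k c => ∀ ω, (S.F k).μ ω ≠ 0 →
      ∀ f ∈ (x k).ac e ω D, ∀ y z : Fin e → ℝ, (∀ i, |y i - (x k).Yc e ω i| ≤ 1) →
      (∀ i, |z i - (x k).Yc e ω i| ≤ 1) →
      RemS (E D) c (fun u => f (fun i => y i + u * (z i - y i))) ∧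
        BmS c (fun u => f (fun i => y i + u * (z i - y i)))).mpr fun δ hδ => ?_
    have hm : 0 < min δ (1 / ((D : ℝ) + 1)) := lt_min hδ (by positivity)
    filter_upwards [hx _ hm] with k hk
    obtain ⟨c, b, h2⟩ := hk.2.2.2.2.2.2.1 D (by
      have h3 : (D : ℝ) * min δ (1 / ((D : ℝ) + 1)) ≤ D * (1 / ((D : ℝ) + 1)) :=
        mul_le_mul_of_nonneg_left (min_le_right _ _) (Nat.cast_nonneg D)
      refine h3.trans ?_
      rw [mul_one_div, div_le_one (by positivity)]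
      linarith)
    exact ⟨c, b.mono (min_le_left _ _), h2⟩
  · exact (sub_iff (S := S) fun k c => ∀ ω, (S.F k).μ ω ≠ 0 → ∀ i,
      |Q.v k ω i - (x k).Fc e ω ((x k).Yc e ω) i| ≤ c * S.dl 1 k).mpr fun δ hδ =>
      (hx δ hδ).mono fun k hk => hk.2.2.2.2.2.2.2.1
  · set Y : S.VV e := ⟨fun k => (x k).Yc e, bY⟩ with hY
    show Tendsto (fun k => h (fc (Setoid.ker (Y.cellv 1 k))) (fc ((x k).La)) / (S.F k).n) UF (𝓝 (e : ℝ))
    rw [Metric.tendsto_nhds]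
    intro ε hε
    have h3 := h_cell_le Y zero_le_one (fun k => fc ((x k).La)) (ε / 2) (by linarith)
    filter_upwards [hx (ε / 2) (by linarith), h3] with k a b
    have a' : (e : ℝ) - ε / 2 ≤ h (fc (Setoid.ker (Y.cellv 1 k))) (fc ((x k).La)) / (S.F k).n := a.2.2.2.2.2.2.2.2
    rw [mul_one] at b
    rw [Real.dist_eq, abs_lt]
    constructor <;> linarith

/-- SYSTEMS OF LEAVES FROM FINITE DATA -/
theorem msys_of [Finite ι] {x : (KM M ι).Ob S} (hx : (msA M E ι).pd 0 S x) :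
    ∃ s : MSys S M E ι, ∀ᶠ k in UF, ob s k = x k := by
  classical
  have h1 := hx 1 one_pos
  -- the point
  have bQ : ∃ c : ℕ → ℝ, S.Sub c ∧ ∀ᶠ k in UF, ∀ ω, (S.F k).μ ω ≠ 0 → ∀ i, |(x k : FMs (S.F k).Ω M ι).Q ω i| ≤ c k :=
    (sub_iff (S := S) fun k c => ∀ ω, (S.F k).μ ω ≠ 0 → ∀ i, |(x k : FMs (S.F k).Ω M ι).Q ω i| ≤ c).mpr fun δ hδ =>
      (hx δ hδ).mono fun k hk => hk.1
  set Q : S.VV M := ⟨fun k => (x k : FMs (S.F k).Ω M ι).Q, bQ⟩ with hQ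
  -- the dimensions
  have h2 : ∀ i, ∃ e ≤ E 0, ∀ᶠ k in UF, ((x k : FMs (S.F k).Ω M ι).lf i).e = e := fun i =>
    exists_const_nat _ _ (h1.mono fun k hk => (hk.2 i).1)
  choose e _ he2 using h2
  have h3 : ∀ i, ∃ l : Leaf S Q E, ∀ k, lob l k = ((x k : FMs (S.F k).Ω M ι).lf i).cast (e i) := fun i =>
    leaf_of (e i) (fun k => (x k : FMs (S.F k).Ω M ι).lf i) fun δ hδ => by
      filter_upwards [hx δ hδ, he2 i] with k a b
      rw [FLf.cast_eq _ b]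
      exact a.2 i
  choose l hl using h3
  refine ⟨⟨Q, l⟩, ?_⟩
  have h4 : ∀ᶠ k in UF, ∀ i, ((x k : FMs (S.F k).Ω M ι).lf i).e = e i := by
    rw [eventually_all]
    exact he2
  filter_upwards [h4] with k hk
  have e1 : (fun i => lob (l i) k) = (x k : FMs (S.F k).Ω M ι).lf := by
    funext i
    rw [hl i k, FLf.cast_eq _ (hk i)]
  show (⟨Q.v k, fun i => lob (l i) k⟩ : FMs (S.F k).Ω M ι) = x k
  rw [e1]
  rfl

/-- the predicate 'system of leaves' -/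
def isM (M : ℕ) (E : ℕ → ℕ) (ι : Type) : (KM M ι).Pd := fun S x => ∃ s : MSys S M E ι, ∀ᶠ k in UF, ob s k = x k

theorem isM_iff [Finite ι] {x : (KM M ι).Ob S} : isM M E ι S x ↔ (msA M E ι).pd 0 S x :=
  ⟨fun ⟨s, hs⟩ => (msA M E ι).inv 0 S (ob s) x hs (MsP_ob s), msys_of⟩

theorem isM_ob (s : MSys S M E ι) : isM M E ι S (ob s) := ⟨s, Eventually.of_forall fun _ => rfl⟩

theorem isM_inv : Inv (isM M E ι) := by
  rintro S x y e ⟨s, hs⟩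
  exact ⟨s, by filter_upwards [hs, e] with k a b using a.trans b⟩

/-- DIAGONALS OF SYSTEMS OF LEAVES ARE SYSTEMS OF LEAVES -/
theorem isM_diagCl [Finite ι] : DiagCl (isM M E ι) :=
  ((msA M E ι).diagCl 0).mono (fun _ _ _ h => isM_iff.mp h) (fun _ _ h => isM_iff.mpr h)

/-- DIAGONALS OF APPROXIMATE SYSTEMS OF LEAVES ARE SYSTEMS OF LEAVES -/
theorem isM_diagTo [Finite ι] {ε : ℕ → ℝ} (hε : Tendsto ε atTop (𝓝 0)) :
    DiagTo (fun j => (msA M E ι).pd (ε j)) (isM M E ι) :=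
  ((msA M E ι).diagTo hε).mono (fun _ _ _ h => h) (fun _ _ h => isM_iff.mpr h)

theorem isM_imCl : ImCl (isM M E ι) := by
  rintro S x ⟨s, hs⟩ T p A hA
  exact ⟨s.im p A hA, hs.mono fun k hk => hk⟩

/-- a class of systems of leaves as a class of objects -/
def lft (C : ∀ S : Sp, MSys S M E ι → Prop) : (KM M ι).Pd := fun S x =>
  ∃ s : MSys S M E ι, (∀ᶠ k in UF, ob s k = x k) ∧ C S s

theorem lft_inv (C : ∀ S : Sp, MSys S M E ι → Prop) : Inv (lft C) := by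
  rintro S x y e ⟨s, hs, hC⟩
  exact ⟨s, by filter_upwards [hs, e] with k a b using a.trans b, hC⟩

theorem lft_ob {C : ∀ S : Sp, MSys S M E ι → Prop} {s : MSys S M E ι} (h : C S s) : lft C S (ob s) :=
  ⟨s, Eventually.of_forall fun _ => rfl, h⟩

theorem lft_isM {C : ∀ S : Sp, MSys S M E ι → Prop} {x : (KM M ι).Ob S} (h : lft C S x) : isM M E ι S x :=
  ⟨h.choose, h.choose_spec.1⟩

/-- members of a class of systems of leaves -/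
theorem Cls.exists_msys {C : (KM M ι).Pd} (hC : Cls C) (h : ∀ S x, C S x → isM M E ι S x) :
    ∃ (S : Sp) (s : MSys S M E ι), C S (ob s) := by
  obtain ⟨S, x, hx⟩ := hC.ne
  obtain ⟨s, hs⟩ := h S x hx
  exact ⟨S, s, hC.ev S x (ob s) (hs.mono fun _ hk => hk.symm) hx⟩

end

end Pool.Agent.Helper49.MD
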