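import Pool.Agent.Helper49.MD.Dl
import Pool.Agent.Helper49.MD.Ml

/-! LIMITS OF SYSTEMS: uniformity in classes closed under diagonals (a strict inequality, or the absence of a witness, for
all members is uniform); back transfer of structures over the limit; limits of systems of leaves: windows, labels,
exact connectedness. -/

set_option autoImplicit false

namespace Pool.Agent.Helper49.MD

open Finset Filter Topology Pool.Agent.Helper69.RK Pool.Agent.Helper31.EC Pool.Agent.Helper31.EC.Sp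
open Pool.Agent.Helper40.EL Pool.Agent.Helper84.MT

noncomputable section

variable {K : FK}

/-! ### uniformity -/

/-- UNIFORMITY (usc): a strict upper bound for all members of a class closed under diagonals is uniform -/
theorem DiagUsc.unif {C : K.Pd} {f : ∀ S : Sp, K.Ob S → ℝ} (hC : DiagCl C) (hf : DiagUsc C f) {m a : ℝ}
    (hm : ∀ S x, C S x → f S x ≤ m) (h : ∀ S x, C S x → f S x < a) :
    ∃ θ : ℝ, 0 < θ ∧ ∀ S x, C S x → f S x ≤ a - θ := by
  by_contra hn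
  have h1 : ∀ j : ℕ, ∃ (S : Sp) (x : K.Ob S), C S x ∧ a - 1 / ((j : ℝ) + 1) ≤ f S x := by
    intro j
    by_contra hj
    refine hn ⟨1 / ((j : ℝ) + 1), by positivity, fun S x hx => ?_⟩
    by_contra h2
    exact hj ⟨S, x, hx, (not_le.mp h2).le⟩
  choose S x hx hc using h1
  have t : Tendsto (fun j : ℕ => a - 1 / ((j : ℝ) + 1)) atTop (𝓝 a) := by
    have := (tendsto_one_div_add_atTop_nhds_zero_nat (𝕜 := ℝ)).const_sub a
    rwa [sub_zero] at this
  obtain ⟨R, hR, h2⟩ := (hf.to (fun j : ℕ => a - 1 / ((j : ℝ) + 1)) a m t hm) S x fun j => ⟨hx j, hc j⟩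
  obtain ⟨R', hR', h3⟩ := hC S x hx
  obtain ⟨J, hJ⟩ := exists_slo S (fun i j k => R i j k ∧ R' i j k) fun i j => (hR i j).and (hR' i j)
  have h4 := h2 J hJ.left
  have h5 := h _ _ (h3 J hJ.right)
  linarith

/-- UNIFORMITY (lsc): a strict lower bound for all members of a class closed under diagonals is uniform -/
theorem DiagLsc.unif {C : K.Pd} {f : ∀ S : Sp, K.Ob S → ℝ} (hC : DiagCl C) (hf : DiagLsc C f) {a m : ℝ}
    (hm : ∀ S x, C S x → m ≤ f S x) (h : ∀ S x, C S x → a < f S x) :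
    ∃ θ : ℝ, 0 < θ ∧ ∀ S x, C S x → a + θ ≤ f S x := by
  by_contra hn
  have h1 : ∀ j : ℕ, ∃ (S : Sp) (x : K.Ob S), C S x ∧ f S x ≤ a + 1 / ((j : ℝ) + 1) := by
    intro j
    by_contra hj
    refine hn ⟨1 / ((j : ℝ) + 1), by positivity, fun S x hx => ?_⟩
    by_contra h2
    exact hj ⟨S, x, hx, (not_le.mp h2).le⟩
  choose S x hx hc using h1
  obtain ⟨R, hR, h2⟩ := hf S x hx
  obtain ⟨R', hR', h3⟩ := hC S x hx
  obtain ⟨J, hJ⟩ := exists_slo S (fun i j k => R i j k ∧ R' i j k) fun i j => (hR i j).and (hR' i j)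
  have h4 := h2 J hJ.left (a + 1) fun k => (hc (J k)).trans (by
    have : 1 / ((J k : ℝ) + 1) ≤ 1 := by
      rw [div_le_one (by positivity)]
      linarith [(Nat.cast_nonneg (J k) : (0 : ℝ) ≤ J k)]
    linarith)
  have h5 := h _ _ (h3 J hJ.right)
  have t : Tendsto (fun k => a + 1 / ((J k : ℝ) + 1)) UF (𝓝 a) := by
    have := (inv_tendsto hJ.tend).const_add a
    rwa [add_zero] at this
  have ub : UB (fun k => f (S (J k)) (x (J k))) := by
    refine ⟨max |m| |a + 1|, Eventually.of_forall fun k => ?_⟩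
    have a1 := hm _ _ (hx (J k))
    have a2 := hc (J k)
    have a3 : 1 / ((J k : ℝ) + 1) ≤ 1 := by
      rw [div_le_one (by positivity)]
      linarith [(Nat.cast_nonneg (J k) : (0 : ℝ) ≤ J k)]
    rw [abs_le]
    constructor
    · have := neg_abs_le m
      have := le_max_left |m| |a + 1|
      linarith
    · have := le_abs_self (a + 1)
      have := le_max_right |m| |a + 1|
      linarith
  have h6 := le_of_tendsto_of_tendsto (ul_tendsto ub) t (Eventually.of_forall fun k => hc (J k))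
  linarith

/-- UNIFORMITY (witnesses): if no member of a class closed under diagonals has a witness, then no member has a `δ`-witness,
for some `δ > 0` -/
theorem unif_ex {C : K.Pd} (hC : DiagCl C) {X : ∀ F : FSp, K.X F → Type*}
    (Φ : ∀ (F : FSp) (x : K.X F), X F x → ℝ → Prop)
    (hΦ : ∀ (F : FSp) (x : K.X F) (y : X F x) (δ δ' : ℝ), δ ≤ δ' → Φ F x y δ → Φ F x y δ')
    (h : ∀ S x, C S x → ¬ ∃ y : ∀ k, Option (X (S.F k) (x k)), ∀ δ : ℝ, 0 < δ → ∀ᶠ k in UF,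
      ∃ z, y k = some z ∧ Φ (S.F k) (x k) z δ) :
    ∃ δ : ℝ, 0 < δ ∧ ∀ S x, C S x → ∀ᶠ k in UF, ∀ y, ¬ Φ (S.F k) (x k) y δ := by
  classical
  by_contra hn
  have h1 : ∀ j : ℕ, ∃ (S : Sp) (x : K.Ob S), C S x ∧ ∀ᶠ k in UF, ∃ y, Φ (S.F k) (x k) y (1 / ((j : ℝ) + 1)) := by
    intro j
    by_contra hj
    refine hn ⟨1 / ((j : ℝ) + 1), by positivity, fun S x hx => ?_⟩
    have h2 := UF_not fun h3 => hj ⟨S, x, hx, h3⟩
    filter_upwards [h2] with k hk y hy
    exact hk ⟨y, hy⟩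
  choose S x hx hc using h1
  obtain ⟨R, hR, h3⟩ := hC S x hx
  obtain ⟨J, hJ⟩ := exists_slo S (fun i j k => R i j k ∧ ∃ y, Φ ((S j).F k) (x j k) y (1 / ((j : ℝ) + 1)))
    fun i j => (hR i j).and (hc j)
  refine h _ _ (h3 J hJ.left) ⟨fun k => if hk : ∃ y, Φ ((S (J k)).F k) (x (J k) k) y (1 / ((J k : ℝ) + 1)) then
    some hk.choose else none, fun δ hδ => ?_⟩
  filter_upwards [hJ.right.slow 0, (inv_tendsto hJ.tend).eventually (gt_mem_nhds hδ)] with k hk a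
  exact ⟨hk.choose, dif_pos hk, hΦ _ _ _ _ _ a.le hk.choose_spec⟩

/-- the conditions of the back transfer -/
def backE {S : ℕ → Sp} {X : ∀ F : FSp, K.X F → Type*} (x : ∀ j, K.Ob (S j))
    (Φ : ∀ (F : FSp) (x : K.X F), X F x → ℝ → Prop) : ℕ → ℕ → ℕ → Prop :=
  losE fun i j k => ∃ y, Φ ((S j).F k) (x j k) y (1 / ((i : ℝ) + 1))

theorem backE_ev {S : ℕ → Sp} {X : ∀ F : FSp, K.X F → Type*} (x : ∀ j, K.Ob (S j))
    (Φ : ∀ (F : FSp) (x : K.X F), X F x → ℝ → Prop) (i j : ℕ) : ∀ᶠ k in UF, backE x Φ i j k := losE_ev _ i j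

/-- BACK TRANSFER: a structure `y` over the limit gives structures over the members of the sequence, up to any `δ > 0` -/
theorem back {S : ℕ → Sp} {X : ∀ F : FSp, K.X F → Type*} {x : ∀ j, K.Ob (S j)}
    {Φ : ∀ (F : FSp) (x : K.X F), X F x → ℝ → Prop}
    (hΦ : ∀ (F : FSp) (x : K.X F) (y : X F x) (δ δ' : ℝ), δ ≤ δ' → Φ F x y δ → Φ F x y δ')
    {J : ℕ → ℕ} (h : Slo S (backE x Φ) J)
    (hy : ∀ δ : ℝ, 0 < δ → ∀ᶠ k in UF, ∃ y, Φ ((S (J k)).F k) (x (J k) k) y δ) {δ : ℝ} (hδ : 0 < δ) :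
    ∀ᶠ k in UF, ∀ᶠ k' in UF, ∃ y, Φ ((S (J k)).F k') (x (J k) k') y δ := by
  obtain ⟨i, hi⟩ := exists_nat_one_div_lt hδ
  have h1 := (los h i).mp (hy (1 / ((i : ℝ) + 1)) (by positivity))
  filter_upwards [h1] with k hk
  filter_upwards [hk] with k' hk'
  obtain ⟨y, hy'⟩ := hk'
  exact ⟨y, hΦ _ _ _ _ _ hi.le hy'⟩

/-! ### limits of systems of leaves -/

variable {S T : Sp} {M : ℕ} {E : ℕ → ℕ} {ι : Type}

theorem cnd_congr {s : MSys S M E ι} {x : (KM M ι).Ob S} (e : ∀ᶠ k in UF, ob s k = x k) (c : ℝ) (i : Option ι) :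
    ∀ᶠ k in UF, s.cnd c i k = FMs.cnd (S.F k) (x k) c i := by
  filter_upwards [e] with k hk
  rw [cnd_ob, hk]

/-- the conditions of the limit -/
theorem lim_cnd {S : ℕ → Sp} {s : ∀ j, MSys (S j) M E ι} {J : ℕ → ℕ}
    {hn : Tendsto (fun k => ((S (J k)).F k).n) UF atTop} {t : MSys (dsp S J hn) M E ι}
    (e : ∀ᶠ k in UF, ob t k = ob (s (J k)) k) (c : ℝ) (i : Option ι) :
    ∀ᶠ k in UF, t.cnd c i k = (s (J k)).cnd c i k := by
  filter_upwards [e] with k hk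
  rw [cnd_ob, cnd_ob]
  exact congrArg (fun z => FMs.cnd ((S (J k)).F k) z c i) hk

theorem Nul_of_ev {S : Sp} {A A' : Part S} (e : ∀ᶠ k in UF, A k = A' k) : Nul S (fun k => h (A k) (A' k)) := by
  refine (tendsto_const_nhds (x := (0 : ℝ))).congr' ?_
  filter_upwards [e] with k hk
  rw [hk, h_self, zero_div]

/-- labels depend on the conditions up to null sets of the ultrafilter -/
theorem DMf_congr {S : Sp} {κ : Type} {A A' : κ → Part S} (e : ∀ i, ∀ᶠ k in UF, A i k = A' i k) (l : Lab S) :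
    l.DMf A ↔ l.DMf A' := by
  constructor
  · intro hl i
    refine (hl i).congr' ?_
    filter_upwards [e i] with k hk
    rw [hk]
  · intro hl i
    refine (hl i).congr' ?_
    filter_upwards [e i] with k hk
    rw [hk]

/-- the slowness conditions of the windows `c q` -/
def winE {S : ℕ → Sp} (s : ∀ j, MSys (S j) M E ι) (c : ℕ → ℝ) : ℕ → ℕ → ℕ → Prop := fun i j k =>
  labE (S := S) (fun j a => (s j).cnd (c (Nat.unpair i).1) a) (Nat.unpair i).2 j k

theorem winE_ev {S : ℕ → Sp} (s : ∀ j, MSys (S j) M E ι) (c : ℕ → ℝ) (i j : ℕ) : ∀ᶠ k in UF, winE s c i j k :=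
  labE_ev _ _ _

/-- LABELS OF THE LIMIT AT THE WINDOW `c q` ARE THE SLOW LABELS -/
theorem lim_lab [Finite ι] {S : ℕ → Sp} {s : ∀ j, MSys (S j) M E ι} {c : ℕ → ℝ} {J : ℕ → ℕ} (h : Slo S (winE s c) J)
    {t : MSys (dsp S J h.lim) M E ι} (e : ∀ᶠ k in UF, ob t k = ob (s (J k)) k) (q : ℕ) (v : ℝ) :
    (∃ l : Lab (dsp S J h.lim), t.DMc (c q) l ∧ v ≤ l.info) ↔
      ∀ δ : ℝ, 0 < δ → ∀ᶠ k in UF, ∀ᶠ k' in UF, HasLb (fun a => (s (J k)).cnd (c q) a k') δ (v - δ) := by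
  have h1 : Slo S (labE (S := S) (fun j a => (s j).cnd (c q) a)) J :=
    Slo.prm (E := fun q i j k => labE (S := S) (fun j a => (s j).cnd (c q) a) i j k) h q
  have e' : ∀ i, ∀ᶠ k in UF, t.cnd (c q) i k = dpart (fun j => (s j).cnd (c q) i) J h.lim k := fun i =>
    lim_cnd e (c q) i
  have hA : (dpart (fun j => (s j).cnd (c q) none) J h.lim).Bd := by
    obtain ⟨C, hC⟩ := pcd_Bd t.Q
    refine ⟨C, ?_⟩
    filter_upwards [hC, e' none] with k a b
    rw [← b]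
    exact a
  rw [← slow_iff h1 (i₀ := none) hA v]
  constructor
  · rintro ⟨l, hl, hv⟩
    exact ⟨l, (DMf_congr e' l).mp hl, hv⟩
  · rintro ⟨l, hl, hv⟩
    exact ⟨l, (DMf_congr e' l).mpr hl, hv⟩

/-- THE LIMIT IS EXACTLY CONNECTED iff there are no slow labels -/
theorem lim_con_iff [Finite ι] {S : ℕ → Sp} {s : ∀ j, MSys (S j) M E ι} {c : ℕ → ℝ} {J : ℕ → ℕ}
    (h : Slo S (winE s c) J) {t : MSys (dsp S J h.lim) M E ι} (e : ∀ᶠ k in UF, ob t k = ob (s (J k)) k) (q : ℕ) :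
    t.Con (c q) ↔ ∀ v : ℝ, 0 < v → ∃ δ : ℝ, 0 < δ ∧ ∀ᶠ k in UF, ∀ᶠ k' in UF,
      ¬ HasLb (fun a => (s (J k)).cnd (c q) a k') δ v := by
  have h1 : Slo S (labE (S := S) (fun j a => (s j).cnd (c q) a)) J :=
    Slo.prm (E := fun q i j k => labE (S := S) (fun j a => (s j).cnd (c q) a) i j k) h q
  have e' : ∀ i, ∀ᶠ k in UF, t.cnd (c q) i k = dpart (fun j => (s j).cnd (c q) i) J h.lim k := fun i =>
    lim_cnd e (c q) i
  have hA : (dpart (fun j => (s j).cnd (c q) none) J h.lim).Bd := by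
    obtain ⟨C, hC⟩ := pcd_Bd t.Q
    refine ⟨C, ?_⟩
    filter_upwards [hC, e' none] with k a b
    rw [← b]
    exact a
  rw [← conf_dg_iff h1 (i₀ := none) hA]
  constructor
  · intro hc l hl
    exact hc l ((DMf_congr e' l).mpr hl)
  · intro hc l hl
    exact hc l ((DMf_congr e' l).mp hl)

/-- EXISTENCE OF LIMITS -/
theorem exists_lim [Finite ι] {S : ℕ → Sp} (s : ∀ j, MSys (S j) M E ι) :
    ∃ R : ℕ → ℕ → ℕ → Prop, (∀ i j, ∀ᶠ k in UF, R i j k) ∧ ∀ (J : ℕ → ℕ) (h : Slo S R J),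
      ∃ t : MSys (dsp S J h.lim) M E ι, ∀ᶠ k in UF, ob t k = ob (s (J k)) k := by
  obtain ⟨R, hR, h1⟩ := isM_diagCl (M := M) (E := E) (ι := ι) S (fun j => ob (s j)) fun j => isM_ob (s j)
  exact ⟨R, hR, fun J h => h1 J h⟩

/-- no label with information `v` and leak `δ`, eventually -/
theorem con_iff_hasLb [Finite ι] {s : MSys S M E ι} {c : ℝ} :
    s.Con c ↔ ∀ v : ℝ, 0 < v → ∃ δ : ℝ, 0 < δ ∧ ∀ᶠ k in UF, ¬ HasLb (fun a => s.cnd c a k) δ v := by
  constructor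
  · intro hc v hv
    by_contra hn
    obtain ⟨l, hl, hv'⟩ := of_hasLb (A := s.cnd c) (i₀ := none) (pcd_Bd s.Q) (v := v) fun δ hδ => by
      have h2 := UF_not (fun hh => hn ⟨δ, hδ, hh⟩)
      filter_upwards [h2] with k hk
      exact (not_not.mp hk).mono le_rfl (by linarith)
    have := Lab.Conf.info hc hl
    linarith
  · intro hc
    refine Lab.conf_of_info (i := none) (pcd_Bd s.Q) fun l hl => ?_
    by_contra hn
    rw [not_le] at hn
    obtain ⟨δ, hδ, h1⟩ := hc (l.info / 2) (by linarith)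
    obtain ⟨k, a, b⟩ := (h1.and (hasLb_of hl (i₀ := none) (pcd_Bd s.Q) hδ
      (show l.info / 2 < l.info by linarith))).exists
    exact a b

/-- UNIFORM CONNECTEDNESS of a class of exactly connected systems which is closed under diagonals -/
theorem con_unif [Finite ι] {C : (KM M ι).Pd} (hC : DiagCl C) (hM : ∀ S x, C S x → isM M E ι S x) {c : ℝ}
    (hc : ∀ (S : Sp) (s : MSys S M E ι), C S (ob s) → s.Con c) (hI : Inv C) {v : ℝ} (hv : 0 < v) :
    ∃ δ : ℝ, 0 < δ ∧ ∀ (S : Sp) (s : MSys S M E ι), C S (ob s) → ∀ᶠ k in UF, ¬ HasLb (fun a => s.cnd c a k) δ v := by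
  obtain ⟨δ, hδ, h1⟩ := unif_ex hC (X := fun F _ => FLab F)
    (fun F x l δ => (∀ i, l.leak (FMs.cnd F x c i) ≤ δ * F.n) ∧ v * F.n ≤ l.info)
    (fun F x l δ δ' h hl => ⟨fun i => (hl.1 i).trans (mul_le_mul_of_nonneg_right h F.pos.le), hl.2⟩) (by
      rintro S x hx ⟨y, hy⟩
      obtain ⟨s, hs⟩ := hM S x hx
      have hcs := hc S s (hI S x (ob s) (hs.mono fun k hk => hk.symm) hx)
      obtain ⟨δ, hδ, h2⟩ := (con_iff_hasLb.mp hcs) v hv
      obtain ⟨k, ⟨z, _, hz⟩, b, e⟩ := ((hy δ hδ).and (h2.and hs)).exists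
      refine b ⟨z, fun i => ?_, hz.2⟩
      have h3 : s.cnd c i k = FMs.cnd (S.F k) (x k) c i := (cnd_ob s c i k).trans (by rw [e])
      show z.leak (s.cnd c i k) ≤ δ * (S.F k).n
      rw [h3]
      exact hz.1 i)
  refine ⟨δ, hδ, fun S s hs => ?_⟩
  filter_upwards [h1 S (ob s) hs] with k hk
  rintro ⟨l, hl, hv'⟩
  refine hk l ⟨fun i => ?_, hv'⟩
  have h3 : l.leak (s.cnd c i k) ≤ δ * (S.F k).n := hl i
  rw [cnd_ob] at h3
  exact h3

end

end Pool.Agent.Helper49.MD
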