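import Pool.Agent.Helper49.MD.Lim

/-! COUNTABLY MANY TYPES: labels, systems of leaves and their limits for a countable family of types (conditions). In the
finite statements up to `δ` only the indices `i` with `encode i * δ ≤ 1` are used. -/

set_option autoImplicit false

namespace Pool.Agent.Helper49.MD

open Finset Filter Topology Pool.Agent.Helper69.RK Pool.Agent.Helper31.EC Pool.Agent.Helper31.EC.Sp
open Pool.Agent.Helper40.EL Pool.Agent.Helper84.MT

noncomputable section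

/-- the index is used at the precision `δ` -/
def Used {κ : Type} [Encodable κ] (δ : ℝ) (i : κ) : Prop := (Encodable.encode i : ℝ) * δ ≤ 1

theorem Used.mono {κ : Type} [Encodable κ] {δ δ' : ℝ} (h : δ ≤ δ') {i : κ} (hi : Used δ' i) : Used δ i :=
  (mul_le_mul_of_nonneg_left h (Nat.cast_nonneg _)).trans hi

theorem used_finite {κ : Type} [Encodable κ] {δ : ℝ} (hδ : 0 < δ) : {i : κ | Used δ i}.Finite := by
  have h1 : {i : κ | Used δ i} ⊆ Encodable.encode ⁻¹' (Set.Iic ⌊1 / δ⌋₊) := by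
    intro i hi
    show Encodable.encode i ≤ ⌊1 / δ⌋₊
    apply Nat.le_floor
    rw [le_div_iff₀ hδ]
    exact hi
  exact ((Set.finite_Iic _).preimage (Encodable.encode_injective.injOn)).subset h1

/-- eventually for all used indices -/
theorem ev_used {κ : Type} [Encodable κ] {δ : ℝ} (hδ : 0 < δ) {P : κ → ℕ → Prop} (h : ∀ i, ∀ᶠ k in UF, P i k) :
    ∀ᶠ k in UF, ∀ i, Used δ i → P i k := by
  have h1 := (Filter.eventually_all_finite (used_finite (κ := κ) hδ)).mpr fun i (_ : i ∈ {i : κ | Used δ i}) => h i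
  exact h1.mono fun k hk i hi => hk i hi

/-- every index is used eventually -/
theorem used_ev {κ : Type} [Encodable κ] {d : ℕ → ℝ} (hd : Tendsto d UF (𝓝 0)) (i : κ) : ∀ᶠ k in UF, Used (d k) i := by
  have h1 := hd.const_mul (Encodable.encode i : ℝ)
  rw [mul_zero] at h1
  exact (h1.eventually (gt_mem_nhds one_pos)).mono fun k hk => hk.le

/-! ### labels -/

/-- a label with all used leaks at most `δ n` and information at least `v n` -/
def HasLc {F : FSp} {κ : Type} [Encodable κ] (A : κ → FL F) (δ v : ℝ) : Prop :=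
  ∃ l : FLab F, (∀ i, Used δ i → l.leak (A i) ≤ δ * F.n) ∧ v * F.n ≤ l.info

theorem HasLc.mono {F : FSp} {κ : Type} [Encodable κ] {A : κ → FL F} {δ δ' v v' : ℝ} (h : HasLc A δ v) (h1 : δ ≤ δ')
    (h2 : v' ≤ v) : HasLc A δ' v' := by
  obtain ⟨l, a, b⟩ := h
  exact ⟨l, fun i hi => (a i (hi.mono h1)).trans (mul_le_mul_of_nonneg_right h1 F.pos.le),
    (mul_le_mul_of_nonneg_right h2 F.pos.le).trans b⟩

theorem hasLc_of {S : Sp} {κ : Type} [Encodable κ] {A : κ → Part S} {l : Lab S} (hl : l.DMf A) {i₀ : κ}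
    (hA : (A i₀).Bd) {δ v : ℝ} (hδ : 0 < δ) (hv : v < l.info) :
    ∀ᶠ k in UF, HasLc (fun i => A i k) δ v := by
  have h1 := eventually_gt_of_lt_ul (hl.ub hA) hv
  have h2 : ∀ᶠ k in UF, ∀ i, Used δ i → (l k).leak (A i k) ≤ δ * (S.F k).n := by
    refine ev_used hδ fun i => ?_
    filter_upwards [(show Tendsto _ _ _ from hl i).eventually (gt_mem_nhds hδ)] with k hk
    rw [div_lt_iff₀ (S.F k).pos] at hk
    exact hk.le
  filter_upwards [h1, h2] with k a b
  rw [lt_div_iff₀ (S.F k).pos] at a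
  exact ⟨l k, b, a.le⟩

theorem of_hasLc {S : Sp} {κ : Type} [Encodable κ] {A : κ → Part S} {i₀ : κ} (hA : (A i₀).Bd) {v : ℝ}
    (h0 : ∀ δ : ℝ, 0 < δ → ∀ᶠ k in UF, HasLc (fun i => A i k) δ (v - δ)) : ∃ l : Lab S, l.DMf A ∧ v ≤ l.info := by
  have h1 : ∀ j : ℕ, ∀ᶠ k in UF, HasLc (fun i => A i k) (1 / ((j : ℝ) + 1)) (v - 1 / ((j : ℝ) + 1)) := fun j =>
    h0 _ (by positivity)
  obtain ⟨J, hJ, hJ2⟩ := dia (fun j k => HasLc (fun i => A i k) (1 / ((j : ℝ) + 1)) (v - 1 / ((j : ℝ) + 1))) h1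
  classical
  set l : Lab S := fun k => if hk : HasLc (fun i => A i k) (1 / ((J k : ℝ) + 1)) (v - 1 / ((J k : ℝ) + 1)) then
    hk.choose else FLab.triv (S.F k) with hf
  have hq : ∀ᶠ k in UF, (∀ i, Used (1 / ((J k : ℝ) + 1)) i → (l k).leak (A i k) ≤ 1 / ((J k : ℝ) + 1) * (S.F k).n) ∧
      (v - 1 / ((J k : ℝ) + 1)) * (S.F k).n ≤ (l k).info := by
    filter_upwards [hJ2] with k hk
    have hk' := hk (J k) le_rfl
    have e : l k = hk'.choose := by
      rw [hf]; exact dif_pos hk'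
    rw [e]
    exact hk'.choose_spec
  have ht := inv_tendsto hJ
  have hd : l.DMf A := by
    intro i
    refine tendsto_of_tendsto_of_tendsto_of_le_of_le' tendsto_const_nhds ht
      (Eventually.of_forall fun k => div_nonneg (FLab.leak_nonneg _ _) (S.F k).pos.le) ?_
    filter_upwards [hq, used_ev ht i] with k hk hu
    rw [div_le_iff₀ (S.F k).pos]
    exact hk.1 i hu
  refine ⟨l, hd, ?_⟩
  refine le_of_tendsto_of_tendsto (f := fun k => v - 1 / ((J k : ℝ) + 1)) ?_ (ul_tendsto (hd.ub hA)) ?_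
  · have := ht.const_sub v
    rwa [sub_zero] at this
  · filter_upwards [hq] with k hk
    rw [le_div_iff₀ (S.F k).pos]
    exact hk.2

/-- exact connectedness in finite form, for countably many conditions -/
theorem conf_iff_hasLc {S : Sp} {κ : Type} [Encodable κ] {A : κ → Part S} {i₀ : κ} (hA : (A i₀).Bd) :
    Lab.Conf A ↔ ∀ v : ℝ, 0 < v → ∃ δ : ℝ, 0 < δ ∧ ∀ᶠ k in UF, ¬ HasLc (fun a => A a k) δ v := by
  constructor
  · intro hc v hv
    by_contra hn
    obtain ⟨l, hl, hv'⟩ := of_hasLc (A := A) (i₀ := i₀) hA (v := v) fun δ hδ => by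
      have h2 := UF_not (fun hh => hn ⟨δ, hδ, hh⟩)
      filter_upwards [h2] with k hk
      exact (not_not.mp hk).mono le_rfl (by linarith)
    have := Lab.Conf.info hc hl
    linarith
  · intro hc
    refine Lab.conf_of_info (i := i₀) hA fun l hl => ?_
    by_contra hn
    rw [not_le] at hn
    obtain ⟨δ, hδ, h1⟩ := hc (l.info / 2) (by linarith)
    obtain ⟨k, a, b⟩ := (h1.and (hasLc_of hl (i₀ := i₀) hA hδ
      (show l.info / 2 < l.info by linarith))).exists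
    exact a b

section
variable {S : ℕ → Sp} {κ : Type} [Encodable κ] {A : ∀ j, κ → Part (S j)}

/-- the slowness conditions for the labels of the diagonal, countably many conditions -/
def labC (A : ∀ j, κ → Part (S j)) : ℕ → ℕ → ℕ → Prop :=
  losE fun i j k => HasLc (fun a => A j a k) (1 / (((Nat.unpair i).1 : ℝ) + 1))
    ((Encodable.decode (α := ℚ) (Nat.unpair i).2).getD 0 : ℚ)

theorem labC_ev (A : ∀ j, κ → Part (S j)) (i j : ℕ) : ∀ᶠ k in UF, labC A i j k := losE_ev _ i j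

/-- LABELS OF THE DIAGONAL ARE SLOW LABELS, countably many conditions -/
theorem slow_iffc {J : ℕ → ℕ} (h : Slo S (labC A) J) {i₀ : κ}
    (hA : (dpart (fun j => A j i₀) J h.lim).Bd) (v : ℝ) :
    (∃ l : Lab (dsp S J h.lim), l.DMf (fun i => dpart (fun j => A j i) J h.lim) ∧ v ≤ l.info) ↔
      ∀ δ : ℝ, 0 < δ → ∀ᶠ k in UF, ∀ᶠ k' in UF, HasLc (fun a => A (J k) a k') δ (v - δ) := by
  have key : ∀ (i : ℕ) (q : ℚ), (∀ᶠ k in UF, HasLc (fun a => A (J k) a k) (1 / ((i : ℝ) + 1)) (q : ℝ)) ↔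
      ∀ᶠ k in UF, ∀ᶠ k' in UF, HasLc (fun a => A (J k) a k') (1 / ((i : ℝ) + 1)) (q : ℝ) := by
    intro i q
    have h1 := los h (Nat.pair i (Encodable.encode q))
    simp only [Nat.unpair_pair, Encodable.encodek, Option.getD_some] at h1
    exact h1
  constructor
  · rintro ⟨l, hl, hv⟩ δ hδ
    obtain ⟨i, hi⟩ := exists_nat_one_div_lt hδ
    obtain ⟨q, hq, hq'⟩ := exists_rat_btwn (show v - δ < v by linarith)
    have h1 := hasLc_of (S := dsp S J h.lim) hl hA (δ := 1 / ((i : ℝ) + 1)) (by positivity)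
      (show (q : ℝ) < l.info by linarith)
    have h2 := (key i q).mp h1
    filter_upwards [h2] with k hk
    filter_upwards [hk] with k' hk'
    exact hk'.mono hi.le hq.le
  · intro h1
    refine of_hasLc (S := dsp S J h.lim) hA fun δ hδ => ?_
    obtain ⟨i, hi⟩ := exists_nat_one_div_lt (show (0 : ℝ) < δ / 2 by linarith)
    obtain ⟨q, hq, hq'⟩ := exists_rat_btwn (show v - δ < v - δ / 2 by linarith)
    have h2 : ∀ᶠ k in UF, ∀ᶠ k' in UF, HasLc (fun a => A (J k) a k') (1 / ((i : ℝ) + 1)) (q : ℝ) := by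
      have hpos : (0 : ℝ) < 1 / ((i : ℝ) + 1) := by positivity
      filter_upwards [h1 (min (1 / ((i : ℝ) + 1)) (δ / 2)) (lt_min hpos (by linarith))] with k hk
      filter_upwards [hk] with k' hk'
      refine hk'.mono (min_le_left _ _) ?_
      have := min_le_right (1 / ((i : ℝ) + 1)) (δ / 2)
      linarith
    have h3 := (key i q).mpr h2
    filter_upwards [h3] with k hk
    exact hk.mono (by linarith) hq.le

/-- EXACT CONNECTEDNESS OF THE DIAGONAL = no slow labels, countably many conditions -/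
theorem conf_dg_iffc {J : ℕ → ℕ} (h : Slo S (labC A) J) {i₀ : κ}
    (hA : (dpart (fun j => A j i₀) J h.lim).Bd) :
    Lab.Conf (fun i => dpart (fun j => A j i) J h.lim) ↔
      ∀ v : ℝ, 0 < v → ∃ δ : ℝ, 0 < δ ∧ ∀ᶠ k in UF, ∀ᶠ k' in UF, ¬ HasLc (fun a => A (J k) a k') δ v := by
  constructor
  · intro hc v hv
    by_contra hn
    have h1 : ∃ l : Lab (dsp S J h.lim), l.DMf (fun i => dpart (fun j => A j i) J h.lim) ∧ v ≤ l.info := by
      rw [slow_iffc h hA]
      intro δ hδ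
      have h2 := UF_not (fun hh => hn ⟨δ, hδ, hh⟩)
      filter_upwards [h2] with k hk
      have h3 := UF_not hk
      filter_upwards [h3] with k' hk'
      exact (not_not.mp hk').mono le_rfl (by linarith)
    obtain ⟨l, hl, hv'⟩ := h1
    have := hc.info hl
    linarith
  · intro hc
    refine Lab.conf_of_info (i := i₀) hA fun l hl => ?_
    by_contra hn
    rw [not_le] at hn
    obtain ⟨δ, hδ, h1⟩ := hc (l.info / 2) (by linarith)
    have h2 := (slow_iffc h hA l.info).mp ⟨l, hl, le_rfl⟩ (min δ (l.info / 2)) (lt_min hδ (by linarith))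
    obtain ⟨k, a, b⟩ := (h1.and h2).exists
    obtain ⟨k', a', b'⟩ := (a.and b).exists
    refine a' (b'.mono (min_le_left _ _) ?_)
    have := min_le_right δ (l.info / 2)
    linarith

end

/-! ### systems of leaves with countably many types -/

variable {S T : Sp} {M : ℕ} {E : ℕ → ℕ} {ι : Type} [Encodable ι]

/-- a system of leaves, up to `δ`, countably many types -/
def McP (E : ℕ → ℕ) (F : FSp) {M : ℕ} {ι : Type} [Encodable ι] (x : FMs F.Ω M ι) (δ : ℝ) : Prop :=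
  (∃ c, tmc F δ c ∧ ∀ ω, F.μ ω ≠ 0 → ∀ i, |x.Q ω i| ≤ c) ∧ ∀ i, Used δ i → LfP E F x.Q (x.lf i) δ

/-- systems of leaves with countably many types as an approximate predicate -/
def mcA (M : ℕ) (E : ℕ → ℕ) (ι : Type) [Encodable ι] : AP (KM M ι) where
  P := fun F x δ => McP E F x δ
  mono := fun _ _ _ _ h hx => ⟨hx.1.imp fun _ hc => ⟨hc.1.mono h, hc.2⟩, fun i hi => (hx.2 i (hi.mono h)).mono h⟩

/-- the object `x` is given by the system `s` (each type eventually) -/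
def Giv (s : MSys S M E ι) (x : (KM M ι).Ob S) : Prop :=
  (∀ᶠ k in UF, s.Q.v k = (x k : FMs (S.F k).Ω M ι).Q) ∧
    ∀ i, ∀ᶠ k in UF, lob (s.lf i) k = (x k : FMs (S.F k).Ω M ι).lf i

omit [Encodable ι] in
theorem Giv_ob (s : MSys S M E ι) : Giv s (ob s) :=
  ⟨Eventually.of_forall fun _ => rfl, fun _ => Eventually.of_forall fun _ => rfl⟩

theorem McP_ob (s : MSys S M E ι) : (mcA M E ι).pd 0 S (ob s) := by
  intro δ hδ
  have h1 := (sub_iff (S := S) fun k c => ∀ ω, (S.F k).μ ω ≠ 0 → ∀ i, |s.Q.v k ω i| ≤ c).mp s.Q.bd δ hδ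
  have h2 : ∀ᶠ k in UF, ∀ i, Used δ i → LfP E (S.F k) (s.Q.v k) (lob (s.lf i) k) δ :=
    ev_used hδ fun i => LfP_lob (s.lf i) hδ
  filter_upwards [h1, h2] with k a b using ⟨a, b⟩

theorem McP_giv {s : MSys S M E ι} {x : (KM M ι).Ob S} (h : Giv s x) : (mcA M E ι).pd 0 S x := by
  intro δ hδ
  have h2 : ∀ᶠ k in UF, ∀ i, Used δ i → lob (s.lf i) k = (x k : FMs (S.F k).Ω M ι).lf i := ev_used hδ h.2
  filter_upwards [McP_ob s δ hδ, h.1, h2] with k a b c
  refine ⟨?_, fun i hi => ?_⟩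
  · obtain ⟨c0, hc0, hc1⟩ := a.1
    refine ⟨c0, hc0, fun ω hω i => ?_⟩
    rw [← b]
    exact hc1 ω hω i
  · have a2 := a.2 i hi
    rw [← c i hi, ← b]
    exact a2

/-- SYSTEMS OF LEAVES FROM FINITE DATA, countably many types -/
theorem msysc_of {x : (KM M ι).Ob S} (hx : (mcA M E ι).pd 0 S x) : ∃ s : MSys S M E ι, Giv s x := by
  classical
  have h1 := hx 1 one_pos
  have bQ : ∃ c : ℕ → ℝ, S.Sub c ∧ ∀ᶠ k in UF, ∀ ω, (S.F k).μ ω ≠ 0 → ∀ i, |(x k : FMs (S.F k).Ω M ι).Q ω i| ≤ c k :=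
    (sub_iff (S := S) fun k c => ∀ ω, (S.F k).μ ω ≠ 0 → ∀ i, |(x k : FMs (S.F k).Ω M ι).Q ω i| ≤ c).mpr fun δ hδ =>
      (hx δ hδ).mono fun k hk => hk.1
  set Q : S.VV M := ⟨fun k => (x k : FMs (S.F k).Ω M ι).Q, bQ⟩ with hQ
  -- the predicate for each type
  have h0 : ∀ i, ∀ δ : ℝ, 0 < δ → ∀ᶠ k in UF, LfP E (S.F k) (Q.v k) ((x k : FMs (S.F k).Ω M ι).lf i) δ := by
    intro i δ hδ
    have hm : 0 < min δ (1 / ((Encodable.encode i : ℝ) + 1)) := lt_min hδ (by positivity)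
    filter_upwards [hx _ hm] with k hk
    refine (hk.2 i ?_).mono (min_le_left _ _)
    have h3 : (Encodable.encode i : ℝ) * min δ (1 / ((Encodable.encode i : ℝ) + 1)) ≤
        Encodable.encode i * (1 / ((Encodable.encode i : ℝ) + 1)) :=
      mul_le_mul_of_nonneg_left (min_le_right _ _) (Nat.cast_nonneg _)
    refine h3.trans ?_
    rw [mul_one_div, div_le_one (by positivity)]
    linarith
  have h2 : ∀ i, ∃ e ≤ E 0, ∀ᶠ k in UF, ((x k : FMs (S.F k).Ω M ι).lf i).e = e := fun i =>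
    exists_const_nat _ _ ((h0 i 1 one_pos).mono fun k hk => hk.1)
  choose e _ he2 using h2
  have h3 : ∀ i, ∃ l : Leaf S Q E, ∀ k, lob l k = ((x k : FMs (S.F k).Ω M ι).lf i).cast (e i) := fun i =>
    leaf_of (e i) (fun k => (x k : FMs (S.F k).Ω M ι).lf i) fun δ hδ => by
      filter_upwards [h0 i δ hδ, he2 i] with k a b
      rw [FLf.cast_eq _ b]
      exact a
  choose l hl using h3
  refine ⟨⟨Q, l⟩, Eventually.of_forall fun _ => rfl, fun i => ?_⟩
  filter_upwards [he2 i] with k hk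
  rw [hl i k, FLf.cast_eq _ hk]

/-- the predicate 'system of leaves with countably many types' -/
def isMc (M : ℕ) (E : ℕ → ℕ) (ι : Type) [Encodable ι] : (KM M ι).Pd := fun S x => ∃ s : MSys S M E ι, Giv s x

theorem isMc_iff {x : (KM M ι).Ob S} : isMc M E ι S x ↔ (mcA M E ι).pd 0 S x :=
  ⟨fun ⟨_, hs⟩ => McP_giv hs, msysc_of⟩

theorem isMc_ob (s : MSys S M E ι) : isMc M E ι S (ob s) := ⟨s, Giv_ob s⟩

theorem isMc_inv : Inv (isMc M E ι) := by
  rintro S x y e ⟨s, h1, h2⟩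
  refine ⟨s, by filter_upwards [h1, e] with k a b using a.trans (by rw [b]), fun i => ?_⟩
  filter_upwards [h2 i, e] with k a b
  rw [a, b]

/-- DIAGONALS OF SYSTEMS WITH COUNTABLY MANY TYPES -/
theorem isMc_diagCl : DiagCl (isMc M E ι) :=
  ((mcA M E ι).diagCl 0).mono (fun _ _ _ h => isMc_iff.mp h) (fun _ _ h => isMc_iff.mpr h)

theorem isMc_diagTo {ε : ℕ → ℝ} (hε : Tendsto ε atTop (𝓝 0)) :
    DiagTo (fun j => (mcA M E ι).pd (ε j)) (isMc M E ι) :=
  ((mcA M E ι).diagTo hε).mono (fun _ _ _ h => h) (fun _ _ h => isMc_iff.mpr h)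

theorem isMc_imCl : ImCl (isMc M E ι) := by
  rintro S x ⟨s, h1, h2⟩ T p A hA
  exact ⟨s.im p A hA, h1.mono fun k hk => hk, fun i => (h2 i).mono fun k hk => hk⟩

/-! ### limits of systems with countably many types -/

omit [Encodable ι] in
/-- the conditions of a given object -/
theorem giv_cnd {s : MSys S M E ι} {x : (KM M ι).Ob S} (h : Giv s x) (c : ℝ) (i : Option ι) :
    ∀ᶠ k in UF, s.cnd c i k = FMs.cnd (S.F k) (x k) c i := by
  cases i with
  | none =>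
    filter_upwards [h.1] with k hk
    show fc (Setoid.ker fun ω => cell (dlF (S.F k) 1) (s.Q.v k ω)) = _
    rw [hk]
    rfl
  | some i =>
    filter_upwards [h.2 i] with k hk
    show FLf.win (S.F k) (lob (s.lf i) k) c = _
    rw [hk]
    rfl

/-- `t` is the limit of the systems `s j` along `J` -/
def IsLim {S : ℕ → Sp} (s : ∀ j, MSys (S j) M E ι) (J : ℕ → ℕ) (hn : Tendsto (fun k => ((S (J k)).F k).n) UF atTop)
    (t : MSys (dsp S J hn) M E ι) : Prop := Giv t ((KM M ι).dgo S (fun j => ob (s j)) J hn)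

/-- EXISTENCE OF LIMITS, countably many types -/
theorem exists_limc {S : ℕ → Sp} (s : ∀ j, MSys (S j) M E ι) :
    ∃ R : ℕ → ℕ → ℕ → Prop, (∀ i j, ∀ᶠ k in UF, R i j k) ∧ ∀ (J : ℕ → ℕ) (h : Slo S R J),
      ∃ t : MSys (dsp S J h.lim) M E ι, IsLim s J h.lim t := by
  obtain ⟨R, hR, h1⟩ := isMc_diagCl (M := M) (E := E) (ι := ι) S (fun j => ob (s j)) fun j => isMc_ob (s j)
  exact ⟨R, hR, fun J h => h1 J h⟩

theorem IsLim.cnd {S : ℕ → Sp} {s : ∀ j, MSys (S j) M E ι} {J : ℕ → ℕ}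
    {hn : Tendsto (fun k => ((S (J k)).F k).n) UF atTop} {t : MSys (dsp S J hn) M E ι} (h : IsLim s J hn t) (c : ℝ)
    (i : Option ι) : ∀ᶠ k in UF, t.cnd c i k = (s (J k)).cnd c i k := by
  filter_upwards [giv_cnd h c i] with k hk
  rw [hk, cnd_ob]
  rfl

/-- the slowness conditions of the windows `c q`, countably many types -/
def wincE {S : ℕ → Sp} (s : ∀ j, MSys (S j) M E ι) (c : ℕ → ℝ) : ℕ → ℕ → ℕ → Prop := fun i j k =>
  labC (S := S) (fun j a => (s j).cnd (c (Nat.unpair i).1) a) (Nat.unpair i).2 j k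

theorem wincE_ev {S : ℕ → Sp} (s : ∀ j, MSys (S j) M E ι) (c : ℕ → ℝ) (i j : ℕ) : ∀ᶠ k in UF, wincE s c i j k :=
  labC_ev _ _ _

theorem IsLim.bd {S : ℕ → Sp} {s : ∀ j, MSys (S j) M E ι} {J : ℕ → ℕ}
    {hn : Tendsto (fun k => ((S (J k)).F k).n) UF atTop} {t : MSys (dsp S J hn) M E ι} (h : IsLim s J hn t) (c : ℝ) :
    (dpart (fun j => (s j).cnd c none) J hn).Bd := by
  obtain ⟨C, hC⟩ := pcd_Bd t.Q
  refine ⟨C, ?_⟩
  filter_upwards [hC, h.cnd c none] with k a b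
  have e : dpart (fun j => (s j).cnd c none) J hn k = t.cnd c none k := b.symm
  rw [e]
  exact a

/-- LABELS OF THE LIMIT AT THE WINDOW `c q` ARE THE SLOW LABELS, countably many types -/
theorem IsLim.lab {S : ℕ → Sp} {s : ∀ j, MSys (S j) M E ι} {c : ℕ → ℝ} {J : ℕ → ℕ} (h : Slo S (wincE s c) J)
    {t : MSys (dsp S J h.lim) M E ι} (e : IsLim s J h.lim t) (q : ℕ) (v : ℝ) :
    (∃ l : Lab (dsp S J h.lim), t.DMc (c q) l ∧ v ≤ l.info) ↔
      ∀ δ : ℝ, 0 < δ → ∀ᶠ k in UF, ∀ᶠ k' in UF, HasLc (fun a => (s (J k)).cnd (c q) a k') δ (v - δ) := by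
  have h1 : Slo S (labC (S := S) (fun j a => (s j).cnd (c q) a)) J :=
    Slo.prm (E := fun q i j k => labC (S := S) (fun j a => (s j).cnd (c q) a) i j k) h q
  have e' : ∀ i, ∀ᶠ k in UF, t.cnd (c q) i k = dpart (fun j => (s j).cnd (c q) i) J h.lim k := fun i =>
    e.cnd (c q) i
  rw [← slow_iffc h1 (i₀ := none) (e.bd (c q)) v]
  constructor
  · rintro ⟨l, hl, hv⟩
    exact ⟨l, (DMf_congr e' l).mp hl, hv⟩
  · rintro ⟨l, hl, hv⟩
    exact ⟨l, (DMf_congr e' l).mpr hl, hv⟩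

/-- THE LIMIT IS EXACTLY CONNECTED iff there are no slow labels, countably many types -/
theorem IsLim.con_iff {S : ℕ → Sp} {s : ∀ j, MSys (S j) M E ι} {c : ℕ → ℝ} {J : ℕ → ℕ}
    (h : Slo S (wincE s c) J) {t : MSys (dsp S J h.lim) M E ι} (e : IsLim s J h.lim t) (q : ℕ) :
    t.Con (c q) ↔ ∀ v : ℝ, 0 < v → ∃ δ : ℝ, 0 < δ ∧ ∀ᶠ k in UF, ∀ᶠ k' in UF,
      ¬ HasLc (fun a => (s (J k)).cnd (c q) a k') δ v := by
  have h1 : Slo S (labC (S := S) (fun j a => (s j).cnd (c q) a)) J :=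
    Slo.prm (E := fun q i j k => labC (S := S) (fun j a => (s j).cnd (c q) a) i j k) h q
  have e' : ∀ i, ∀ᶠ k in UF, t.cnd (c q) i k = dpart (fun j => (s j).cnd (c q) i) J h.lim k := fun i =>
    e.cnd (c q) i
  rw [← conf_dg_iffc h1 (i₀ := none) (e.bd (c q))]
  constructor
  · intro hc l hl
    exact hc l ((DMf_congr e' l).mpr hl)
  · intro hc l hl
    exact hc l ((DMf_congr e' l).mp hl)

theorem con_iff_hasLc {s : MSys S M E ι} {c : ℝ} :
    s.Con c ↔ ∀ v : ℝ, 0 < v → ∃ δ : ℝ, 0 < δ ∧ ∀ᶠ k in UF, ¬ HasLc (fun a => s.cnd c a k) δ v :=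
  conf_iff_hasLc (i₀ := none) (pcd_Bd s.Q)

/-- UNIFORM CONNECTEDNESS of a class of exactly connected systems with countably many types -/
theorem con_unifc {C : (KM M ι).Pd} (hC : DiagCl C) (hM : ∀ S x, C S x → isMc M E ι S x) {c : ℝ}
    (hc : ∀ (S : Sp) (s : MSys S M E ι) (x : (KM M ι).Ob S), Giv s x → C S x → s.Con c) {v : ℝ} (hv : 0 < v) :
    ∃ δ : ℝ, 0 < δ ∧ ∀ (S : Sp) (s : MSys S M E ι), C S (ob s) → ∀ᶠ k in UF, ¬ HasLc (fun a => s.cnd c a k) δ v := by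
  obtain ⟨δ, hδ, h1⟩ := unif_ex hC (X := fun F _ => FLab F)
    (fun F x l δ => (∀ i, Used δ i → l.leak (FMs.cnd F x c i) ≤ δ * F.n) ∧ v * F.n ≤ l.info)
    (fun F x l δ δ' h hl => ⟨fun i hi => (hl.1 i (hi.mono h)).trans (mul_le_mul_of_nonneg_right h F.pos.le), hl.2⟩) (by
      rintro S x hx ⟨y, hy⟩
      obtain ⟨s, hs⟩ := hM S x hx
      have hcs := hc S s x hs hx
      obtain ⟨δ, hδ, h2⟩ := (con_iff_hasLc.mp hcs) v hv
      have e : ∀ᶠ k in UF, ∀ i : Option ι, Used δ i → s.cnd c i k = FMs.cnd (S.F k) (x k) c i :=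
        ev_used hδ fun i => giv_cnd hs c i
      obtain ⟨k, ⟨z, _, hz⟩, b, e⟩ := ((hy δ hδ).and (h2.and e)).exists
      refine b ⟨z, fun i hi => ?_, hz.2⟩
      show z.leak (s.cnd c i k) ≤ δ * (S.F k).n
      rw [e i hi]
      exact hz.1 i hi)
  refine ⟨δ, hδ, fun S s hs => ?_⟩
  filter_upwards [h1 S (ob s) hs] with k hk
  rintro ⟨l, hl, hv'⟩
  refine hk l ⟨fun i hi => ?_, hv'⟩
  have h3 : l.leak (s.cnd c i k) ≤ δ * (S.F k).n := hl i hi
  rw [cnd_ob] at h3
  exact h3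

end

end Pool.Agent.Helper49.MD
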