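import Pool.Agent.Helper16.MD.Stmts

open Finset Filter
open scoped ComplexConjugate

namespace Pool.Agent.Helper16.MD

theorem tkb_sqrt (N p : ℕ) : Real.sqrt ((N / p : ℕ) : ℝ) ≤ Real.sqrt N := by
  apply Real.sqrt_le_sqrt
  exact_mod_cast Nat.div_le_self N p

theorem tkb_div (N p : ℕ) : ((N / p : ℕ) : ℝ) ≤ (N : ℝ) * (1 / (p : ℝ)) := by
  rw [mul_one_div]
  exact Nat.cast_div_le

theorem st_TKB (hTKA : ST_TKA) : ST_TKB := by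
  intro S₁ S₂ S₃ h₁ h₂ h₃ A₁ A₂ A₃ B₁ B₂ B₃ hA₁ hA₂ hA₃ hB₁ hB₂ hB₃
  obtain ⟨C₁, hC₁, H₁⟩ := hTKA S₁ h₁
  obtain ⟨C₂, hC₂, H₂⟩ := hTKA S₂ h₂
  obtain ⟨C₃, hC₃, H₃⟩ := hTKA S₃ h₃
  rw [← hA₁, ← hB₁] at H₁
  rw [← hA₂, ← hB₂] at H₂
  rw [← hA₃, ← hB₃] at H₃
  have a₁ : 0 ≤ A₁ := by rw [hA₁]; positivity
  have a₂ : 0 ≤ A₂ := by rw [hA₂]; positivity
  have a₃ : 0 ≤ A₃ := by rw [hA₃]; positivity
  have b₁ : 0 ≤ B₁ := by rw [hB₁]; positivity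
  have b₂ : 0 ≤ B₂ := by rw [hB₂]; positivity
  have b₃ : 0 ≤ B₃ := by rw [hB₃]; positivity
  refine ⟨A₂ * A₃ * C₁ + A₃ * (C₂ * S₁.card) + C₃ * (S₁.card * S₂.card), by positivity, ?_⟩
  intro f N hf
  set E₁ : ℂ := (A₁ : ℂ) * MS f N + ∑ p ∈ S₁, MS (fun y => f (p * y)) (N / p) with hE₁
  set E₂ : ℕ → ℂ := fun p => (A₂ : ℂ) * MS (fun y => f (p * y)) (N / p) +
    ∑ q ∈ S₂, MS (fun y => f (p * (q * y))) (N / p / q) with hE₂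
  set E₃ : ℕ → ℕ → ℂ := fun p q => (A₃ : ℂ) * MS (fun y => f (p * (q * y))) (N / p / q) +
    ∑ r ∈ S₃, MS (fun y => f (p * (q * (r * y)))) (N / p / q / r) with hE₃
  have e₁ : ‖E₁‖ ≤ N * (Real.sqrt A₁ + B₁) + C₁ * Real.sqrt N := H₁ f N hf
  have e₂ : ∀ p ∈ S₁, ‖E₂ p‖ ≤ N * (1 / (p : ℝ)) * (Real.sqrt A₂ + B₂) + C₂ * Real.sqrt N := by
    intro p _
    refine (H₂ (fun y => f (p * y)) (N / p) (fun n => hf _)).trans ?_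
    apply add_le_add
    · exact mul_le_mul_of_nonneg_right (tkb_div N p) (by positivity)
    · exact mul_le_mul_of_nonneg_left (tkb_sqrt N p) hC₂
  have e₃ : ∀ p ∈ S₁, ∀ q ∈ S₂, ‖E₃ p q‖ ≤
      N * (1 / (p : ℝ)) * (1 / (q : ℝ)) * (Real.sqrt A₃ + B₃) + C₃ * Real.sqrt N := by
    intro p _ q _
    refine (H₃ (fun y => f (p * (q * y))) (N / p / q) (fun n => hf _)).trans ?_
    apply add_le_add
    · apply mul_le_mul_of_nonneg_right _ (by positivity)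
      refine (tkb_div (N / p) q).trans ?_
      exact mul_le_mul_of_nonneg_right (tkb_div N p) (by positivity)
    · apply mul_le_mul_of_nonneg_left _ hC₃
      exact (tkb_sqrt (N / p) q).trans (tkb_sqrt N p)
  have key : ((A₁ * A₂ * A₃ : ℝ) : ℂ) * MS f N +
      ∑ p ∈ S₁, ∑ q ∈ S₂, ∑ r ∈ S₃, MS (fun y => f (p * (q * r) * y)) (N / (p * (q * r))) =
      (A₂ * A₃ : ℂ) * E₁ - (A₃ : ℂ) * ∑ p ∈ S₁, E₂ p + ∑ p ∈ S₁, ∑ q ∈ S₂, E₃ p q := by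
    have k1 : ∑ p ∈ S₁, ∑ q ∈ S₂, ∑ r ∈ S₃, MS (fun y => f (p * (q * r) * y)) (N / (p * (q * r))) =
        ∑ p ∈ S₁, ∑ q ∈ S₂, ∑ r ∈ S₃, MS (fun y => f (p * (q * (r * y)))) (N / p / q / r) := by
      refine sum_congr rfl fun p _ => sum_congr rfl fun q _ => sum_congr rfl fun r _ => ?_
      rw [Nat.div_div_eq_div_mul, Nat.div_div_eq_div_mul]
      simp only [mul_assoc]
    rw [k1, hE₁, hE₂, hE₃]
    simp only [sum_add_distrib, mul_add, mul_sum]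
    push_cast
    have k2 : ∑ p ∈ S₁, (A₂ * A₃ : ℂ) * MS (fun y => f (p * y)) (N / p) =
        ∑ p ∈ S₁, (A₃ : ℂ) * ((A₂ : ℂ) * MS (fun y => f (p * y)) (N / p)) :=
      sum_congr rfl fun p _ => by ring
    rw [k2]
    ring
  rw [key]
  have n₁ : ‖(A₂ * A₃ : ℂ) * E₁‖ ≤ A₂ * A₃ * (N * (Real.sqrt A₁ + B₁) + C₁ * Real.sqrt N) := by
    rw [norm_mul, norm_mul, Complex.norm_real, Complex.norm_real, Real.norm_of_nonneg a₂,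
      Real.norm_of_nonneg a₃]
    exact mul_le_mul_of_nonneg_left e₁ (by positivity)
  have n₂ : ‖(A₃ : ℂ) * ∑ p ∈ S₁, E₂ p‖ ≤
      A₃ * (N * A₁ * (Real.sqrt A₂ + B₂) + S₁.card * (C₂ * Real.sqrt N)) := by
    rw [norm_mul, Complex.norm_real, Real.norm_of_nonneg a₃]
    apply mul_le_mul_of_nonneg_left _ a₃
    refine (norm_sum_le _ _).trans ((sum_le_sum e₂).trans (le_of_eq ?_))
    rw [sum_add_distrib, ← sum_mul, ← mul_sum, ← hA₁, sum_const, nsmul_eq_mul]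
  have n₃ : ‖∑ p ∈ S₁, ∑ q ∈ S₂, E₃ p q‖ ≤
      N * A₁ * A₂ * (Real.sqrt A₃ + B₃) + S₁.card * (S₂.card * (C₃ * Real.sqrt N)) := by
    have m₁ : ∀ p ∈ S₁, ‖∑ q ∈ S₂, E₃ p q‖ ≤
        N * (1 / (p : ℝ)) * A₂ * (Real.sqrt A₃ + B₃) + S₂.card * (C₃ * Real.sqrt N) := by
      intro p hp
      refine (norm_sum_le _ _).trans ((sum_le_sum (e₃ p hp)).trans (le_of_eq ?_))
      rw [sum_add_distrib, ← sum_mul, ← mul_sum, ← hA₂, sum_const, nsmul_eq_mul]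
    refine (norm_sum_le _ _).trans ((sum_le_sum m₁).trans (le_of_eq ?_))
    rw [sum_add_distrib, ← sum_mul, ← sum_mul, ← mul_sum, ← hA₁, sum_const, nsmul_eq_mul]
  calc ‖(A₂ * A₃ : ℂ) * E₁ - (A₃ : ℂ) * ∑ p ∈ S₁, E₂ p + ∑ p ∈ S₁, ∑ q ∈ S₂, E₃ p q‖
      ≤ ‖(A₂ * A₃ : ℂ) * E₁‖ + ‖(A₃ : ℂ) * ∑ p ∈ S₁, E₂ p‖ + ‖∑ p ∈ S₁, ∑ q ∈ S₂, E₃ p q‖ :=
        (norm_add_le _ _).trans (add_le_add (norm_sub_le _ _) le_rfl)
    _ ≤ A₂ * A₃ * (N * (Real.sqrt A₁ + B₁) + C₁ * Real.sqrt N) +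
        A₃ * (N * A₁ * (Real.sqrt A₂ + B₂) + S₁.card * (C₂ * Real.sqrt N)) +
        (N * A₁ * A₂ * (Real.sqrt A₃ + B₃) + S₁.card * (S₂.card * (C₃ * Real.sqrt N))) :=
        add_le_add (add_le_add n₁ n₂) n₃
    _ = _ := by ring

end Pool.Agent.Helper16.MD
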