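import Pool.Agent.Helper49.MD.Ap
import Pool.Agent.Helper49.MT.Add
import Pool.Agent.Helper89.LX.Can

/-! LABELS OF DIAGONALS: labels of the diagonal and slow labels of the sequence; transfer of existential finite
statements (los); values of finite functionals along diagonals; diagonals of extensions. -/

set_option autoImplicit false

namespace Pool.Agent.Helper49.MD

open Finset Filter Topology Pool.Agent.Helper69.RK Pool.Agent.Helper31.EC Pool.Agent.Helper31.EC.Sp
open Pool.Agent.Helper40.EL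

noncomputable section

/-! ### transfer of existential statements -/

/-- a finite statement has eventually its eventual truth value -/
theorem los_cond (φ : ℕ → Prop) : ∀ᶠ k in UF, (φ k ↔ ∀ᶠ k' in UF, φ k') := by
  rcases UF_em φ with h | h
  · filter_upwards [h] with k hk
    exact ⟨fun _ => h, fun _ => hk⟩
  · filter_upwards [h] with k hk
    refine ⟨fun h1 => absurd h1 hk, fun h1 => ?_⟩
    obtain ⟨k', h2, h3⟩ := (h.and h1).exists
    exact absurd h3 h2

/-- the slowness condition of a countable list of finite statements -/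
def losE (φ : ℕ → ℕ → ℕ → Prop) (i j k : ℕ) : Prop := φ i j k ↔ ∀ᶠ k' in UF, φ i j k'

theorem losE_ev (φ : ℕ → ℕ → ℕ → Prop) (i j : ℕ) : ∀ᶠ k in UF, losE φ i j k := los_cond _

/-- LOS: a finite statement holds in the diagonal iff it holds (eventually) in the spaces of the sequence -/
theorem los {S : ℕ → Sp} {φ : ℕ → ℕ → ℕ → Prop} {J : ℕ → ℕ} (h : Slo S (losE φ) J) (i : ℕ) :
    (∀ᶠ k in UF, φ i (J k) k) ↔ ∀ᶠ k in UF, ∀ᶠ k' in UF, φ i (J k) k' := by
  constructor
  · intro h1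
    filter_upwards [h1, h.slow i] with k a b using b.mp a
  · intro h1
    filter_upwards [h1, h.slow i] with k a b using b.mpr a

/-- LOS with witnesses: `X j k` is any family of types (labels, labels with forms, extensions of the `k`-th finite
space of the `j`-th space, ...) -/
theorem los_ex {S : ℕ → Sp} {X : ℕ → ℕ → Type*} [∀ j k, Nonempty (X j k)] (Φ : ℕ → ∀ j k, X j k → Prop) {J : ℕ → ℕ}
    (h : Slo S (losE fun i j k => ∃ x : X j k, Φ i j k x) J) (i : ℕ) :
    (∃ x : ∀ k, X (J k) k, ∀ᶠ k in UF, Φ i (J k) k (x k)) ↔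
      ∀ᶠ k in UF, ∃ y : ∀ k', X (J k) k', ∀ᶠ k' in UF, Φ i (J k) k' (y k') := by
  classical
  constructor
  · rintro ⟨x, hx⟩
    have h1 := (los h i).mp (hx.mono fun k hk => ⟨x k, hk⟩)
    filter_upwards [h1] with k hk
    refine ⟨fun k' => if hk' : ∃ x : X (J k) k', Φ i (J k) k' x then hk'.choose else Classical.arbitrary _, ?_⟩
    filter_upwards [hk] with k' hk'
    rw [dif_pos hk']
    exact hk'.choose_spec
  · intro h1
    have h2 := (los h i).mpr (h1.mono fun k ⟨y, hy⟩ => hy.mono fun k' hk' => ⟨y k', hk'⟩)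
    refine ⟨fun k => if hk : ∃ x : X (J k) k, Φ i (J k) k x then hk.choose else Classical.arbitrary _, ?_⟩
    filter_upwards [h2] with k hk
    rw [dif_pos hk]
    exact hk.choose_spec

/-- one space of the sequence with a witness -/
theorem los_back {S : ℕ → Sp} {X : ℕ → ℕ → Type*} [∀ j k, Nonempty (X j k)] (Φ : ℕ → ∀ j k, X j k → Prop)
    {J : ℕ → ℕ} (h : Slo S (losE fun i j k => ∃ x : X j k, Φ i j k x) J) (i : ℕ) (x : ∀ k, X (J k) k)
    (hx : ∀ᶠ k in UF, Φ i (J k) k (x k)) (N : ℕ) :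
    ∃ j, N ≤ j ∧ ∃ y : ∀ k', X j k', ∀ᶠ k' in UF, Φ i j k' (y k') := by
  obtain ⟨k, h1, h2⟩ := (((los_ex Φ h i).mp ⟨x, hx⟩).and (h.tend.eventually (eventually_ge_atTop N))).exists
  exact ⟨J k, h2, h1⟩

/-! ### labels -/

/-- diagonal of labels -/
def dlab {S : ℕ → Sp} (l : ∀ j, Lab (S j)) (J : ℕ → ℕ) (h : Tendsto (fun k => ((S (J k)).F k).n) UF atTop) :
    Lab (dsp S J h) := fun k => l (J k) k

/-- diagonal of conditions -/
def dpart {S : ℕ → Sp} (A : ∀ j, Part (S j)) (J : ℕ → ℕ) (h : Tendsto (fun k => ((S (J k)).F k).n) UF atTop) :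
    Part (dsp S J h) := fun k => A (J k) k

/-- the leaks of the labels `l j` at the conditions `A j i` are at most `ε j` -/
def lkE {S : ℕ → Sp} {κ : Type} (l : ∀ j, Lab (S j)) (A : ∀ j, κ → Part (S j)) (ε : ℕ → ℝ) (i : κ) (j k : ℕ) : Prop :=
  (l j k).leak (A j i k) / ((S j).F k).n ≤ ε j

/-- (UP) SLOW LABELS GIVE LABELS OF THE DIAGONAL: the leaks tend to zero; the conditions of the diagonal may be finer
than the diagonals of the conditions, up to `o(n)` -/
theorem dlab_DMf {S : ℕ → Sp} {κ : Type} {l : ∀ j, Lab (S j)} {A : ∀ j, κ → Part (S j)} {ε : ℕ → ℝ} {J : ℕ → ℕ}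
    (hJ : Tendsto J UF atTop) (hn : Tendsto (fun k => ((S (J k)).F k).n) UF atTop) (hε : Tendsto ε atTop (𝓝 0))
    (hl : ∀ i, ∀ᶠ k in UF, lkE l A ε i (J k) k) {A' : κ → Part (dsp S J hn)}
    (hA : ∀ i, Nul (dsp S J hn) (fun k => h (dpart (fun j => A j i) J hn k) (A' i k))) :
    (dlab l J hn).DMf A' := by
  have h1 : (dlab l J hn).DMf (fun i => dpart (fun j => A j i) J hn) := by
    intro i
    refine tendsto_of_tendsto_of_tendsto_of_le_of_le' tendsto_const_nhds (hε.comp hJ) ?_ ?_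
    · exact Eventually.of_forall fun k => div_nonneg (FLab.leak_nonneg _ _) ((dsp S J hn).F k).pos.le
    · exact (hl i).mono fun k hk => hk
  intro i
  exact (Lab.DM.mono (h1.dm i i) (hA i) (hA i)).1

/-- the slowness conditions for labels with leaks tending to zero exist -/
theorem lkE_ev {S : ℕ → Sp} {κ : Type} {l : ∀ j, Lab (S j)} {A : ∀ j, κ → Part (S j)} {ε : ℕ → ℝ}
    (hε : ∀ j, 0 < ε j) (hl : ∀ j, (l j).DMf (A j)) (i : κ) (j : ℕ) : ∀ᶠ k in UF, lkE l A ε i j k := by
  have h1 : Tendsto (fun k => (l j k).leak (A j i k) / ((S j).F k).n) UF (𝓝 0) := hl j i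
  exact (h1.eventually (gt_mem_nhds (hε j))).mono fun k hk => hk.le

/-- a label with all leaks at most `δ n` and information at least `v n` -/
def HasLb {F : FSp} {κ : Type} (A : κ → FL F) (δ v : ℝ) : Prop :=
  ∃ l : FLab F, (∀ i, l.leak (A i) ≤ δ * F.n) ∧ v * F.n ≤ l.info

theorem HasLb.mono {F : FSp} {κ : Type} {A : κ → FL F} {δ δ' v v' : ℝ} (h : HasLb A δ v) (h1 : δ ≤ δ') (h2 : v' ≤ v) :
    HasLb A δ' v' := by
  obtain ⟨l, a, b⟩ := h
  exact ⟨l, fun i => (a i).trans (mul_le_mul_of_nonneg_right h1 F.pos.le),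
    (mul_le_mul_of_nonneg_right h2 F.pos.le).trans b⟩

/-- finite description of the maximal information -/
theorem hasLb_of {S : Sp} {κ : Type} [Finite κ] {A : κ → Part S} {l : Lab S} (hl : l.DMf A) {i₀ : κ}
    (hA : (A i₀).Bd) {δ v : ℝ} (hδ : 0 < δ) (hv : v < l.info) :
    ∀ᶠ k in UF, HasLb (fun i => A i k) δ v := by
  have h1 := eventually_gt_of_lt_ul (hl.ub hA) hv
  have h2 : ∀ᶠ k in UF, ∀ i, (l k).leak (A i k) ≤ δ * (S.F k).n := by
    rw [eventually_all]
    intro i
    filter_upwards [(show Tendsto _ _ _ from hl i).eventually (gt_mem_nhds hδ)] with k hk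
    rw [div_lt_iff₀ (S.F k).pos] at hk
    exact hk.le
  filter_upwards [h1, h2] with k a b
  rw [lt_div_iff₀ (S.F k).pos] at a
  exact ⟨l k, b, a.le⟩

/-- a label from the finite description -/
theorem of_hasLb {S : Sp} {κ : Type} {A : κ → Part S} {i₀ : κ} (hA : (A i₀).Bd) {v : ℝ}
    (h0 : ∀ δ : ℝ, 0 < δ → ∀ᶠ k in UF, HasLb (fun i => A i k) δ (v - δ)) : ∃ l : Lab S, l.DMf A ∧ v ≤ l.info := by
  have h1 : ∀ j : ℕ, ∀ᶠ k in UF, HasLb (fun i => A i k) (1 / ((j : ℝ) + 1)) (v - 1 / ((j : ℝ) + 1)) := fun j =>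
    h0 _ (by positivity)
  obtain ⟨J, hJ, hJ2⟩ := dia (fun j k => HasLb (fun i => A i k) (1 / ((j : ℝ) + 1)) (v - 1 / ((j : ℝ) + 1))) h1
  classical
  set l : Lab S := fun k => if hk : HasLb (fun i => A i k) (1 / ((J k : ℝ) + 1)) (v - 1 / ((J k : ℝ) + 1)) then
    hk.choose else FLab.triv (S.F k) with hf
  have hq : ∀ᶠ k in UF, (∀ i, (l k).leak (A i k) ≤ 1 / ((J k : ℝ) + 1) * (S.F k).n) ∧
      (v - 1 / ((J k : ℝ) + 1)) * (S.F k).n ≤ (l k).info := by
    filter_upwards [hJ2] with k hk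
    have hk' := hk (J k) le_rfl
    have e : l k = hk'.choose := by
      rw [hf]; exact dif_pos hk'
    rw [e]
    exact hk'.choose_spec
  have ht := inv_tendsto hJ
  have hd : l.DMf A := by
    intro i
    refine tendsto_of_tendsto_of_tendsto_of_le_of_le' tendsto_const_nhds ht
      (Eventually.of_forall fun k => div_nonneg (FLab.leak_nonneg _ _) (S.F k).pos.le) ?_
    filter_upwards [hq] with k hk
    rw [div_le_iff₀ (S.F k).pos]
    exact hk.1 i
  refine ⟨l, hd, ?_⟩
  refine le_of_tendsto_of_tendsto (f := fun k => v - 1 / ((J k : ℝ) + 1)) ?_ (ul_tendsto (hd.ub hA)) ?_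
  · have := ht.const_sub v
    rwa [sub_zero] at this
  · filter_upwards [hq] with k hk
    rw [le_div_iff₀ (S.F k).pos]
    exact hk.2

section
variable {S : ℕ → Sp} {κ : Type} [Finite κ] {A : ∀ j, κ → Part (S j)}

/-- the slowness conditions for the labels of the diagonal: `HasLb` at rational parameters -/
def labE (A : ∀ j, κ → Part (S j)) : ℕ → ℕ → ℕ → Prop :=
  losE fun i j k => HasLb (fun a => A j a k) (1 / (((Nat.unpair i).1 : ℝ) + 1))
    ((Encodable.decode (α := ℚ) (Nat.unpair i).2).getD 0 : ℚ)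

omit [Finite κ] in
theorem labE_ev (A : ∀ j, κ → Part (S j)) (i j : ℕ) : ∀ᶠ k in UF, labE A i j k := losE_ev _ i j

/-- (DOWN) LABELS OF THE DIAGONAL ARE SLOW LABELS OF THE SEQUENCE -/
theorem slow_iff {J : ℕ → ℕ} (h : Slo S (labE A) J) {i₀ : κ}
    (hA : (dpart (fun j => A j i₀) J h.lim).Bd) (v : ℝ) :
    (∃ l : Lab (dsp S J h.lim), l.DMf (fun i => dpart (fun j => A j i) J h.lim) ∧ v ≤ l.info) ↔
      ∀ δ : ℝ, 0 < δ → ∀ᶠ k in UF, ∀ᶠ k' in UF, HasLb (fun a => A (J k) a k') δ (v - δ) := by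
  have key : ∀ (i : ℕ) (q : ℚ), (∀ᶠ k in UF, HasLb (fun a => A (J k) a k) (1 / ((i : ℝ) + 1)) (q : ℝ)) ↔
      ∀ᶠ k in UF, ∀ᶠ k' in UF, HasLb (fun a => A (J k) a k') (1 / ((i : ℝ) + 1)) (q : ℝ) := by
    intro i q
    have h1 := los h (Nat.pair i (Encodable.encode q))
    simp only [Nat.unpair_pair, Encodable.encodek, Option.getD_some] at h1
    exact h1
  constructor
  · rintro ⟨l, hl, hv⟩ δ hδ
    obtain ⟨i, hi⟩ := exists_nat_one_div_lt hδ
    obtain ⟨q, hq, hq'⟩ := exists_rat_btwn (show v - δ < v by linarith)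
    have h1 := hasLb_of (S := dsp S J h.lim) hl hA (δ := 1 / ((i : ℝ) + 1)) (by positivity)
      (show (q : ℝ) < l.info by linarith)
    have h2 := (key i q).mp h1
    filter_upwards [h2] with k hk
    filter_upwards [hk] with k' hk'
    exact hk'.mono hi.le hq.le
  · intro h1
    refine of_hasLb (S := dsp S J h.lim) hA fun δ hδ => ?_
    obtain ⟨i, hi⟩ := exists_nat_one_div_lt (show (0 : ℝ) < δ / 2 by linarith)
    obtain ⟨q, hq, hq'⟩ := exists_rat_btwn (show v - δ < v - δ / 2 by linarith)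
    have h2 : ∀ᶠ k in UF, ∀ᶠ k' in UF, HasLb (fun a => A (J k) a k') (1 / ((i : ℝ) + 1)) (q : ℝ) := by
      have hpos : (0 : ℝ) < 1 / ((i : ℝ) + 1) := by positivity
      filter_upwards [h1 (min (1 / ((i : ℝ) + 1)) (δ / 2)) (lt_min hpos (by linarith))] with k hk
      filter_upwards [hk] with k' hk'
      refine hk'.mono (min_le_left _ _) ?_
      have := min_le_right (1 / ((i : ℝ) + 1)) (δ / 2)
      linarith
    have h3 := (key i q).mpr h2
    filter_upwards [h3] with k hk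
    exact hk.mono (by linarith) hq.le

/-- EXACT CONNECTEDNESS OF THE DIAGONAL = no slow labels -/
theorem conf_dg_iff {J : ℕ → ℕ} (h : Slo S (labE A) J) {i₀ : κ}
    (hA : (dpart (fun j => A j i₀) J h.lim).Bd) :
    Lab.Conf (fun i => dpart (fun j => A j i) J h.lim) ↔
      ∀ v : ℝ, 0 < v → ∃ δ : ℝ, 0 < δ ∧ ∀ᶠ k in UF, ∀ᶠ k' in UF, ¬ HasLb (fun a => A (J k) a k') δ v := by
  constructor
  · intro hc v hv
    by_contra hn
    have h1 : ∃ l : Lab (dsp S J h.lim), l.DMf (fun i => dpart (fun j => A j i) J h.lim) ∧ v ≤ l.info := by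
      rw [slow_iff h hA]
      intro δ hδ
      have h2 := UF_not (fun hh => hn ⟨δ, hδ, hh⟩)
      filter_upwards [h2] with k hk
      have h3 := UF_not hk
      filter_upwards [h3] with k' hk'
      exact (not_not.mp hk').mono le_rfl (by linarith)
    obtain ⟨l, hl, hv'⟩ := h1
    have := hc.info hl
    linarith
  · intro hc
    refine Lab.conf_of_info (i := i₀) hA fun l hl => ?_
    by_contra hn
    rw [not_le] at hn
    obtain ⟨δ, hδ, h1⟩ := hc (l.info / 2) (by linarith)
    have h2 := (slow_iff h hA l.info).mp ⟨l, hl, le_rfl⟩ (min δ (l.info / 2)) (lt_min hδ (by linarith))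
    obtain ⟨k, a, b⟩ := (h1.and h2).exists
    obtain ⟨k', a', b'⟩ := (a.and b).exists
    refine a' (b'.mono (min_le_left _ _) ?_)
    have := min_le_right δ (l.info / 2)
    linarith

end

/-! ### values of finite functionals -/

variable {K : FK}

/-- the slowness condition for the value of a functional of finite data -/
def valE (g : ∀ F : FSp, K.X F → ℝ) (S : ℕ → Sp) (x : ∀ j, K.Ob (S j)) (j k : ℕ) : Prop :=
  |g ((S j).F k) (x j k) - ul (fun k' => g ((S j).F k') (x j k'))| ≤ 1 / ((j : ℝ) + 1)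

theorem valE_ev (g : ∀ F : FSp, K.X F → ℝ) (S : ℕ → Sp) (x : ∀ j, K.Ob (S j)) (j : ℕ)
    (hg : UB (fun k => g ((S j).F k) (x j k))) : ∀ᶠ k in UF, valE g S x j k := by
  have h1 := ul_tendsto hg
  have h2 : (0 : ℝ) < 1 / ((j : ℝ) + 1) := by positivity
  have h3 := h1.sub_const (ul (fun k' => g ((S j).F k') (x j k')))
  rw [sub_self] at h3
  have h4 := (abs_zero (α := ℝ)) ▸ h3.abs
  filter_upwards [h4.eventually (gt_mem_nhds h2)] with k hk using hk.le

/-- the value at the diagonal is the limit of the values -/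
theorem val_tendsto {g : ∀ F : FSp, K.X F → ℝ} {S : ℕ → Sp} {x : ∀ j, K.Ob (S j)} {J : ℕ → ℕ}
    (hJ : Tendsto J UF atTop) (h : ∀ᶠ k in UF, valE g S x (J k) k) :
    Tendsto (fun k => g ((S (J k)).F k) (x (J k) k) - ul (fun k' => g ((S (J k)).F k') (x (J k) k'))) UF (𝓝 0) := by
  apply squeeze_zero_norm' _ (inv_tendsto hJ)
  filter_upwards [h] with k hk
  rw [Real.norm_eq_abs]
  exact hk

theorem val_of {g : ∀ F : FSp, K.X F → ℝ} {S : ℕ → Sp} {x : ∀ j, K.Ob (S j)} {J : ℕ → ℕ} (hJ : Tendsto J UF atTop)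
    (h : ∀ᶠ k in UF, valE g S x (J k) k) {v : ℝ}
    (hv : Tendsto (fun j => ul (fun k' => g ((S j).F k') (x j k'))) atTop (𝓝 v)) :
    Tendsto (fun k => g ((S (J k)).F k) (x (J k) k)) UF (𝓝 v) := by
  have h1 := (val_tendsto hJ h).add (hv.comp hJ)
  rw [zero_add] at h1
  refine h1.congr fun k => ?_
  simp only [Function.comp_apply]
  ring

/-- classes given by the value of a functional of finite data -/
theorem diagCl_val (g : ∀ F : FSp, K.X F → ℝ) (C : K.Pd) (hC : ∀ S x, C S x → UB (fun k => g (S.F k) (x k))) (v : ℝ) :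
    DiagTo (fun _ S x => C S x ∧ ul (fun k => g (S.F k) (x k)) = v)
      (fun S x => ul (fun k => g (S.F k) (x k)) = v) := by
  intro S x hx
  refine ⟨fun _ j k => valE g S x j k, fun _ j => valE_ev g S x j (hC _ _ (hx j).1), fun J hd => ?_⟩
  apply ul_eq
  refine val_of (K := K) (g := g) (x := x) hd.tend (hd.slow 0) ?_
  have e : (fun j => ul (fun k' => g ((S j).F k') (x j k'))) = fun _ => v := funext fun j => (hx j).2
  rw [e]
  exact tendsto_const_nhds

/-! ### diagonals of extensions -/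

/-- the diagonal of projections -/
def dpj {S T : ℕ → Sp} (p : ∀ j, Pj (T j) (S j)) (J : ℕ → ℕ) (h : Tendsto (fun k => ((S (J k)).F k).n) UF atTop)
    (h' : Tendsto (fun k => ((T (J k)).F k).n) UF atTop) : Pj (dsp T J h') (dsp S J h) where
  π := fun k => (p (J k)).π k
  law := fun k => (p (J k)).law k
  hZ := fun k => (p (J k)).hZ k
  hn := fun k => (p (J k)).hn k

theorem dpj_lim {S T : ℕ → Sp} (p : ∀ j, Pj (T j) (S j)) {J : ℕ → ℕ}
    (h : Tendsto (fun k => ((S (J k)).F k).n) UF atTop) : Tendsto (fun k => ((T (J k)).F k).n) UF atTop := by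
  refine h.congr fun k => ?_
  exact ((p (J k)).hn k).symm

end

end Pool.Agent.Helper49.MD
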