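import Pool.Agent.Helper49.MD.Canl
import Pool.Agent.Helper84.MT.Evt

/-! SYSTEMS OF LEAVES WITH COUNTABLY MANY TYPES: canonical forms, the volume of a window, theorem COST; for a family of
subsystems which exhausts the types, the volumes, the informations of the labels and the entropies over the labels
converge to the ones of the system. -/

set_option autoImplicit false

namespace Pool.Agent.Helper49.MD

open Finset Filter Topology Matrix Pool.Agent.Helper69.RK Pool.Agent.Helper31.EC Pool.Agent.Helper31.EC.Sp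
open Pool.Agent.Helper40.EL Pool.Agent.Helper89.LX Pool.Agent.Helper3.LF Pool.Agent.Helper84.MT
open Pool.Agent.Helper95.LF
open Pool.Agent.Helper42.NS (osp u1 u1_dg u1_h osp_dl)
open Pool.Agent.Helper59.EV (sum_split_le)
open Pool.Agent.Helper48.NS (cc qf_cc tker CL Ov GdC fex ex Ov_n ex_scale logn)
open Pool.Agent.Helper14.MC (gx vx vol_eq vx_UB adf_cap gexq gexq_UB gexq_bd gexq_nonneg oQ osp_n GQ_dom)

noncomputable section

variable {S T : Sp} {M D : ℕ} {E : ℕ → ℕ} {ι κ : Type}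

/-- a form which is dominated has a larger volume -/
theorem vol_le_of_dom {Q : S.VV M} {x y : ∀ k, FD (S.F k) (Mon M D)} (hx : (gaq Q D).Fm x) (hy : (gaq Q D).Fm y)
    (hdom : ∀ e : ℝ, 0 < e → Tendsto (fun k => ((x k).jj (y k)).l.T.pb (fun w =>
      ¬ ∀ v, qf (((x k).jj (y k)).g' w) v ≤ 2 ^ (e * (S.F k).n) * qf (((x k).jj (y k)).g w) v)) UF (𝓝 0)) :
    vol Q D x ≤ vol Q D y := by
  classical
  rw [vol_eq, vol_eq]
  have hx1 := (Gau.Adf_iff (A := fun i : Empty => i.elim)).mpr ⟨fun i => i.elim, hx⟩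
  have hy1 := (Gau.Adf_iff (A := fun i : Empty => i.elim)).mpr ⟨fun i => i.elim, hy⟩
  have hUx := vx_UB hx1
  have hUy := vx_UB hy1
  set C : ℝ := (((gaq Q D).C + 1) + 3) * M with hC
  have hC0 : 0 ≤ C := by
    have := (gaq Q D).C0
    positivity
  have hbd := gexq_bd (oQ (lb y) Q) _ ((gaq Q D).C + 1) (by linarith [(gaq Q D).C0]) (adf_cap hy1)
  have hnn := gexq_nonneg (oQ (lb x) Q) _ _ (adf_cap hx1)
  suffices h : ∀ e : ℝ, 0 < e → ul (vx Q y) ≤ ul (vx Q x) + e * M by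
    have h2 : ul (vx Q y) ≤ ul (vx Q x) := by
      apply le_of_forall_pos_le_add
      intro ε hε
      have h3 := h (ε / (M + 1)) (by positivity)
      have h4 : ε / (M + 1) * M ≤ ε := by
        rw [div_mul_eq_mul_div, div_le_iff₀ (by positivity)]
        nlinarith
      linarith
    linarith
  intro e he
  have hdom := hdom e he
  have hle : ∀ᶠ k in UF, vx Q y k ≤ vx Q x k + (e * M + C * (((x k).jj (y k)).l.T.pb (fun w =>
      ¬ ∀ v, qf (((x k).jj (y k)).g' w) v ≤ 2 ^ (e * (S.F k).n) * qf (((x k).jj (y k)).g w) v))) := by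
    filter_upwards [hbd, hnn, hx1 1 one_pos, hy1 1 one_pos] with k b1 b2 b3 b4
    have hn := (S.F k).pos
    have e1 : vx Q y k = ∑ w, ((x k).jj (y k)).l.T.μ w *
        gx Q k ((y k).l.p.π (((x k).l.am (y k).l).p2.π w)) ((y k).g (((x k).l.am (y k).l).p2.π w)) :=
      (sum_push ((x k).l.am (y k).l).p2 (fun ω => gx Q k ((y k).l.p.π ω) ((y k).g ω))).symm
    have e2 : vx Q x k = ∑ w, ((x k).jj (y k)).l.T.μ w *
        gx Q k ((x k).l.p.π (((x k).l.am (y k).l).p1.π w)) ((x k).g (((x k).l.am (y k).l).p1.π w)) :=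
      (sum_push ((x k).l.am (y k).l).p1 (fun ω => gx Q k ((x k).l.p.π ω) ((x k).g ω))).symm
    have h1 := sum_split_le (F := ((x k).jj (y k)).l.T)
      (fun w => gx Q k ((y k).l.p.π (((x k).l.am (y k).l).p2.π w)) ((y k).g (((x k).l.am (y k).l).p2.π w)) -
        gx Q k ((x k).l.p.π (((x k).l.am (y k).l).p1.π w)) ((x k).g (((x k).l.am (y k).l).p1.π w)))
      (fun w => ∀ v, qf (((x k).jj (y k)).g' w) v ≤ 2 ^ (e * (S.F k).n) * qf (((x k).jj (y k)).g w) v)
      (e * M) C (by positivity) hC0 (by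
        intro w hw hE
        have s1 := ((x k).l.am (y k).l).p1.supp w hw
        have s2 := ((x k).l.am (y k).l).p2.supp w hw
        have s3 := (x k).jj_supp (y k) w hw
        have c1 := (b3.2.1 _ s1).1
        have c2 := (b4.2.1 _ s2).1
        rw [← s3]
        set p := Q.v k ((x k).l.p.π (((x k).l.am (y k).l).p1.π w)) with hp
        set g1 := (x k).g (((x k).l.am (y k).l).p1.π w) with hg1
        set g2 := (y k).g (((x k).l.am (y k).l).p2.π w) with hg2
        have h2 := GQ_dom (S.dl 1 k) g1 g2 c1.1 c1.psd.2 c2.1 c2.psd.2 p (2 ^ (e * (S.F k).n))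
          (Real.one_le_rpow (by norm_num) (by positivity)) hE
        have h3 := one_le_GQ (S.dl 1 k) c1.1 c1.psd.2 p
        have h4 := one_le_GQ (S.dl 1 k) c2.1 c2.psd.2 p
        have h5 := Real.logb_le_logb_of_le (b := 2) (by norm_num) (by linarith) h2
        rw [Real.logb_mul (by positivity) (by linarith), Real.logb_pow,
          Real.logb_rpow (by norm_num) (by norm_num)] at h5
        show Real.logb 2 (GQ (S.dl 1 k) g2 p) / (2 * (S.F k).n) -
          Real.logb 2 (GQ (S.dl 1 k) g1 p) / (2 * (S.F k).n) ≤ e * M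
        rw [← sub_div, div_le_iff₀ (by positivity)]
        have h6 : 0 ≤ (M : ℝ) * (e * (S.F k).n) := by positivity
        linarith) (by
        intro w hw
        have s1 := ((x k).l.am (y k).l).p1.supp w hw
        have s2 := ((x k).l.am (y k).l).p2.supp w hw
        have d1 := b1 _ s2
        have d2 := b2 _ s1
        have f1 : gexq (oQ (lb y) Q) (fun k (ω : (y k).l.T.Ω) => (y k).g ω) k (((x k).l.am (y k).l).p2.π w) =
            gx Q k ((y k).l.p.π (((x k).l.am (y k).l).p2.π w)) ((y k).g (((x k).l.am (y k).l).p2.π w)) := by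
          unfold gexq gx
          rw [osp_dl, osp_n]
          rfl
        have f2 : gexq (oQ (lb x) Q) (fun k (ω : (x k).l.T.Ω) => (x k).g ω) k (((x k).l.am (y k).l).p1.π w) =
            gx Q k ((x k).l.p.π (((x k).l.am (y k).l).p1.π w)) ((x k).g (((x k).l.am (y k).l).p1.π w)) := by
          unfold gexq gx
          rw [osp_dl, osp_n]
          rfl
        rw [f1] at d1
        rw [f2] at d2
        linarith)
    have e3 : ∑ w, ((x k).jj (y k)).l.T.μ w *
        (gx Q k ((y k).l.p.π (((x k).l.am (y k).l).p2.π w)) ((y k).g (((x k).l.am (y k).l).p2.π w)) -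
        gx Q k ((x k).l.p.π (((x k).l.am (y k).l).p1.π w)) ((x k).g (((x k).l.am (y k).l).p1.π w))) =
        vx Q y k - vx Q x k := by
      rw [e1, e2, ← Finset.sum_sub_distrib]
      exact Finset.sum_congr rfl fun w _ => by ring
    have h2 : ∑ w, ((x k).jj (y k)).l.T.μ w *
        (gx Q k ((y k).l.p.π (((x k).l.am (y k).l).p2.π w)) ((y k).g (((x k).l.am (y k).l).p2.π w)) -
        gx Q k ((x k).l.p.π (((x k).l.am (y k).l).p1.π w)) ((x k).g (((x k).l.am (y k).l).p1.π w))) ≤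
        e * M + C * (((x k).jj (y k)).l.T.pb (fun w =>
      ¬ ∀ v, qf (((x k).jj (y k)).g' w) v ≤ 2 ^ (e * (S.F k).n) * qf (((x k).jj (y k)).g w) v)) := h1
    rw [e3] at h2
    linarith
  have t1 := ul_tendsto hUx
  have t2 := ul_tendsto hUy
  have t3 := t1.add ((hdom.const_mul C).const_add (e * M))
  rw [mul_zero, add_zero] at t3
  exact le_of_tendsto_of_tendsto t2 t3 hle

/-! ### canonical forms for any family of types -/

/-- admissible forms of degree `D` of the window `c` -/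
def AdL (s : MSys S M E ι) (D : ℕ) (c : ℝ) (x : ∀ k, FD (S.F k) (Mon M D)) : Prop :=
  s.DMc c (fun k => (x k).l) ∧ (gaq s.Q D).Fm x

/-- optimal forms -/
def OpL (s : MSys S M E ι) (D : ℕ) (c : ℝ) (x : ∀ k, FD (S.F k) (Mon M D)) : Prop :=
  AdL s D c x ∧ ∀ y, AdL s D c y → ul (fun k => (y k).sc / (S.F k).n) ≤ ul (fun k => (x k).sc / (S.F k).n)

/-- CANONICAL FORM of the window `c` -/
def IsCanL (s : MSys S M E ι) (D : ℕ) (c : ℝ) (x : ∀ k, FD (S.F k) (Mon M D)) : Prop :=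
  OpL s D c x ∧ s.IsKap c (fun k => (x k).l)

theorem AdL_iff_Adc [Encodable ι] (s : MSys S M E ι) {c : ℝ} {x : ∀ k, FD (S.F k) (Mon M D)} :
    AdL s D c x ↔ (gaq s.Q D).Adc (s.cnd c) x := (Gau.Adc_iff _).symm

theorem OpL_iff_Optc [Encodable ι] (s : MSys S M E ι) {c : ℝ} {x : ∀ k, FD (S.F k) (Mon M D)} :
    OpL s D c x ↔ (gaq s.Q D).Optc (s.cnd c) x := by
  unfold OpL Gau.Optc
  simp only [AdL_iff_Adc]

theorem AdL_iff_Adf [Finite ι] (s : MSys S M E ι) {c : ℝ} {x : ∀ k, FD (S.F k) (Mon M D)} :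
    AdL s D c x ↔ (gaq s.Q D).Adf (s.cnd c) x := Gau.Adf_iff.symm

theorem OpL_iff_Optf [Finite ι] (s : MSys S M E ι) {c : ℝ} {x : ∀ k, FD (S.F k) (Mon M D)} :
    OpL s D c x ↔ (gaq s.Q D).Optf (s.cnd c) x := by
  unfold OpL Gau.Optf
  simp only [AdL_iff_Adf]

/-- for finitely many types -/
theorem IsCanL_iff [Finite ι] (s : MSys S M E ι) {c : ℝ} {x : ∀ k, FD (S.F k) (Mon M D)} :
    IsCanL s D c x ↔ s.IsCan D c x := by
  unfold IsCanL MSys.IsCan
  rw [OpL_iff_Optf]

theorem exists_canL [Countable ι] (s : MSys S M E ι) (D : ℕ) (c : ℝ) : ∃ x, IsCanL s D c x := by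
  classical
  let _ := Encodable.ofCountable ι
  obtain ⟨x, h1, h2⟩ := (gaq s.Q D).exists_kapc (s.cnd c) (i₀ := none) (pcd_Bd s.Q)
  exact ⟨x, (OpL_iff_Optc s).mpr h1, h2⟩

/-- the dominance of the optimal form -/
theorem OpL.dom [Countable ι] {s : MSys S M E ι} {c : ℝ} {x y : ∀ k, FD (S.F k) (Mon M D)} (hx : OpL s D c x)
    (hy : AdL s D c y) (e : ℝ) (he : 0 < e) : Tendsto (fun k => ((x k).jj (y k)).l.T.pb (fun w =>
      ¬ ∀ v, qf (((x k).jj (y k)).g' w) v ≤ 2 ^ (e * (S.F k).n) * qf (((x k).jj (y k)).g w) v)) UF (𝓝 0) := by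
  let _ := Encodable.ofCountable ι
  exact Gau.Optc.dom _ ((OpL_iff_Optc s).mp hx) ((AdL_iff_Adc s).mp hy) e he

/-- an optimal form over the join with a label -/
theorem OpL.jn [Countable ι] {s : MSys S M E ι} {c : ℝ} {x : ∀ k, FD (S.F k) (Mon M D)} (hx : OpL s D c x)
    {l : Lab S} (hl : s.DMc c l) : OpL s D c (fun k => (x k).jn (l k)) := by
  let _ := Encodable.ofCountable ι
  exact (OpL_iff_Optc s).mpr (Gau.Optc.jn _ ((OpL_iff_Optc s).mp hx) hl)

/-- the volume of an optimal form is the least volume -/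
theorem vol_le_of_opL [Countable ι] {s : MSys S M E ι} {c : ℝ} {x y : ∀ k, FD (S.F k) (Mon M D)} (hx : OpL s D c x)
    (hy : AdL s D c y) : vol s.Q D x ≤ vol s.Q D y := vol_le_of_dom hx.1.2 hy.2 (hx.dom hy)

theorem AdL.vol_le_M {s : MSys S M E ι} {c : ℝ} {x : ∀ k, FD (S.F k) (Mon M D)} (hx : AdL s D c x) :
    vol s.Q D x ≤ M :=
  Pool.Agent.Helper14.MC.vol_le ((Gau.Adf_iff (A := fun i : Empty => i.elim)).mpr ⟨fun i => i.elim, hx.2⟩)

/-- the VOLUME of the window `c` -/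
def volL [Countable ι] (s : MSys S M E ι) (D : ℕ) (c : ℝ) : ℝ := vol s.Q D (exists_canL s D c).choose

theorem volL_eq [Countable ι] {s : MSys S M E ι} {c : ℝ} {x : ∀ k, FD (S.F k) (Mon M D)} (hx : OpL s D c x) :
    vol s.Q D x = volL s D c :=
  le_antisymm (vol_le_of_opL hx (exists_canL s D c).choose_spec.1.1)
    (vol_le_of_opL (exists_canL s D c).choose_spec.1 hx.1)

theorem volL_le_of [Countable ι] {s : MSys S M E ι} {c : ℝ} {x : ∀ k, FD (S.F k) (Mon M D)} (hx : AdL s D c x) :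
    volL s D c ≤ vol s.Q D x := vol_le_of_opL (exists_canL s D c).choose_spec.1 hx

theorem volL_fin [Finite ι] (s : MSys S M E ι) (D : ℕ) (c : ℝ) : volL s D c = s.vol D c := by
  obtain ⟨x, hx⟩ := s.exists_can D c
  rw [← s.vol_eq hx.1, volL_eq ((OpL_iff_Optf s).mpr hx.1)]

theorem volL_le_M [Countable ι] (s : MSys S M E ι) (D : ℕ) (c : ℝ) : volL s D c ≤ M :=
  (exists_canL s D c).choose_spec.1.1.vol_le_M

/-- larger windows have less volume -/
theorem volL_anti [Countable ι] (s : MSys S M E ι) (D : ℕ) {a b : ℝ} (hab : a ≤ b) : volL s D b ≤ volL s D a := by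
  obtain ⟨x, hx⟩ := exists_canL s D a
  rw [← volL_eq hx.1]
  exact volL_le_of ⟨MSys.DMc.mono hab hx.1.1.1, hx.1.1.2⟩

/-- fewer types: less volume -/
theorem volL_ren_le [Countable ι] [Countable κ] (s : MSys S M E ι) (f : κ → ι) (D : ℕ) (c : ℝ) :
    volL (s.ren f) D c ≤ volL s D c := by
  obtain ⟨x, hx⟩ := exists_canL s D c
  rw [← volL_eq hx.1]
  exact volL_le_of (s := s.ren f) ⟨hx.1.1.1.ren f, hx.1.1.2⟩

/-- the volumes of the subsystems converge to the volume of the system -/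
theorem tendsto_volL [Countable ι] {κ' : ℕ → Type} [∀ m, Countable (κ' m)] {f : ∀ m, κ' m → ι} (hf : Exh f)
    (s : MSys S M E ι) (D : ℕ) (c : ℝ) :
    Tendsto (fun m => volL (s.ren (f m)) D c) atTop (𝓝 (volL s D c)) := by
  let _ := Encodable.ofCountable ι
  have h0 : ∀ m, volL (s.ren (f m)) D c ≤ volL s D c := fun m => volL_ren_le s (f m) D c
  rw [Metric.tendsto_nhds]
  intro ε hε
  by_contra hcon
  rw [Filter.not_eventually] at hcon
  have hfr : ∃ᶠ m in atTop, volL (s.ren (f m)) D c ≤ volL s D c - ε := by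
    refine hcon.mono fun m hm => ?_
    rw [Real.dist_eq, abs_of_nonpos (sub_nonpos.mpr (h0 m)), not_lt] at hm
    linarith
  have hex : ∀ j : ℕ, ∃ m, volL (s.ren (f m)) D c ≤ volL s D c - ε ∧
      ∀ i : Option ι, Encodable.encode i ≤ j + 1 → i ∈ Set.range (fun i : Option (κ' m) => i.map (f m)) := by
    intro j
    obtain ⟨m, h1, h2⟩ := (hfr.and_eventually (hf.option.all (j + 1))).exists
    exact ⟨m, h1, h2⟩
  choose m hm using hex
  choose x hx using fun j => exists_canL (s.ren (f (m j))) D c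
  set v : ℝ := volL s D c - ε with hv
  obtain ⟨y, J, hJ, hy, hP⟩ := (gaq s.Q D).diag_fam (s.cnd c) x
    (fun j k z => (M : ℝ) - v - 1 / ((j : ℝ) + 1) ≤ ∑ ω, z.l.T.μ ω * gx s.Q k (z.l.p.π ω) (z.g ω)) (by
    intro j
    refine ⟨fun i hi => ?_, (hx j).1.1.2, ?_⟩
    · obtain ⟨a, rfl⟩ := (hm j).2 i hi
      have h1 := (hx j).1.1.1 a
      rw [MSys.cnd_ren] at h1
      exact h1
    · have h1 : vol s.Q D (x j) ≤ v := by
        have h2 := volL_eq (hx j).1
        have h3 : vol s.Q D (x j) = vol (s.ren (f (m j))).Q D (x j) := rfl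
        rw [h3, h2]
        exact (hm j).1
      rw [vol_eq] at h1
      have hx1 := (Gau.Adf_iff (A := fun i : Empty => i.elim)).mpr ⟨fun i => i.elim, (hx j).1.1.2⟩
      have h2 : Tendsto (vx s.Q (x j)) UF (𝓝 (ul (vx s.Q (x j)))) := ul_tendsto (vx_UB hx1)
      have h3 : (M : ℝ) - v - 1 / ((j : ℝ) + 1) < ul (vx s.Q (x j)) := by
        have : (0 : ℝ) < 1 / ((j : ℝ) + 1) := by positivity
        linarith
      exact (h2.eventually (lt_mem_nhds h3)).mono fun k hk => hk.le)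
  have hyA : AdL s D c y := (AdL_iff_Adc s).mpr hy
  have hy1 := (Gau.Adf_iff (A := fun i : Empty => i.elim)).mpr ⟨fun i => i.elim, hyA.2⟩
  have h1 := volL_le_of hyA
  have h2 : (M : ℝ) - v ≤ ul (vx s.Q y) := by
    have t1 : Tendsto (fun k => (M : ℝ) - v - 1 / ((J k : ℝ) + 1)) UF (𝓝 ((M : ℝ) - v - 0)) :=
      (tendsto_one_div_add_atTop_nhds_zero_nat.comp hJ).const_sub _
    rw [sub_zero] at t1
    exact le_of_tendsto_of_tendsto t1 (ul_tendsto (vx_UB hy1)) hP
  rw [vol_eq] at h1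
  linarith

/-- the informations of the labels of the subsystems converge -/
theorem tendsto_info_ren [Countable ι] {κ' : ℕ → Type} {f : ∀ m, κ' m → ι} (hf : Exh f)
    (s : MSys S M E ι) {c : ℝ} {l : Lab S} (hl : s.IsKap c l) {lm : ℕ → Lab S} (hlm : ∀ m, (s.ren (f m)).IsKap c (lm m)) :
    Tendsto (fun m => (lm m).info) atTop (𝓝 l.info) := by
  let _ := Encodable.ofCountable ι
  refine tendsto_info hf.option hl (fun m => ?_) (i₀ := none) (pcd_Bd s.Q)
  have h1 := hlm m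
  have h2 : (s.ren (f m)).cnd c = fun i => s.cnd c (i.map (f m)) := funext fun i => MSys.cnd_ren s (f m) c i
  unfold MSys.IsKap at h1
  rw [h2] at h1
  exact h1

/-- the entropies over the labels of the subsystems converge -/
theorem tendsto_hlr_ren [Countable ι] {κ' : ℕ → Type} {f : ∀ m, κ' m → ι} (hf : Exh f)
    (s : MSys S M E ι) {c : ℝ} {l : Lab S} (hl : s.IsKap c l) {lm : ℕ → Lab S} (hlm : ∀ m, (s.ren (f m)).IsKap c (lm m))
    {X : Part S} (hX : X.Bd) : Tendsto (fun m => hlr (lm m) X) atTop (𝓝 (hlr l X)) := by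
  let _ := Encodable.ofCountable ι
  refine tendsto_hlr hf.option hl (fun m => ?_) (i₀ := none) (pcd_Bd s.Q) hX
  have h1 := hlm m
  have h2 : (s.ren (f m)).cnd c = fun i => s.cnd c (i.map (f m)) := funext fun i => MSys.cnd_ren s (f m) c i
  unfold MSys.IsKap at h1
  rw [h2] at h1
  exact h1

/-- more types: larger entropies over the label -/
theorem hlr_ren_le (s : MSys S M E ι) {f : κ → ι} {c : ℝ} {l l' : Lab S} (hl : s.IsKap c l)
    (hl' : (s.ren f).IsKap c l') {X : Part S} (hX : X.Bd) : hlr l' X ≤ hlr l X :=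
  hlr_le_of_max (MSys.DMc.ren hl.1 f) hl' (i₀ := none) (pcd_Bd s.Q) hX

theorem info_ren_le (s : MSys S M E ι) {f : κ → ι} {c : ℝ} {l l' : Lab S} (hl : s.IsKap c l)
    (hl' : (s.ren f).IsKap c l') : l.info ≤ l'.info := hl'.2 _ (MSys.DMc.ren hl.1 f)

theorem tendsto_H_ren [Countable ι] {κ' : ℕ → Type} {f : ∀ m, κ' m → ι} (hf : Exh f)
    (s : MSys S M E ι) {c : ℝ} {l : Lab S} (hl : s.IsKap c l) {lm : ℕ → Lab S} (hlm : ∀ m, (s.ren (f m)).IsKap c (lm m))
    (X : S.L) : Tendsto (fun m => H (up1 (lm m) X)) atTop (𝓝 (H (up1 l X))) := by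
  simp only [H_up1_eq]
  exact tendsto_hlr_ren hf s hl hlm (rp_Bd X)

theorem tendsto_h_ren [Countable ι] {κ' : ℕ → Type} {f : ∀ m, κ' m → ι} (hf : Exh f)
    (s : MSys S M E ι) {c : ℝ} {l : Lab S} (hl : s.IsKap c l) {lm : ℕ → Lab S} (hlm : ∀ m, (s.ren (f m)).IsKap c (lm m))
    (X Y : S.L) : Tendsto (fun m => h (up1 (lm m) X) (up1 (lm m) Y)) atTop (𝓝 (h (up1 l X) (up1 l Y))) := by
  have h1 := (tendsto_H_ren hf s hl hlm (X ⊔ Y)).sub (tendsto_H_ren hf s hl hlm Y)
  unfold h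
  simp only [← up1_sup]
  exact h1

/-- THEOREM COST for systems of leaves with countably many types -/
theorem cost_msysL [Countable ι] (s : MSys S M E ι) (hED : 1 ≤ E D) {c : ℝ}
    (h0 : 0 ≤ c) (h1 : c < 1) (E₀ : ℝ) (hE0 : 0 ≤ E₀) (hE1 : E₀ ≤ E D * (1 - c)) {x : ∀ k, FD (S.F k) (Mon M D)}
    (hx : IsCanL s D c x) (y : ∀ k, CL ((Ov x).F k) (Mon M D → ℝ)) (hy : ∀ᶠ k in UF, (y k).Good (GdC x k))
    (hU : UB (fun k => (y k).l.info / ((Ov x).F k).n)) :
    ul (fun k => (y k).E (fex (gaq s.Q D) x E₀ k)) ≤ E D * ul (fun k => (y k).l.info / ((Ov x).F k).n) := by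
  classical
  let _ := Encodable.ofCountable ι
  have hN : (1 : ℝ) ≤ E D := by exact_mod_cast hED
  have hL : ∀ i, Nul S (fun k => (x k).l.leak ((s.lf i).win c k)) := fun i => hx.1.1.1 (some i)
  set κ' := Option (Σ i : ι, Option (Fin (s.lf i).e)) with hκ'
  set B : κ' → Part (Ov x) := fun a => match a with
    | none => Lab.up (fun k => (x k).l) 1 one_pos (pcd s.Q)
    | some ⟨i, none⟩ => Lab.up (fun k => (x k).l) 1 one_pos (fun k => fc (tS (s.lf i) c k))
    | some ⟨i, some j⟩ => Lab.up (fun k => (x k).l) 1 one_pos (fun k => fc (cS (s.lf i) c j k)) with hB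
  have hstep : ∀ a : κ', ∃ ε : ℕ → ℝ, Tendsto ε UF (𝓝 0) ∧ ∀ᶠ k in UF, ∀ z : CL ((Ov x).F k) (Mon M D → ℝ),
      z.Good (GdC x k) → z.E (fex (gaq s.Q D) x E₀ k) - E D * (z.l.leak (B a k) / ((Ov x).F k).n) - ε k ≤
        (z.rs (B a k)).E (fex (gaq s.Q D) x E₀ k) := by
    intro a
    have hlk : ∀ (k : ℕ) (z : CL ((Ov x).F k) (Mon M D → ℝ)), 0 ≤ E D * (z.l.leak (B a k) / ((Ov x).F k).n) :=
      fun k z => mul_nonneg (by linarith) (div_nonneg (FLab.leak_nonneg _ _) ((Ov x).F k).pos.le)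
    rcases a with _ | ⟨i, _ | j⟩
    · obtain ⟨ε, hε, h⟩ := step_pt (D := D) s.Q E₀ x
      refine ⟨ε, hε, ?_⟩
      filter_upwards [h] with k hk z _
      have u1 := hk z
      have u2 := hlk k z
      show z.E _ - _ - ε k ≤ (z.rs (Lab.up (fun k => (x k).l) 1 one_pos (pcd s.Q) k)).E _
      linarith
    · obtain ⟨ε, hε, h⟩ := step_leaf_t (D := D) (s.lf i) E₀ c x
      refine ⟨ε, hε, ?_⟩
      filter_upwards [h] with k hk z _
      have u1 := hk z
      have u2 := hlk k z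
      show z.E _ - _ - ε k ≤ (z.rs (Lab.up (fun k => (x k).l) 1 one_pos (fun k => fc (tS (s.lf i) c k)) k)).E _
      linarith
    · obtain ⟨ε, hε, h⟩ := step_leaf_c (D := D) (s.lf i) hED h0 h1 E₀ hE0 hE1 x (hL i) j
      refine ⟨ε, hε, ?_⟩
      filter_upwards [h] with k hk z _ using hk z
  choose ε hε hs using hstep
  refine costc (i₀ := none) (A := s.cnd c) (pcd_Bd s.Q) (gaq_hom s.Q D) E₀ hE0 ((OpL_iff_Optc s).mp hx.1) hx.2 B ?_ (E D) (by linarith)
    (fun _ => (E D : ℝ)) (fun _ => le_rfl) ε hε hs y hy hU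
  intro z hz i
  rcases i with _ | i
  · exact hz none
  · exact win_leak (s.lf i) h0 h1.le (hL i) z (hz (some ⟨i, none⟩)) (fun j => hz (some ⟨i, some j⟩))

end

end Pool.Agent.Helper49.MD
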