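import Pool.Agent.Helper49.MD.Kd

/-! APPROXIMATE FINITE PREDICATES: a predicate `P x δ` of finite data, weaker for larger `δ`; the objects with `P` for
all `δ > ε` eventually. They are closed under diagonals (also with `ε j → 0`). Tame constants in this form. -/

set_option autoImplicit false

namespace Pool.Agent.Helper49.MD

open Finset Filter Topology Pool.Agent.Helper69.RK Pool.Agent.Helper31.EC Pool.Agent.Helper31.EC.Sp
open Pool.Agent.Helper40.EL

noncomputable section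

variable {K : FK}

/-- an approximate predicate of finite data -/
structure AP (K : FK) where
  P : ∀ F : FSp, K.X F → ℝ → Prop
  mono : ∀ (F : FSp) (x : K.X F) (δ δ' : ℝ), δ ≤ δ' → P F x δ → P F x δ'

/-- the objects which have `P` up to `ε` -/
def AP.pd (A : AP K) (ε : ℝ) : K.Pd := fun S x => ∀ δ : ℝ, ε < δ → ∀ᶠ k in UF, A.P (S.F k) (x k) δ

theorem AP.pd_mono (A : AP K) {ε ε' : ℝ} (h : ε ≤ ε') {S : Sp} {x : K.Ob S} (hx : A.pd ε S x) : A.pd ε' S x :=
  fun δ hδ => hx δ (h.trans_lt hδ)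

theorem AP.inv (A : AP K) (ε : ℝ) : Inv (A.pd ε) := by
  intro S x y e hx δ hδ
  filter_upwards [hx δ hδ, e] with k a b
  rw [← b]
  exact a

/-- DIAGONALS of objects with `P` up to `ε j` have `P` up to the limit of `ε j` -/
theorem AP.diagTo (A : AP K) {ε : ℕ → ℝ} {ε' : ℝ} (hε : Tendsto ε atTop (𝓝 ε')) :
    DiagTo (fun j => A.pd (ε j)) (A.pd ε') := by
  intro S x hx
  refine ⟨fun _ j k => A.P ((S j).F k) (x j k) (ε j + 1 / ((j : ℝ) + 1)), fun _ j => hx j _ (by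
    have : (0 : ℝ) < 1 / ((j : ℝ) + 1) := by positivity
    linarith), fun J hd δ hδ => ?_⟩
  have t : Tendsto (fun k => ε (J k) + 1 / ((J k : ℝ) + 1)) UF (𝓝 (ε' + 0)) :=
    (hε.comp hd.tend).add (inv_tendsto hd.tend)
  rw [add_zero] at t
  filter_upwards [hd.slow 0, t.eventually (gt_mem_nhds hδ)] with k a b
  exact A.mono _ _ _ _ b.le a

theorem AP.diagCl (A : AP K) (ε : ℝ) : DiagCl (A.pd ε) := A.diagTo tendsto_const_nhds

/-- conjunction -/
def AP.and (A B : AP K) : AP K where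
  P := fun F x δ => A.P F x δ ∧ B.P F x δ
  mono := fun F x δ δ' h hx => ⟨A.mono F x δ δ' h hx.1, B.mono F x δ δ' h hx.2⟩

theorem AP.and_pd (A B : AP K) (ε : ℝ) (S : Sp) (x : K.Ob S) : (A.and B).pd ε S x ↔ A.pd ε S x ∧ B.pd ε S x := by
  constructor
  · intro h
    exact ⟨fun δ hδ => (h δ hδ).mono fun _ hk => hk.1, fun δ hδ => (h δ hδ).mono fun _ hk => hk.2⟩
  · intro h δ hδ
    exact (h.1 δ hδ).and (h.2 δ hδ)

/-! ### tame constants -/

/-- `c` is a tame constant up to `δ` -/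
def tmc (F : FSp) (δ c : ℝ) : Prop := 0 ≤ c ∧ Real.logb 2 (c + 2) / F.n ≤ δ

theorem tmc.mono {F : FSp} {δ δ' c : ℝ} (h : δ ≤ δ') (hc : tmc F δ c) : tmc F δ' c := ⟨hc.1, hc.2.trans h⟩

theorem Sub.tmc {S : Sp} {c : ℕ → ℝ} (hc : S.Sub c) {δ : ℝ} (hδ : 0 < δ) : ∀ᶠ k in UF, tmc (S.F k) δ (c k) := by
  filter_upwards [hc.1, hc.2.eventually (gt_mem_nhds hδ)] with k a b using ⟨a, b.le⟩

/-- statements with a tame constant -/
theorem sub_iff {S : Sp} (P : ℕ → ℝ → Prop) : (∃ c : ℕ → ℝ, S.Sub c ∧ ∀ᶠ k in UF, P k (c k)) ↔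
    ∀ δ : ℝ, 0 < δ → ∀ᶠ k in UF, ∃ c : ℝ, tmc (S.F k) δ c ∧ P k c := by
  constructor
  · rintro ⟨c, hc, h⟩ δ hδ
    filter_upwards [Sub.tmc hc hδ, h] with k a b using ⟨c k, a, b⟩
  · intro h
    have h1 : ∀ j : ℕ, ∀ᶠ k in UF, ∃ c : ℝ, tmc (S.F k) (1 / ((j : ℝ) + 1)) c ∧ P k c := fun j => h _ (by positivity)
    obtain ⟨J, hJ, hJ2⟩ := dia (fun j k => ∃ c : ℝ, tmc (S.F k) (1 / ((j : ℝ) + 1)) c ∧ P k c) h1
    classical
    set c : ℕ → ℝ := fun k => if hk : ∃ c : ℝ, tmc (S.F k) (1 / ((J k : ℝ) + 1)) c ∧ P k c then hk.choose else 0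
      with hc
    have h2 : ∀ᶠ k in UF, tmc (S.F k) (1 / ((J k : ℝ) + 1)) (c k) ∧ P k (c k) := by
      filter_upwards [hJ2] with k hk
      have hk' := hk (J k) le_rfl
      have e : c k = hk'.choose := by
        rw [hc]; exact dif_pos hk'
      rw [e]
      exact hk'.choose_spec
    refine ⟨c, ⟨h2.mono fun k hk => hk.1.1, ?_⟩, h2.mono fun k hk => hk.2⟩
    refine tendsto_of_tendsto_of_tendsto_of_le_of_le' tendsto_const_nhds (inv_tendsto hJ) ?_ ?_
    · filter_upwards [h2] with k hk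
      exact div_nonneg (Real.logb_nonneg (by norm_num) (by linarith [hk.1.1])) (S.F k).pos.le
    · filter_upwards [h2] with k hk using hk.1.2

/-- a sequence of natural numbers bounded along the ultrafilter is constant along the ultrafilter -/
theorem exists_const_nat (a : ℕ → ℕ) (N : ℕ) (h : ∀ᶠ k in UF, a k ≤ N) : ∃ e ≤ N, ∀ᶠ k in UF, a k = e := by
  induction N with
  | zero => exact ⟨0, le_rfl, h.mono fun k hk => Nat.le_zero.mp hk⟩
  | succ N ih =>
    rcases UF_em (fun k => a k = N + 1) with h1 | h1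
    · exact ⟨N + 1, le_rfl, h1⟩
    · obtain ⟨e, he, h2⟩ := ih (by
        filter_upwards [h, h1] with k b c
        omega)
      exact ⟨e, he.trans (Nat.le_succ N), h2⟩

end

end Pool.Agent.Helper49.MD
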