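import Pool.Agent.Helper84.MT.Fun
import Pool.Agent.Helper49.MD.Cnt

/-! COUNTABLE FAMILIES OF CONDITIONS: canonical forms (port of Helper84/MT/Canf: at the precision `η` only the
conditions with `encode i * η ≤ 1` are used, so the admissible sequences are those whose labels have no leak at each
condition). -/

namespace Pool.Agent.Helper89.LX

open Finset Filter Topology Matrix Pool.Agent.Helper69.RK Pool.Agent.Helper31.EC Pool.Agent.Helper40.EL
open Pool.Agent.Helper95.LF (PdM)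
open Pool.Agent.Helper49.MD (Used ev_used used_ev)

noncomputable section

variable {ι : Type} [Fintype ι] [DecidableEq ι] {S : Sp} (Φ : Gau S ι) {κ : Type} [Encodable κ]

/-- admissible up to `η` at the index `k` -/
def Gau.Admc (A : κ → Part S) (η : ℝ) (k : ℕ) (x : FD (S.F k) ι) : Prop :=
  (∀ i, Used η i → x.l.leak (A i k) ≤ η * (S.F k).n) ∧
  (∀ ω, x.l.T.μ ω ≠ 0 → Cpd (Φ.cp k) (x.g ω) ∧ Cpd (Φ.cp k) (x.g' ω)) ∧
  x.l.T.pb (fun ω => ¬ Φ.φ k (x.l.p.π ω) (x.g ω) ≤ 2 ^ (η * (S.F k).n)) ≤ η ∧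
  x.l.T.pb (fun ω => ¬ Φ.φ k (x.l.p.π ω) (x.g' ω) ≤ 2 ^ (η * (S.F k).n)) ≤ η

/-- admissible sequences -/
def Gau.Adc (A : κ → Part S) (x : ∀ k, FD (S.F k) ι) : Prop := ∀ η : ℝ, 0 < η → ∀ᶠ k in UF, Φ.Admc A η k (x k)

theorem Gau.Admc.mono {A : κ → Part S} {η η' : ℝ} (h : η ≤ η') {k : ℕ} {x : FD (S.F k) ι} (hx : Φ.Admc A η k x) :
    Φ.Admc A η' k x := by
  have hn := (S.F k).pos
  have h1 : η * (S.F k).n ≤ η' * (S.F k).n := mul_le_mul_of_nonneg_right h hn.le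
  have h2 : (2 : ℝ) ^ (η * (S.F k).n) ≤ 2 ^ (η' * (S.F k).n) :=
    Real.rpow_le_rpow_of_exponent_le (by norm_num) h1
  refine ⟨fun i hi => (hx.1 i (hi.mono h)).trans h1, hx.2.1, ?_, ?_⟩
  · refine le_trans (x.l.T.pb_mono ?_) (hx.2.2.1.trans h)
    intro ω _ h3 h4
    exact h3 (h4.trans h2)
  · refine le_trans (x.l.T.pb_mono ?_) (hx.2.2.2.trans h)
    intro ω _ h3 h4
    exact h3 (h4.trans h2)

/-- diagonal: if admissible sequences up to `1/(j+1)` exist with a property `P j` which gets stronger, there is an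
admissible sequence with all the properties -/
theorem Gau.diagc (A : κ → Part S) (x : ℕ → ∀ k, FD (S.F k) ι) (P : ℕ → ∀ k, FD (S.F k) ι → Prop)
    (hx : ∀ j : ℕ, ∀ᶠ k in UF, Φ.Admc A (1 / ((j : ℝ) + 1)) k (x j k) ∧ P j k (x j k)) :
    ∃ (y : ∀ k, FD (S.F k) ι) (J : ℕ → ℕ), Tendsto J UF atTop ∧ Φ.Adc A y ∧ ∀ᶠ k in UF, P (J k) k (y k) := by
  obtain ⟨y, J, hJ, hy, hG⟩ := dia' x (fun j k z => Φ.Admc A (1 / ((j : ℝ) + 1)) k z ∧ P j k z) hx
  refine ⟨y, J, hJ, fun η hη => ?_, ?_⟩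
  · have h0 : Tendsto (fun k => 1 / ((J k : ℝ) + 1)) UF (𝓝 0) :=
      tendsto_one_div_add_atTop_nhds_zero_nat.comp hJ
    filter_upwards [hG, h0.eventually (gt_mem_nhds hη)] with k hk h1
    exact Gau.Admc.mono Φ h1.le hk.1
  · filter_upwards [hG] with k hk using hk.2

theorem Gau.sc_boundsc {A : κ → Part S} {η : ℝ} {k : ℕ} {x : FD (S.F k) ι} (hx : Φ.Admc A η k x) :
    0 ≤ x.sc / (S.F k).n ∧ x.sc / (S.F k).n ≤ Fintype.card ι * (Φ.C + 1) := by
  have hn := (S.F k).pos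
  constructor
  · apply div_nonneg _ hn.le
    unfold FD.sc
    apply Finset.sum_nonneg
    intro ω _
    by_cases h0 : x.l.T.μ ω = 0
    · rw [h0, zero_mul]
    · exact mul_nonneg (x.l.T.nn ω) (logdet_nonneg (hx.2.1 ω h0).1)
  · rw [div_le_iff₀ hn]
    unfold FD.sc
    apply sum_mul_le (F := x.l.T)
    intro ω h0
    have h1 := logdet_le (Φ.one_le_cp k) (hx.2.1 ω h0).1
    rw [Φ.logb_cp] at h1
    linarith

theorem Gau.sc_UBc {A : κ → Part S} {x : ∀ k, FD (S.F k) ι} (hx : Φ.Adc A x) :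
    UB (fun k => (x k).sc / (S.F k).n) := by
  apply UB_of_nonneg_le (C := Fintype.card ι * (Φ.C + 1))
  · filter_upwards [hx 1 one_pos] with k hk using (Φ.sc_boundsc hk).1
  · filter_upwards [hx 1 one_pos] with k hk using (Φ.sc_boundsc hk).2

theorem Gau.triv_Adc (A : κ → Part S) : Φ.Adc A (fun k => trivFD (S.F k)) := by
  intro η hη
  obtain ⟨K, hK, h1⟩ := Φ.one
  filter_upwards [h1, hK.eventually_le hη] with k a b
  have hn := (S.F k).pos
  have h0 : (trivFD (ι := ι) (S.F k)).l.T.pb (fun ω => ¬ Φ.φ k ((trivFD (ι := ι) (S.F k)).l.p.π ω) 1 ≤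
      2 ^ (η * (S.F k).n)) ≤ η := by
    have h2 : (trivFD (ι := ι) (S.F k)).l.T.pb (fun ω => ¬ Φ.φ k ((trivFD (ι := ι) (S.F k)).l.p.π ω) 1 ≤
      2 ^ (η * (S.F k).n)) ≤ (trivFD (ι := ι) (S.F k)).l.T.pb (fun _ => False) := by
      apply FSp.pb_mono
      intro ω h3 h4
      exact h4 ((a ω h3).trans (by linarith))
    have h3 : (trivFD (ι := ι) (S.F k)).l.T.pb (fun _ => False) = 0 := by
      unfold FSp.pb mass
      apply Finset.sum_eq_zero
      intro ω _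
      exact res_neg _ _ _ not_false
    linarith
  refine ⟨fun i _ => ?_, fun ω _ => ⟨Cpd_one (Φ.one_le_cp k), Cpd_one (Φ.one_le_cp k)⟩, h0, h0⟩
  have : (trivFD (ι := ι) (S.F k)).l.leak (A i k) = 0 := FLab.triv_leak _
  rw [this]; positivity

/-- optimal sequences -/
def Gau.Optc (A : κ → Part S) (x : ∀ k, FD (S.F k) ι) : Prop :=
  Φ.Adc A x ∧ ∀ y, Φ.Adc A y → ul (fun k => (y k).sc / (S.F k).n) ≤ ul (fun k => (x k).sc / (S.F k).n)

/-- (1.1) optimal forms exist -/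
theorem Gau.exists_optc (A : κ → Part S) : ∃ x : ∀ k, FD (S.F k) ι, Φ.Optc A x := by
  set V : Set ℝ := {r | ∃ x : ∀ k, FD (S.F k) ι, Φ.Adc A x ∧ r = ul (fun k => (x k).sc / (S.F k).n)} with hV
  have hVb : BddAbove V := by
    refine ⟨Fintype.card ι * (Φ.C + 1), ?_⟩
    rintro r ⟨x, hx, rfl⟩
    apply ul_le_const (Φ.sc_UBc hx)
    filter_upwards [hx 1 one_pos] with k hk using (Φ.sc_boundsc hk).2
  have hVn : V.Nonempty := ⟨_, _, Φ.triv_Adc A, rfl⟩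
  have h1 : ∀ j : ℕ, ∃ x : ∀ k, FD (S.F k) ι, Φ.Adc A x ∧
      sSup V - 1 / ((j : ℝ) + 1) < ul (fun k => (x k).sc / (S.F k).n) := by
    intro j
    have h2 : sSup V - 1 / ((j : ℝ) + 1) < sSup V := by
      have : (0 : ℝ) < 1 / ((j : ℝ) + 1) := by positivity
      linarith
    obtain ⟨r, ⟨x, hx, rfl⟩, hr⟩ := exists_lt_of_lt_csSup hVn h2
    exact ⟨x, hx, hr⟩
  choose x hx hx' using h1
  obtain ⟨y, J, hJ, hy, hP⟩ := Φ.diagc A x (fun j k z => sSup V - 1 / ((j : ℝ) + 1) ≤ z.sc / (S.F k).n) (by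
    intro j
    filter_upwards [hx j _ (by positivity : (0 : ℝ) < 1 / ((j : ℝ) + 1)),
      eventually_gt_of_lt_ul (Φ.sc_UBc (hx j)) (hx' j)] with k a b using ⟨a, b.le⟩)
  refine ⟨y, hy, fun z hz => ?_⟩
  have h2 : ul (fun k => (z k).sc / (S.F k).n) ≤ sSup V := le_csSup hVb ⟨z, hz, rfl⟩
  refine h2.trans ?_
  have h0 : Tendsto (fun k => 1 / ((J k : ℝ) + 1)) UF (𝓝 0) :=
    tendsto_one_div_add_atTop_nhds_zero_nat.comp hJ
  have h3 : Tendsto (fun k => sSup V - 1 / ((J k : ℝ) + 1)) UF (𝓝 (sSup V)) := by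
    have := h0.const_sub (sSup V)
    rwa [sub_zero] at this
  exact le_of_tendsto_of_tendsto h3 (ul_tendsto (Φ.sc_UBc hy)) hP

theorem Gau.sum_casesc {A : κ → Part S} {η : ℝ} {k : ℕ} {x : FD (S.F k) ι} (hx : Φ.Admc A η k x) (ω : x.l.T.Ω)
    (h0 : x.l.T.μ ω ≠ 0) : Φ.φ k (x.l.p.π ω) ((sumFD (Φ.cp k) x).g ω) ≤
      Φ.φ k (x.l.p.π ω) (x.g ω) + Φ.φ k (x.l.p.π ω) (x.g' ω) := by
  classical
  unfold sumFD
  show Φ.φ k (x.l.p.π ω) (if Cpd (Φ.cp k) (x.g ω + x.g' ω) then x.g ω + x.g' ω else x.g ω) ≤ _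
  split_ifs
  · rw [Φ.add]
  · have := Φ.nn k (x.l.p.π ω) _ (hx.2.1 ω h0).2.psd
    linarith

/-- the cap is not reached typically -/
theorem Gau.sum_typc {A : κ → Part S} {x : ∀ k, FD (S.F k) ι} (hx : Φ.Adc A x) :
    Tendsto (fun k => (x k).l.T.pb (fun ω => ¬ Cpd (Φ.cp k) ((x k).g ω + (x k).g' ω))) UF (𝓝 0) := by
  rw [Metric.tendsto_nhds]
  intro ε hε
  set η : ℝ := min (ε / 4) (1 / 2) with hη
  have hη0 : 0 < η := lt_min (by linarith) (by norm_num)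
  have hη1 : η ≤ 1 / 2 := min_le_right _ _
  have hη2 : η ≤ ε / 4 := min_le_left _ _
  have hnk : ∀ᶠ k in UF, (2 : ℝ) ≤ (S.F k).n := S.lim.eventually (eventually_ge_atTop 2)
  filter_upwards [hx η hη0, Φ.cap, hnk] with k hk hcap hn2
  rw [Real.dist_eq, sub_zero, abs_of_nonneg ((x k).l.T.pb_nonneg _)]
  have hn := (S.F k).pos
  have h1 : (x k).l.T.pb (fun ω => ¬ Cpd (Φ.cp k) ((x k).g ω + (x k).g' ω)) ≤
      (x k).l.T.pb (fun ω => ¬ Φ.φ k ((x k).l.p.π ω) ((x k).g ω) ≤ 2 ^ (η * (S.F k).n)) +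
      (x k).l.T.pb (fun ω => ¬ Φ.φ k ((x k).l.p.π ω) ((x k).g' ω) ≤ 2 ^ (η * (S.F k).n)) := by
    refine le_trans (FSp.pb_mono _ (E' := fun ω => (¬ Φ.φ k ((x k).l.p.π ω) ((x k).g ω) ≤ 2 ^ (η * (S.F k).n)) ∨
      (¬ Φ.φ k ((x k).l.p.π ω) ((x k).g' ω) ≤ 2 ^ (η * (S.F k).n))) ?_) (pb_or _ _ _)
    intro ω h0 h2
    by_contra hc
    push Not at hc
    apply h2
    obtain ⟨c1, c2⟩ := hk.2.1 ω h0
    refine ⟨c1.1.add c2.1, fun y => ?_, fun y => ?_⟩
    · rw [qf_add]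
      have a := c1.2.1 y
      have b := c2.psd.2 y
      linarith
    · have h3 := hcap ((x k).l.p.π ω) ((x k).l.p.supp ω h0) _ (c1.pdM.add c2.psd.1 c2.psd.2) y
      rw [Φ.add] at h3
      refine h3.trans ?_
      apply mul_le_mul_of_nonneg_right _ (dot_self_nonneg y)
      unfold Gau.cp
      rw [add_mul, one_mul, Real.rpow_add (by norm_num)]
      apply mul_le_mul_of_nonneg_left _ (by positivity)
      have e1 : (2 : ℝ) ^ (η * (S.F k).n) ≤ 2 ^ ((S.F k).n - 1) := by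
        apply Real.rpow_le_rpow_of_exponent_le (by norm_num)
        nlinarith
      have e2 : (2 : ℝ) ^ ((S.F k).n) = 2 ^ ((S.F k).n - 1) * 2 := by
        rw [Real.rpow_sub_one (by norm_num)]; ring
      rw [e2]
      linarith [hc.1, hc.2]
  have h2 := hk.2.2.1
  have h3 := hk.2.2.2
  linarith

theorem Gau.sum_Adc {A : κ → Part S} {x : ∀ k, FD (S.F k) ι} (hx : Φ.Adc A x) :
    Φ.Adc A (fun k => sumFD (Φ.cp k) (x k)) := by
  classical
  intro η hη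
  have hη4 : 0 < η / 4 := by linarith
  have hnk : ∀ᶠ k in UF, (4 / η : ℝ) ≤ (S.F k).n := S.lim.eventually (eventually_ge_atTop _)
  filter_upwards [hx _ hη4, hnk] with k hk hnk
  have hn := (S.F k).pos
  have e0 : η / 4 * (S.F k).n ≤ η * (S.F k).n := by nlinarith
  have h1 : (x k).l.T.pb (fun ω => ¬ Φ.φ k ((x k).l.p.π ω) ((sumFD (Φ.cp k) (x k)).g ω) ≤ 2 ^ (η * (S.F k).n)) ≤ η := by
    have h2 : (x k).l.T.pb (fun ω => ¬ Φ.φ k ((x k).l.p.π ω) ((sumFD (Φ.cp k) (x k)).g ω) ≤ 2 ^ (η * (S.F k).n)) ≤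
        (x k).l.T.pb (fun ω => ¬ Φ.φ k ((x k).l.p.π ω) ((x k).g ω) ≤ 2 ^ (η / 4 * (S.F k).n)) +
        (x k).l.T.pb (fun ω => ¬ Φ.φ k ((x k).l.p.π ω) ((x k).g' ω) ≤ 2 ^ (η / 4 * (S.F k).n)) := by
      refine le_trans (FSp.pb_mono _ (E' := fun ω => (¬ Φ.φ k ((x k).l.p.π ω) ((x k).g ω) ≤ 2 ^ (η / 4 * (S.F k).n)) ∨
        (¬ Φ.φ k ((x k).l.p.π ω) ((x k).g' ω) ≤ 2 ^ (η / 4 * (S.F k).n))) ?_) (pb_or _ _ _)
      intro ω h0 h2
      by_contra hc
      push Not at hc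
      apply h2
      refine (Φ.sum_casesc hk ω h0).trans ?_
      have e1 : (2 : ℝ) ^ (η / 4 * (S.F k).n) * 2 ≤ 2 ^ (η * (S.F k).n) := by
        rw [← Real.rpow_add_one (by norm_num)]
        apply Real.rpow_le_rpow_of_exponent_le (by norm_num)
        have : 1 ≤ η / 4 * (S.F k).n := by
          rw [div_le_iff₀ hη] at hnk
          linarith
        nlinarith
      linarith [hc.1, hc.2]
    linarith [hk.2.2.1, hk.2.2.2]
  refine ⟨fun i hi => (hk.1 i (hi.mono (by linarith))).trans e0, fun ω h0 => ?_, h1, h1⟩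
  have h2 : Cpd (Φ.cp k) ((sumFD (Φ.cp k) (x k)).g ω) := by
    show Cpd (Φ.cp k) (if Cpd (Φ.cp k) ((x k).g ω + (x k).g' ω) then (x k).g ω + (x k).g' ω else (x k).g ω)
    split_ifs with h3
    · exact h3
    · exact (hk.2.1 ω h0).1
  exact ⟨h2, h2⟩

/-- (1.2) an optimal form dominates every bounding form -/
theorem Gau.opt_nearc {A : κ → Part S} {x : ∀ k, FD (S.F k) ι} (hx : Φ.Adc A x)
    (hopt : ∀ y, Φ.Adc A y → ul (fun k => (y k).sc / (S.F k).n) ≤ ul (fun k => (x k).sc / (S.F k).n))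
    (e : ℝ) (he : 0 < e) :
    Tendsto (fun k => (x k).l.T.pb (fun ω => ¬ ∀ y, qf ((x k).g' ω) y ≤ 2 ^ (e * (S.F k).n) * qf ((x k).g ω) y))
      UF (𝓝 0) := by
  classical
  set z : ∀ k, FD (S.F k) ι := fun k => sumFD (Φ.cp k) (x k) with hz
  have hzA : Φ.Adc A z := Φ.sum_Adc hx
  have h1 := hopt z hzA
  have t1 := ul_tendsto (Φ.sc_UBc hzA)
  have t2 := ul_tendsto (Φ.sc_UBc hx)
  set Ev : ∀ k, (x k).l.T.Ω → Prop := fun k ω =>
    (¬ ∀ y, qf ((x k).g' ω) y ≤ 2 ^ (e * (S.F k).n) * qf ((x k).g ω) y) ∧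
      Cpd (Φ.cp k) ((x k).g ω + (x k).g' ω) with hEv
  have hd : ∀ᶠ k in UF, e * (x k).l.T.pb (Ev k) ≤ (z k).sc / (S.F k).n - (x k).sc / (S.F k).n := by
    filter_upwards [hx 1 one_pos] with k hk
    have hn := (S.F k).pos
    rw [← sub_div, le_div_iff₀ hn]
    unfold FD.sc FSp.pb mass
    show e * (∑ ω, res (x k).l.T.μ (Ev k) ω) * (S.F k).n ≤
      (∑ ω : (x k).l.T.Ω, (x k).l.T.μ ω * Real.logb 2 ((z k).g ω).det) -
      ∑ ω, (x k).l.T.μ ω * Real.logb 2 ((x k).g ω).det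
    rw [← Finset.sum_sub_distrib, mul_comm e, mul_assoc, Finset.sum_mul]
    apply Finset.sum_le_sum
    intro ω _
    by_cases h0 : (x k).l.T.μ ω = 0
    · rw [h0, zero_mul, zero_mul, sub_zero]
      unfold res
      split_ifs
      · rw [h0, zero_mul]
      · rw [zero_mul]
    · obtain ⟨c1, c2⟩ := hk.2.1 ω h0
      have hμ : 0 ≤ (x k).l.T.μ ω := (x k).l.T.nn ω
      have hz1 : (z k).g ω = if Cpd (Φ.cp k) ((x k).g ω + (x k).g' ω) then (x k).g ω + (x k).g' ω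
        else (x k).g ω := rfl
      have hdet : 0 < ((x k).g ω).det := zero_lt_one.trans_le c1.one_le
      rw [← mul_sub]
      by_cases hN : Ev k ω
      · rw [res_pos _ _ _ hN, hz1, if_pos hN.2]
        apply mul_le_mul_of_nonneg_left _ hμ
        obtain ⟨y, hy⟩ := not_forall.mp hN.1
        push Not at hy
        have hy0 : y ≠ 0 := by
          intro h
          subst h
          unfold qf at hy
          simp at hy
        have h2 := det_gain' c1.pdM c2.psd (2 ^ (e * (S.F k).n)) y hy0 hy.le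
        have h3 : (2 : ℝ) ^ (e * (S.F k).n) * ((x k).g ω).det ≤ ((x k).g ω + (x k).g' ω).det := by
          refine le_trans ?_ h2
          apply mul_le_mul_of_nonneg_right _ hdet.le
          linarith
        have h4 := Real.logb_le_logb_of_le (b := 2) (by norm_num) (by positivity) h3
        rw [Real.logb_mul (by positivity) hdet.ne', Real.logb_rpow (by norm_num) (by norm_num)] at h4
        linarith
      · rw [res_neg _ _ _ hN, zero_mul]
        apply mul_nonneg hμ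
        rw [hz1]
        split_ifs with h3
        · have h2 := det_gain_zero c1.pdM c2.psd
          have h4 := Real.logb_le_logb_of_le (b := 2) (by norm_num) hdet h2
          linarith
        · linarith
  have hlim : Tendsto (fun k => (z k).sc / (S.F k).n - (x k).sc / (S.F k).n) UF
      (𝓝 (ul (fun k => (z k).sc / (S.F k).n) - ul (fun k => (x k).sc / (S.F k).n))) := t1.sub t2
  have hle : ul (fun k => (z k).sc / (S.F k).n) - ul (fun k => (x k).sc / (S.F k).n) ≤ 0 := by linarith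
  have hge : 0 ≤ ul (fun k => (z k).sc / (S.F k).n) - ul (fun k => (x k).sc / (S.F k).n) := by
    apply ge_of_tendsto hlim
    filter_upwards [hd] with k hk
    exact (mul_nonneg he.le ((x k).l.T.pb_nonneg _)).trans hk
  have heq : ul (fun k => (z k).sc / (S.F k).n) - ul (fun k => (x k).sc / (S.F k).n) = 0 := le_antisymm hle hge
  rw [heq] at hlim
  have hN : Tendsto (fun k => (x k).l.T.pb (Ev k)) UF (𝓝 0) := by
    have h5 := hlim.const_mul e⁻¹
    rw [mul_zero] at h5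
    refine tendsto_of_tendsto_of_tendsto_of_le_of_le' tendsto_const_nhds h5
      (Eventually.of_forall fun k => (x k).l.T.pb_nonneg _) ?_
    filter_upwards [hd] with k hk
    rw [← div_eq_inv_mul, le_div_iff₀ he, mul_comm]
    exact hk
  have hsum := hN.add (Φ.sum_typc hx)
  rw [add_zero] at hsum
  refine tendsto_of_tendsto_of_tendsto_of_le_of_le tendsto_const_nhds hsum
    (fun k => (x k).l.T.pb_nonneg _) (fun k => ?_)
  refine le_trans (FSp.pb_mono _ (E' := fun ω => Ev k ω ∨ ¬ Cpd (Φ.cp k) ((x k).g ω + (x k).g' ω)) ?_)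
    (pb_or _ _ _)
  intro ω _ h2
  by_cases h3 : Cpd (Φ.cp k) ((x k).g ω + (x k).g' ω)
  · exact Or.inl ⟨h2, h3⟩
  · exact Or.inr h3

/-- the approximate version: `x₀` is an optimal sequence -/
theorem Gau.approxc {A : κ → Part S} {x₀ : ∀ k, FD (S.F k) ι} (h₀ : Φ.Optc A x₀) (e : ℝ) (he : 0 < e) :
    ∃ η : ℝ, 0 < η ∧ ∀ x : ∀ k, FD (S.F k) ι,
      (∀ᶠ k in UF, Φ.Admc A η k (x k) ∧ ul (fun k => (x₀ k).sc / (S.F k).n) - η ≤ (x k).sc / (S.F k).n) →
      ∀ᶠ k in UF, (x k).l.T.pb (fun ω => ¬ ∀ y, qf ((x k).g' ω) y ≤ 2 ^ (e * (S.F k).n) * qf ((x k).g ω) y) ≤ e := by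
  by_contra hc
  have h1 : ∀ j : ℕ, ∃ x : ∀ k, FD (S.F k) ι,
      (∀ᶠ k in UF, Φ.Admc A (1 / ((j : ℝ) + 1)) k (x k) ∧
        ul (fun k => (x₀ k).sc / (S.F k).n) - 1 / ((j : ℝ) + 1) ≤ (x k).sc / (S.F k).n) ∧
      ∀ᶠ k in UF, e ≤ (x k).l.T.pb (fun ω => ¬ ∀ y, qf ((x k).g' ω) y ≤ 2 ^ (e * (S.F k).n) * qf ((x k).g ω) y) := by
    intro j
    by_contra hj
    apply hc
    refine ⟨1 / ((j : ℝ) + 1), by positivity, fun x hx => ?_⟩
    by_contra hx'
    apply hj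
    refine ⟨x, hx, ?_⟩
    have h2 := Ultrafilter.eventually_not.mpr hx'
    filter_upwards [h2] with k hk
    exact (not_le.mp hk).le
  choose x hx hx' using h1
  obtain ⟨y, J, hJ, hy, hP⟩ := Φ.diagc A x (fun j k z =>
      ul (fun k => (x₀ k).sc / (S.F k).n) - 1 / ((j : ℝ) + 1) ≤ z.sc / (S.F k).n ∧
      e ≤ z.l.T.pb (fun ω => ¬ ∀ y, qf (z.g' ω) y ≤ 2 ^ (e * (S.F k).n) * qf (z.g ω) y)) (by
    intro j
    filter_upwards [hx j, hx' j] with k a b using ⟨a.1, a.2, b⟩)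
  have h0 : Tendsto (fun k => 1 / ((J k : ℝ) + 1)) UF (𝓝 0) :=
    tendsto_one_div_add_atTop_nhds_zero_nat.comp hJ
  have h3 : ul (fun k => (x₀ k).sc / (S.F k).n) ≤ ul (fun k => (y k).sc / (S.F k).n) := by
    have h4 : Tendsto (fun k => ul (fun k => (x₀ k).sc / (S.F k).n) - 1 / ((J k : ℝ) + 1)) UF
        (𝓝 (ul (fun k => (x₀ k).sc / (S.F k).n))) := by
      have := h0.const_sub (ul (fun k => (x₀ k).sc / (S.F k).n))
      rwa [sub_zero] at this
    exact le_of_tendsto_of_tendsto h4 (ul_tendsto (Φ.sc_UBc hy)) (by filter_upwards [hP] with k hk using hk.1)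
  have h4 := Φ.opt_nearc hy (fun z hz => (h₀.2 z hz).trans h3) e he
  have h5 : e ≤ 0 := by
    apply ge_of_tendsto h4
    filter_upwards [hP] with k hk using hk.2
  linarith

theorem Gau.Admc.jn {A : κ → Part S} {η η' : ℝ} (h0' : 0 ≤ η) (h0 : 0 ≤ η') {k : ℕ} {x : FD (S.F k) ι}
    (hx : Φ.Admc A η k x) {l : FLab (S.F k)} (hA : ∀ i, Used η' i → l.leak (A i k) ≤ η' * (S.F k).n) :
    Φ.Admc A (η + η') k (x.jn l) := by
  have hn := (S.F k).pos
  refine ⟨fun i hi => ?_, fun w hw => ?_, ?_, ?_⟩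
  · have := x.jn_leak l (A i k)
    rw [add_mul]; linarith [hx.1 i (hi.mono (by linarith)), hA i (hi.mono (by linarith))]
  · exact hx.2.1 _ ((x.l.am l).p1.supp w hw)
  · have h1 := pb_push (x.l.am l).p1 (fun ω => ¬ Φ.φ k (x.l.p.π ω) (x.g ω) ≤ 2 ^ (η * (S.F k).n))
    have h2 : (x.jn l).l.T.pb (fun w => ¬ Φ.φ k ((x.jn l).l.p.π w) ((x.jn l).g w) ≤ 2 ^ ((η + η') * (S.F k).n)) ≤
        (x.l.am l).sp.pb (fun w => ¬ Φ.φ k (x.l.p.π ((x.l.am l).p1.π w)) (x.g ((x.l.am l).p1.π w)) ≤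
          2 ^ (η * (S.F k).n)) := by
      apply FSp.pb_mono
      intro w _ h3 h4
      apply h3
      refine le_trans h4 ?_
      apply Real.rpow_le_rpow_of_exponent_le (by norm_num)
      nlinarith
    have h5 := hx.2.2.1
    linarith
  · have h1 := pb_push (x.l.am l).p1 (fun ω => ¬ Φ.φ k (x.l.p.π ω) (x.g' ω) ≤ 2 ^ (η * (S.F k).n))
    have h2 : (x.jn l).l.T.pb (fun w => ¬ Φ.φ k ((x.jn l).l.p.π w) ((x.jn l).g' w) ≤ 2 ^ ((η + η') * (S.F k).n)) ≤
        (x.l.am l).sp.pb (fun w => ¬ Φ.φ k (x.l.p.π ((x.l.am l).p1.π w)) (x.g' ((x.l.am l).p1.π w)) ≤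
          2 ^ (η * (S.F k).n)) := by
      apply FSp.pb_mono
      intro w _ h3 h4
      apply h3
      refine le_trans h4 ?_
      apply Real.rpow_le_rpow_of_exponent_le (by norm_num)
      nlinarith
    have h5 := hx.2.2.2
    linarith

theorem Gau.Adc.dm {A : κ → Part S} {x : ∀ k, FD (S.F k) ι} (hx : Φ.Adc A x) : Lab.DMf (fun k => (x k).l) A := by
  intro i
  show Tendsto _ _ _
  rw [Metric.tendsto_nhds]
  intro ε hε
  have hm : 0 < min (ε / 2) (1 / ((Encodable.encode i : ℝ) + 1)) := lt_min (by linarith) (by positivity)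
  filter_upwards [hx _ hm] with k hk
  have hn := (S.F k).pos
  rw [Real.dist_eq, sub_zero, abs_of_nonneg (div_nonneg (FLab.leak_nonneg _ _) hn.le), div_lt_iff₀ hn]
  have h3 : Used (min (ε / 2) (1 / ((Encodable.encode i : ℝ) + 1))) i := by
    have h4 : (Encodable.encode i : ℝ) * min (ε / 2) (1 / ((Encodable.encode i : ℝ) + 1)) ≤
        Encodable.encode i * (1 / ((Encodable.encode i : ℝ) + 1)) :=
      mul_le_mul_of_nonneg_left (min_le_right _ _) (Nat.cast_nonneg _)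
    refine h4.trans ?_
    rw [mul_one_div, div_le_one (by positivity)]
    linarith
  have := hk.1 i h3
  have h5 : min (ε / 2) (1 / ((Encodable.encode i : ℝ) + 1)) ≤ ε / 2 := min_le_left _ _
  nlinarith

theorem leak_evc {A : κ → Part S} {l : Lab S} (hl : l.DMf A) {η : ℝ} (hη : 0 < η) :
    ∀ᶠ k in UF, ∀ i, Used η i → (l k).leak (A i k) ≤ η * (S.F k).n := by
  refine ev_used hη fun i => ?_
  filter_upwards [(hl i).eventually (gt_mem_nhds hη)] with k hk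
  have hn := (S.F k).pos
  rw [div_lt_iff₀ hn] at hk
  exact hk.le

theorem Gau.Adc.jn {A : κ → Part S} {x : ∀ k, FD (S.F k) ι} (hx : Φ.Adc A x) {l : Lab S}
    (hl : l.DMf A) : Φ.Adc A (fun k => (x k).jn (l k)) := by
  intro η hη
  have h2 : 0 < η / 2 := by linarith
  filter_upwards [hx _ h2, leak_evc hl h2] with k a b
  have := Gau.Admc.jn Φ h2.le h2.le a b
  rwa [add_halves] at this

theorem Gau.Optc.jn {A : κ → Part S} {x : ∀ k, FD (S.F k) ι} (hx : Φ.Optc A x) {l : Lab S}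
    (hl : l.DMf A) : Φ.Optc A (fun k => (x k).jn (l k)) := by
  refine ⟨Gau.Adc.jn Φ hx.1 hl, fun y hy => ?_⟩
  have h1 : (fun k => ((x k).jn (l k)).sc / (S.F k).n) = fun k => (x k).sc / (S.F k).n := by
    funext k
    rw [(x k).jn_sc (l k)]
  rw [h1]
  exact hx.2 y hy

/-- one label which is informationally maximal and carries an optimal form -/
theorem Gau.exists_kapc (A : κ → Part S) {i₀ : κ} (hA : (A i₀).Bd) :
    ∃ x : ∀ k, FD (S.F k) ι, Φ.Optc A x ∧ Lab.IsMaxf (fun k => (x k).l) A := by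
  obtain ⟨x, hx⟩ := Φ.exists_optc A
  obtain ⟨l, hl⟩ := Lab.exists_maxf A hA
  refine ⟨fun k => (x k).jn (l k), Gau.Optc.jn Φ hx hl.1, Gau.Adc.dm Φ (Gau.Adc.jn Φ hx.1 hl.1), fun l' hl' => ?_⟩
  refine (hl.2 l' hl').trans ?_
  apply ul_mono (hl.1.ub hA) ((Gau.Adc.dm Φ (Gau.Adc.jn Φ hx.1 hl.1)).ub hA)
  refine Eventually.of_forall fun k => div_le_div_of_nonneg_right ?_ (S.F k).pos.le
  exact (x k).l.join_info_ge_right (l k)

theorem Gau.Admc.jj {A : κ → Part S} {η η' : ℝ} (h0 : 0 ≤ η) (h0' : 0 ≤ η') {k : ℕ} {x y : FD (S.F k) ι}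
    (hx : Φ.Admc A η k x) (hy : Φ.Admc A η' k y) : Φ.Admc A (η + η') k (x.jj y) := by
  have hn := (S.F k).pos
  refine ⟨fun i hi => ?_, fun w hw => ⟨(hx.2.1 _ ((x.l.am y.l).p1.supp w hw)).1,
    (hy.2.1 _ ((x.l.am y.l).p2.supp w hw)).1⟩, ?_, ?_⟩
  · have := x.l.join_leak y.l (A i k)
    have h1 : (x.jj y).l.leak (A i k) = (x.l.join y.l).leak (A i k) := rfl
    rw [h1, add_mul]; linarith [hx.1 i (hi.mono (by linarith)), hy.1 i (hi.mono (by linarith))]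
  · have h1 := pb_push (x.l.am y.l).p1 (fun ω => ¬ Φ.φ k (x.l.p.π ω) (x.g ω) ≤ 2 ^ (η * (S.F k).n))
    have h2 : (x.jj y).l.T.pb (fun w => ¬ Φ.φ k ((x.jj y).l.p.π w) ((x.jj y).g w) ≤ 2 ^ ((η + η') * (S.F k).n)) ≤
        (x.l.am y.l).sp.pb (fun w => ¬ Φ.φ k (x.l.p.π ((x.l.am y.l).p1.π w)) (x.g ((x.l.am y.l).p1.π w)) ≤
          2 ^ (η * (S.F k).n)) := by
      apply FSp.pb_mono
      intro w _ h3 h4
      apply h3
      refine le_trans h4 ?_
      apply Real.rpow_le_rpow_of_exponent_le (by norm_num)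
      nlinarith
    have h5 := hx.2.2.1
    linarith
  · have h1 := pb_push (x.l.am y.l).p2 (fun ω => ¬ Φ.φ k (y.l.p.π ω) (y.g ω) ≤ 2 ^ (η' * (S.F k).n))
    have h2 : (x.jj y).l.T.pb (fun w => ¬ Φ.φ k ((x.jj y).l.p.π w) ((x.jj y).g' w) ≤ 2 ^ ((η + η') * (S.F k).n)) ≤
        (x.l.am y.l).sp.pb (fun w => ¬ Φ.φ k (y.l.p.π ((x.l.am y.l).p2.π w)) (y.g ((x.l.am y.l).p2.π w)) ≤
          2 ^ (η' * (S.F k).n)) := by
      apply FSp.pb_mono
      intro w hw h3 h4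
      apply h3
      have e1 : (x.jj y).l.p.π w = y.l.p.π ((x.l.am y.l).p2.π w) := x.jj_supp y w hw
      rw [e1]
      refine le_trans h4 ?_
      apply Real.rpow_le_rpow_of_exponent_le (by norm_num)
      nlinarith
    have h5 := hy.2.2.1
    linarith

theorem Gau.Adc.jj {A : κ → Part S} {x y : ∀ k, FD (S.F k) ι} (hx : Φ.Adc A x) (hy : Φ.Adc A y) :
    Φ.Adc A (fun k => (x k).jj (y k)) := by
  intro η hη
  have h2 : 0 < η / 2 := by linarith
  filter_upwards [hx _ h2, hy _ h2] with k a b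
  have := Gau.Admc.jj Φ h2.le h2.le a b
  rwa [add_halves] at this

/-- an optimal form dominates the forms of all other labels, in the join -/
theorem Gau.Optc.dom {A : κ → Part S} {x y : ∀ k, FD (S.F k) ι} (hx : Φ.Optc A x) (hy : Φ.Adc A y) (e : ℝ)
    (he : 0 < e) : Tendsto (fun k => ((x k).jj (y k)).l.T.pb (fun w =>
      ¬ ∀ v, qf (((x k).jj (y k)).g' w) v ≤ 2 ^ (e * (S.F k).n) * qf (((x k).jj (y k)).g w) v)) UF (𝓝 0) := by
  apply Φ.opt_nearc (Gau.Adc.jj Φ hx.1 hy)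
  · intro z hz
    have h1 : (fun k => ((x k).jj (y k)).sc / (S.F k).n) = fun k => (x k).sc / (S.F k).n := by
      funext k
      rw [(x k).jj_sc (y k)]
    rw [h1]
    exact hx.2 z hz
  · exact he

/-- transfer of lower bounds of monotone functionals to the optimal form -/
theorem Gau.Optc.lower {A : κ → Part S} {x y : ∀ k, FD (S.F k) ι} (hx : Φ.Optc A x) (hy : Φ.Adc A y)
    (G : ∀ k, (S.F k).Ω → Matrix ι ι ℝ → ℝ)
    (hG : ∀ k ω M N (c : ℝ), 0 ≤ c → (∀ v, qf M v ≤ c * qf N v) → G k ω M ≤ c * G k ω N)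
    (σ : ℝ) (hσ : ∀ e : ℝ, 0 < e → Tendsto (fun k => (y k).l.T.pb (fun ω =>
      ¬ 2 ^ ((σ - e) * (S.F k).n) ≤ G k ((y k).l.p.π ω) ((y k).g ω))) UF (𝓝 0)) (e : ℝ) (he : 0 < e) :
    Tendsto (fun k => (x k).l.T.pb (fun ω =>
      ¬ 2 ^ ((σ - e) * (S.F k).n) ≤ G k ((x k).l.p.π ω) ((x k).g ω))) UF (𝓝 0) := by
  have h2 : 0 < e / 2 := by linarith
  have h3 := (Gau.Optc.dom Φ hx hy _ h2).add (hσ _ h2)
  rw [add_zero] at h3
  refine tendsto_of_tendsto_of_tendsto_of_le_of_le tendsto_const_nhds h3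
    (fun k => (x k).l.T.pb_nonneg _) (fun k => ?_)
  have h4 := pb_push ((x k).l.am (y k).l).p1 (fun ω =>
      ¬ 2 ^ ((σ - e) * (S.F k).n) ≤ G k ((x k).l.p.π ω) ((x k).g ω))
  have h5 := pb_push ((x k).l.am (y k).l).p2 (fun ω =>
      ¬ 2 ^ ((σ - e / 2) * (S.F k).n) ≤ G k ((y k).l.p.π ω) ((y k).g ω))
  show _ ≤ ((x k).jj (y k)).l.T.pb _ + _
  rw [← h4, ← h5]
  refine le_trans (FSp.pb_mono _ (E' := fun w : ((x k).l.am (y k).l).sp.Ω =>
    (¬ ∀ v, qf (((x k).jj (y k)).g' w) v ≤ 2 ^ (e / 2 * (S.F k).n) * qf (((x k).jj (y k)).g w) v) ∨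
    ¬ 2 ^ ((σ - e / 2) * (S.F k).n) ≤ G k ((y k).l.p.π (((x k).l.am (y k).l).p2.π w))
      ((y k).g (((x k).l.am (y k).l).p2.π w))) ?_) (pb_or _ _ _)
  intro w hw h6
  by_contra hc
  rw [not_or, not_not, not_not] at hc
  apply h6
  have e1 : (x k).l.p.π (((x k).l.am (y k).l).p1.π w) = (y k).l.p.π (((x k).l.am (y k).l).p2.π w) :=
    (x k).jj_supp (y k) w hw
  have h7 := hG k ((x k).l.p.π (((x k).l.am (y k).l).p1.π w)) _ _ _ (by positivity) hc.1
  have h8 := hc.2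
  rw [← e1] at h8
  have h9 : (2 : ℝ) ^ ((σ - e / 2) * (S.F k).n) ≤ 2 ^ (e / 2 * (S.F k).n) *
      G k ((x k).l.p.π (((x k).l.am (y k).l).p1.π w)) ((x k).g (((x k).l.am (y k).l).p1.π w)) := h8.trans h7
  have e2 : (2 : ℝ) ^ ((σ - e / 2) * (S.F k).n) = 2 ^ (e / 2 * (S.F k).n) * 2 ^ ((σ - e) * (S.F k).n) := by
    rw [← Real.rpow_add (by norm_num)]
    congr 1; ring
  rw [e2] at h9
  exact le_of_mul_le_mul_left h9 (by positivity)

/-! ### comparison with finite families -/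

theorem Gau.Adc.fm {A : κ → Part S} {x : ∀ k, FD (S.F k) ι} (hx : Φ.Adc A x) : Φ.Fm x :=
  fun η hη => (hx η hη).mono fun _ hk => hk.2

/-- ADMISSIBLE = the label has no leak + the conditions on the forms -/
theorem Gau.Adc_iff {A : κ → Part S} {x : ∀ k, FD (S.F k) ι} :
    Φ.Adc A x ↔ Lab.DMf (fun k => (x k).l) A ∧ Φ.Fm x := by
  constructor
  · intro hx
    exact ⟨Gau.Adc.dm Φ hx, Gau.Adc.fm Φ hx⟩
  · rintro ⟨h1, h2⟩ η hη
    filter_upwards [leak_evc h1 hη, h2 η hη] with k a b using ⟨a, b⟩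

/-- for finite families the two notions agree -/
theorem Gau.Adc_iff_Adf [Finite κ] {A : κ → Part S} {x : ∀ k, FD (S.F k) ι} : Φ.Adc A x ↔ Φ.Adf A x :=
  (Gau.Adc_iff Φ).trans Gau.Adf_iff.symm

theorem Gau.Optc_iff_Optf [Finite κ] {A : κ → Part S} {x : ∀ k, FD (S.F k) ι} : Φ.Optc A x ↔ Φ.Optf A x := by
  unfold Gau.Optc Gau.Optf
  simp only [Gau.Adc_iff_Adf]

/-- fewer conditions: more admissible forms -/
theorem Gau.Adc.sub {κ' : Type} [Encodable κ'] {A : κ → Part S} {A' : κ' → Part S} {x : ∀ k, FD (S.F k) ι}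
    (hx : Φ.Adc A x) (h : Lab.DMf (fun k => (x k).l) A → Lab.DMf (fun k => (x k).l) A') : Φ.Adc A' x :=
  Φ.Adc_iff.mpr ⟨h (Φ.Adc_iff.mp hx).1, (Φ.Adc_iff.mp hx).2⟩

/-- maximal labels with the same conditions -/
theorem Gau.Optc.congr {κ' : Type} [Encodable κ'] {A : κ → Part S} {A' : κ' → Part S}
    (h : ∀ l : Lab S, l.DMf A ↔ l.DMf A') {x : ∀ k, FD (S.F k) ι} (hx : Φ.Optc A x) : Φ.Optc A' x :=
  ⟨Gau.Adc.sub Φ hx.1 (h _).mp, fun y hy => hx.2 y (Gau.Adc.sub Φ hy (h _).mpr)⟩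

/-- the same scale: an admissible form with the value of an optimal form is optimal -/
theorem Gau.Optc.of_sc {A : κ → Part S} {x y : ∀ k, FD (S.F k) ι} (hx : Φ.Optc A x) (hy : Φ.Adc A y)
    (h : ul (fun k => (x k).sc / (S.F k).n) ≤ ul (fun k => (y k).sc / (S.F k).n)) : Φ.Optc A y :=
  ⟨hy, fun z hz => (hx.2 z hz).trans h⟩

/-- CONTINUITY IN THE FAMILY: forms `x j` admissible for the conditions `i` with `encode i ≤ j + 1` have an
admissible diagonal for all the conditions; properties `P j` pass to the diagonal -/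
theorem Gau.diag_fam (A : κ → Part S) (x : ℕ → ∀ k, FD (S.F k) ι) (P : ℕ → ∀ k, FD (S.F k) ι → Prop)
    (hx : ∀ j : ℕ, (∀ i : κ, Encodable.encode i ≤ j + 1 → Nul S (fun k => (x j k).l.leak (A i k))) ∧
      Φ.Fm (x j) ∧ ∀ᶠ k in UF, P j k (x j k)) :
    ∃ (y : ∀ k, FD (S.F k) ι) (J : ℕ → ℕ), Tendsto J UF atTop ∧ Φ.Adc A y ∧ ∀ᶠ k in UF, P (J k) k (y k) := by
  apply Φ.diagc A x P
  intro j
  have hj : (0 : ℝ) < 1 / ((j : ℝ) + 1) := by positivity
  obtain ⟨h1, h2, h3⟩ := hx j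
  have h5 : {i : κ | Encodable.encode i ≤ j + 1}.Finite :=
    ((Set.finite_Iic (j + 1)).preimage (Encodable.encode_injective.injOn)).subset fun i hi => hi
  have h6 := (Filter.eventually_all_finite h5).mpr fun i (hi : i ∈ {i : κ | Encodable.encode i ≤ j + 1}) =>
    ((h1 i hi).eventually (gt_mem_nhds hj))
  filter_upwards [h6, h2 _ hj, h3] with k a b c
  refine ⟨⟨fun i hi => ?_, b⟩, c⟩
  have hi' : Encodable.encode i ≤ j + 1 := by
    have h7 : (Encodable.encode i : ℝ) * (1 / ((j : ℝ) + 1)) ≤ 1 := hi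
    rw [mul_one_div, div_le_one (by positivity)] at h7
    exact_mod_cast h7
  have := a i hi'
  rw [div_lt_iff₀ (S.F k).pos] at this
  exact this.le

end

end Pool.Agent.Helper89.LX
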