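import Pool.Agent.Helper49.MD.Cstc
import Pool.Agent.Helper84.MT.Fun

/-! LABELS OF SMALLER FAMILIES OF CONDITIONS: comparison of the conditional entropies over two labels by their
informations; the numbers of a countable family of conditions are the limits of the numbers of its finite
subfamilies. -/

set_option autoImplicit false

namespace Pool.Agent.Helper49.MD

open Finset Filter Topology Pool.Agent.Helper69.RK Pool.Agent.Helper31.EC Pool.Agent.Helper31.EC.Sp
open Pool.Agent.Helper40.EL

noncomputable section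

/-! ### finite labels -/

section
variable {F : FSp}

theorem join_info_r (l l' : FLab F) : (l.join l').info = l'.info + I ((l.am l').p1.map l.v)
    ((l.am l').p1.map l.p.top) ((l.am l').p2.map l'.v) := by
  rw [FLab.join_info_def, sup_comm ((l.am l').p1.map l.v), I_chain, sup_bot_eq]
  have h1 := (l.am l').p2.I_map l'.v l'.p.top ⊥
  rw [(l.am l').p2.map_bot, ← FLab.am_top] at h1
  rw [h1]
  rfl

theorem h_join_eq (l l' : FLab F) (x : FL F) : h ((l.join l').p.map x) (l.join l').v =
    h ((l.am l').p1.map (l.p.map x)) ((l.am l').p1.map l.v ⊔ (l.am l').p2.map l'.v) := by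
  rw [FLab.join_v, FLab.join_map]
  rfl

/-- the entropy over a label and over the join with another label -/
theorem h_join_le (l l' : FLab F) (x : FL F) :
    h (l.p.map x) l.v ≤ h ((l.join l').p.map x) (l.join l').v + ((l.join l').info - l.info) := by
  rw [FLab.join_info, h_join_eq, ← (l.am l').p1.h_map (l.p.map x) l.v]
  have h1 : I ((l.am l').p2.map l'.v) ((l.am l').p1.map (l.p.map x)) ((l.am l').p1.map l.v) ≤
      I ((l.am l').p2.map l'.v) ((l.am l').p1.map l.p.top) ((l.am l').p1.map l.v) :=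
    I_mono_right (((l.am l').p1.map_mono (l.p.map_le_top x)).trans le_sup_left)
  have h2 := I_eq' ((l.am l').p2.map l'.v) ((l.am l').p1.map (l.p.map x)) ((l.am l').p1.map l.v)
  rw [sup_comm ((l.am l').p1.map l.v)]
  linarith

theorem h_join_le' (l l' : FLab F) (x : FL F) :
    h (l'.p.map x) l'.v ≤ h ((l.join l').p.map x) (l.join l').v + ((l.join l').info - l'.info) := by
  rw [join_info_r, h_join_eq, ← (l.am l').p2.h_map (l'.p.map x) l'.v, ← FLab.am_map]
  have h1 : I ((l.am l').p1.map l.v) ((l.am l').p1.map (l.p.map x)) ((l.am l').p2.map l'.v) ≤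
      I ((l.am l').p1.map l.v) ((l.am l').p1.map l.p.top) ((l.am l').p2.map l'.v) :=
    I_mono_right (((l.am l').p1.map_mono (l.p.map_le_top x)).trans le_sup_left)
  have h2 := I_eq' ((l.am l').p1.map l.v) ((l.am l').p1.map (l.p.map x)) ((l.am l').p2.map l'.v)
  linarith

theorem h_join_anti (l l' : FLab F) (x : FL F) : h ((l.join l').p.map x) (l.join l').v ≤ h (l.p.map x) l.v := by
  rw [h_join_eq, ← (l.am l').p1.h_map (l.p.map x) l.v]
  exact h_anti le_sup_left

theorem h_join_anti' (l l' : FLab F) (x : FL F) : h ((l.join l').p.map x) (l.join l').v ≤ h (l'.p.map x) l'.v := by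
  rw [h_join_eq, FLab.am_map, ← (l.am l').p2.h_map (l'.p.map x) l'.v]
  exact h_anti le_sup_right

end

/-! ### labels of a space -/

variable {S : Sp}

/-- the rate of the entropy of `X` over the label `l` -/
def hlr (l : Lab S) (X : Part S) : ℝ := ul (fun k => h ((l k).p.map (X k)) (l k).v / (S.F k).n)

theorem hlr_UB (l : Lab S) {X : Part S} (hX : X.Bd) : UB (fun k => h ((l k).p.map (X k)) (l k).v / (S.F k).n) := by
  refine UB.sandwich (UB_const 0) (hX.ub (fun _ => ⊥)) ?_ ?_
  · exact Eventually.of_forall fun k => div_nonneg (h_nonneg _ _) (S.F k).pos.le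
  · refine Eventually.of_forall fun k => div_le_div_of_nonneg_right ?_ (S.F k).pos.le
    rw [h_bot, ← (l k).p.H_map]
    exact h_le_H _ _

theorem hlr_tendsto (l : Lab S) {X : Part S} (hX : X.Bd) :
    Tendsto (fun k => h ((l k).p.map (X k)) (l k).v / (S.F k).n) UF (𝓝 (hlr l X)) := ul_tendsto (hlr_UB l hX)

theorem hlr_nonneg (l : Lab S) {X : Part S} (hX : X.Bd) : 0 ≤ hlr l X :=
  const_le_ul (hlr_UB l hX) (Eventually.of_forall fun _ => div_nonneg (h_nonneg _ _) (S.F _).pos.le)

/-- rates in the space over the label -/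
theorem H_up1_eq (l : Lab S) (x : S.L) : H (up1 l x) = hlr l (rp x) := by
  rw [Lab.H_upL, div_one]
  rfl

/-- the entropies over the join -/
theorem hlr_join_anti (l l' : Lab S) {X : Part S} (hX : X.Bd) : hlr (l.join l') X ≤ hlr l X :=
  ul_mono (hlr_UB _ hX) (hlr_UB _ hX) (Eventually.of_forall fun k =>
    div_le_div_of_nonneg_right (h_join_anti (l k) (l' k) (X k)) (S.F k).pos.le)

theorem hlr_join_anti' (l l' : Lab S) {X : Part S} (hX : X.Bd) : hlr (l.join l') X ≤ hlr l' X :=
  ul_mono (hlr_UB _ hX) (hlr_UB _ hX) (Eventually.of_forall fun k =>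
    div_le_div_of_nonneg_right (h_join_anti' (l k) (l' k) (X k)) (S.F k).pos.le)

theorem hlr_join_le (l l' : Lab S) {X : Part S} (hX : X.Bd)
    (hu1 : UB (fun k => ((l.join l') k).info / (S.F k).n)) (hu2 : UB (fun k => (l k).info / (S.F k).n)) :
    hlr l X ≤ hlr (l.join l') X + ((l.join l').info - l.info) := by
  unfold hlr Lab.info
  rw [← ul_sub hu1 hu2, ← ul_add (hlr_UB (l.join l') hX) (hu1.sub hu2)]
  refine ul_mono (hlr_UB _ hX) ((hlr_UB _ hX).add (hu1.sub hu2)) (Eventually.of_forall fun k => ?_)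
  rw [← sub_div, ← add_div]
  exact div_le_div_of_nonneg_right (h_join_le (l k) (l' k) (X k)) (S.F k).pos.le

theorem hlr_join_le' (l l' : Lab S) {X : Part S} (hX : X.Bd)
    (hu1 : UB (fun k => ((l.join l') k).info / (S.F k).n)) (hu2 : UB (fun k => (l' k).info / (S.F k).n)) :
    hlr l' X ≤ hlr (l.join l') X + ((l.join l').info - l'.info) := by
  unfold hlr Lab.info
  rw [← ul_sub hu1 hu2, ← ul_add (hlr_UB (l.join l') hX) (hu1.sub hu2)]
  refine ul_mono (hlr_UB _ hX) ((hlr_UB _ hX).add (hu1.sub hu2)) (Eventually.of_forall fun k => ?_)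
  rw [← sub_div, ← add_div]
  exact div_le_div_of_nonneg_right (h_join_le' (l k) (l' k) (X k)) (S.F k).pos.le

variable {κ : Type} {A : κ → Part S}

/-- a maximal label has the least entropies -/
theorem hlr_le_of_max {l l' : Lab S} (h : l.DMf A) (h' : l'.IsMaxf A) {i₀ : κ} (hA : (A i₀).Bd) {X : Part S}
    (hX : X.Bd) : hlr l' X ≤ hlr l X := by
  have hj : (l.join l').DMf A := h.join h'.1
  have h1 := hlr_join_le' l l' hX (hj.ub hA) (h'.1.ub hA)
  have h2 := hlr_join_anti l l' hX
  have h3 := h'.2 _ hj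
  linarith

/-- the entropies over a label and over a maximal label differ at most by the difference of the informations -/
theorem hlr_le_add_of_max {l l' : Lab S} (h : l.DMf A) (h' : l'.IsMaxf A) {i₀ : κ} (hA : (A i₀).Bd) {X : Part S}
    (hX : X.Bd) : hlr l X ≤ hlr l' X + (l'.info - l.info) := by
  have hj : (l.join l').DMf A := h.join h'.1
  have h1 := hlr_join_le l l' hX (hj.ub hA) (h.ub hA)
  have h2 := hlr_join_anti' l l' hX
  have h3 := h'.2 _ hj
  linarith

/-- the entropies over maximal labels are canonical -/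
theorem hlr_max_eq {l l' : Lab S} (h : l.IsMaxf A) (h' : l'.IsMaxf A) {i₀ : κ} (hA : (A i₀).Bd) {X : Part S}
    (hX : X.Bd) : hlr l X = hlr l' X := le_antisymm (hlr_le_of_max h'.1 h hA hX) (hlr_le_of_max h.1 h' hA hX)

theorem info_max_eq {l l' : Lab S} (h : l.IsMaxf A) (h' : l'.IsMaxf A) : l.info = l'.info :=
  le_antisymm (h'.2 _ h.1) (h.2 _ h'.1)

/-! ### finite subfamilies -/

/-- the families `f m` exhaust `κ` -/
def Exh {κ' : ℕ → Type} (f : ∀ m, κ' m → κ) : Prop := ∀ i, ∀ᶠ m in atTop, i ∈ Set.range (f m)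

theorem exh_val : Exh (κ' := fun m => Fin m) (fun m (i : Fin m) => (i : ℕ)) := by
  intro i
  filter_upwards [eventually_gt_atTop i] with m hm
  exact ⟨⟨i, hm⟩, rfl⟩

theorem Exh.option {κ' : ℕ → Type} {f : ∀ m, κ' m → κ} (hf : Exh f) :
    Exh (κ' := fun m => Option (κ' m)) (fun m i => i.map (f m)) := by
  intro i
  rcases i with _ | i
  · exact Eventually.of_forall fun m => ⟨none, rfl⟩
  · filter_upwards [hf i] with m hm
    obtain ⟨j, rfl⟩ := hm
    exact ⟨some j, rfl⟩

theorem Exh.all [Encodable κ] {κ' : ℕ → Type} {f : ∀ m, κ' m → κ} (hf : Exh f) (N : ℕ) :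
    ∀ᶠ m in atTop, ∀ i : κ, Encodable.encode i ≤ N → i ∈ Set.range (f m) := by
  have hfin : {i : κ | Encodable.encode i ≤ N}.Finite := by
    apply Set.Finite.of_finite_image (f := Encodable.encode) _ Encodable.encode_injective.injOn
    exact (Set.finite_Iic N).subset (by rintro x ⟨i, hi, rfl⟩; exact hi)
  exact (Filter.eventually_all_finite hfin).mpr fun i _ => hf i

variable {κ' : ℕ → Type} {f : ∀ m, κ' m → κ}

theorem IsMaxf.info_le_sub {l l' : Lab S} (h : l.IsMaxf A) {κ'' : Type} {f : κ'' → κ}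
    (h' : l'.IsMaxf (fun i => A (f i))) : l.info ≤ l'.info := h'.2 _ (h.1.sub f)

/-- THE INFORMATION of the maximal labels is the limit of the informations of the maximal labels of the subfamilies -/
theorem tendsto_info [Encodable κ] (hf : Exh f) {l : Lab S} (hl : l.IsMaxf A) {lm : ℕ → Lab S}
    (hlm : ∀ m, (lm m).IsMaxf (fun i => A (f m i))) {i₀ : κ} (hA : (A i₀).Bd) :
    Tendsto (fun m => (lm m).info) atTop (𝓝 l.info) := by
  have h0 : ∀ m, l.info ≤ (lm m).info := fun m => IsMaxf.info_le_sub hl (hlm m)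
  rw [Metric.tendsto_nhds]
  intro ε hε
  by_contra hcon
  rw [Filter.not_eventually] at hcon
  have hfr : ∃ᶠ m in atTop, l.info + ε ≤ (lm m).info := by
    refine hcon.mono fun m hm => ?_
    rw [Real.dist_eq, abs_of_nonneg (sub_nonneg.mpr (h0 m)), not_lt] at hm
    linarith
  have hex : ∀ j : ℕ, ∃ m, l.info + ε ≤ (lm m).info ∧ (∀ i : κ, Encodable.encode i ≤ j → i ∈ Set.range (f m)) ∧
      i₀ ∈ Set.range (f m) := by
    intro j
    obtain ⟨m, h1, h2, h3⟩ := (hfr.and_eventually ((hf.all j).and (hf i₀))).exists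
    exact ⟨m, h1, h2, h3⟩
  choose m hm using hex
  obtain ⟨y, hy1, hy2⟩ := Lab.approxf hA (fun j => lm (m j)) (fun j => 1 / ((j : ℝ) + 1))
    tendsto_one_div_add_atTop_nhds_zero_nat (l.info + ε) (by
      intro i
      filter_upwards [eventually_ge_atTop (Encodable.encode i)] with j hj
      obtain ⟨a, rfl⟩ := (hm j).2.1 i hj
      have h1 := (hlm (m j)).1 a
      exact (h1.eventually (gt_mem_nhds (show (0 : ℝ) < 1 / ((j : ℝ) + 1) by positivity))).mono fun k hk => hk.le) (by
      intro j
      obtain ⟨a, ha⟩ := (hm j).2.2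
      have hA' : ((fun i => A (f (m j) i)) a).Bd := by
        show (A (f (m j) a)).Bd
        rw [ha]
        exact hA
      have h1 := ul_tendsto ((hlm (m j)).1.ub hA')
      have h2 : l.info + ε - 1 / ((j : ℝ) + 1) < (lm (m j)).info := by
        have : (0 : ℝ) < 1 / ((j : ℝ) + 1) := by positivity
        linarith [(hm j).1]
      exact (h1.eventually (lt_mem_nhds h2)).mono fun k hk => hk.le)
  have := hl.2 y hy1
  linarith

/-- THE ENTROPIES over the maximal labels are the limits of the entropies over the maximal labels of the subfamilies -/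
theorem tendsto_hlr [Encodable κ] (hf : Exh f) {l : Lab S} (hl : l.IsMaxf A) {lm : ℕ → Lab S}
    (hlm : ∀ m, (lm m).IsMaxf (fun i => A (f m i))) {i₀ : κ} (hA : (A i₀).Bd) {X : Part S} (hX : X.Bd) :
    Tendsto (fun m => hlr (lm m) X) atTop (𝓝 (hlr l X)) := by
  have h1 := tendsto_info hf hl hlm hA
  have h2 : Tendsto (fun m => hlr l X - ((lm m).info - l.info)) atTop (𝓝 (hlr l X - (l.info - l.info))) :=
    tendsto_const_nhds.sub (h1.sub tendsto_const_nhds)
  rw [sub_self, sub_zero] at h2
  refine tendsto_of_tendsto_of_tendsto_of_le_of_le' h2 tendsto_const_nhds ?_ ?_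
  · filter_upwards [hf i₀] with m hm
    obtain ⟨a, ha⟩ := hm
    have hA' : ((fun i => A (f m i)) a).Bd := by
      show (A (f m a)).Bd
      rw [ha]
      exact hA
    have := hlr_le_add_of_max (hl.1.sub (f m)) (hlm m) hA' hX
    linarith
  · filter_upwards [hf i₀] with m hm
    obtain ⟨a, ha⟩ := hm
    have hA' : ((fun i => A (f m i)) a).Bd := by
      show (A (f m a)).Bd
      rw [ha]
      exact hA
    exact hlr_le_of_max (hl.1.sub (f m)) (hlm m) hA' hX

/-- more conditions: larger entropies over the maximal label -/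
theorem hlr_sub_le {l l' : Lab S} (h : l.IsMaxf A) {κ'' : Type} {f : κ'' → κ} (h' : l'.IsMaxf (fun i => A (f i)))
    {a : κ''} (hA : (A (f a)).Bd) {X : Part S} (hX : X.Bd) : hlr l' X ≤ hlr l X :=
  hlr_le_of_max (A := fun i => A (f i)) (h.1.sub f) h' (i₀ := a) hA hX

end

end Pool.Agent.Helper49.MD
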