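import Pool.Agent.Helper89.MG.Cms
import Pool.Agent.Helper49.MD.Canc

/-! THEOREM COST over a canonical form of a COUNTABLE family of conditions (port of Helper89/MG/{Csf,Cms}). -/

set_option autoImplicit false

namespace Pool.Agent.Helper89.LX

open Finset Filter Topology Matrix Pool.Agent.Helper69.RK Pool.Agent.Helper31.EC Pool.Agent.Helper40.EL
open Pool.Agent.Helper48.NS Pool.Agent.Helper59.LF
open Pool.Agent.Helper95.LF (PdM)

noncomputable section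

variable {ι : Type} [Fintype ι] [DecidableEq ι] {S : Sp} {Φ : Gau S ι} {x : ∀ k, FD (S.F k) ι}
  {y : ∀ k, CL ((Ov x).F k) (ι → ℝ)} {κ : Type}

/-- admissible -/
theorem nw_Adc [Encodable κ] {A : κ → Part S} (hsm : Gau.Hom Φ) (D : ℝ) (hD : 0 ≤ D) (hx : Φ.Adc A x)
    (hG : ∀ᶠ k in UF, (y k).Good (GdC x k))
    (hy : Lab.DMf (S := Ov x) (fun k => (y k).l) (fun i => Lab.up (fun k => (x k).l) 1 one_pos (A i))) :
    Φ.Adc A (nw Φ x y D) :=
  (Gau.Adc_iff Φ).mpr ⟨nw_DMf Φ x y D hD (Gau.Adc.dm Φ hx) hy,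
    (nw_Adf (y := y) (A := fun i : Empty => i.elim) hsm D hD (Gau.Adf_iff.mpr ⟨fun i => i.elim, Gau.Adc.fm Φ hx⟩) hG
      (fun i => i.elim)).fm⟩

/-- an optimal form leaves no gain -/
theorem no_gainc [Encodable κ] {A : κ → Part S} (hsm : Gau.Hom Φ) (D : ℝ) (hD : 0 ≤ D) (hx : Φ.Optc A x)
    (hG : ∀ᶠ k in UF, (y k).Good (GdC x k))
    (hy : Lab.DMf (S := Ov x) (fun k => (y k).l) (fun i => Lab.up (fun k => (x k).l) 1 one_pos (A i)))
    (θ : ℝ) (hθ : 0 < θ) (hE : ∀ᶠ k in UF, θ ≤ (y k).E (fex Φ x D k)) : False := by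
  classical
  have hAd := nw_Adc (y := y) hsm D hD hx.1 hG hy
  have hopt := hx.2 _ hAd
  set η : ℝ := min (1 / 2) (θ / (4 * (D + 1))) with hη
  have hη0 : 0 < η := lt_min (by norm_num) (by positivity)
  have hη1 : η ≤ 1 / 2 := min_le_left _ _
  have hη2 : D * η ≤ θ / 4 := by
    have h1 : η ≤ θ / (4 * (D + 1)) := min_le_right _ _
    have h2 : D * η ≤ (D + 1) * (θ / (4 * (D + 1))) := by nlinarith
    have h3 : (D + 1) * (θ / (4 * (D + 1))) = θ / 4 := by field_simp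
    linarith
  have hnk : ∀ᶠ k in UF, (4 / θ + 2 : ℝ) ≤ (S.F k).n := S.lim.eventually (eventually_ge_atTop _)
  have hgain : ∀ᶠ k in UF, (x k).sc / (S.F k).n + θ ≤ (nw Φ x y D k).sc / (S.F k).n := by
    filter_upwards [hx.1 η hη0, hG, hE, Φ.cap, hnk] with k hk hGk hEk hcap hnk
    have hn := (S.F k).pos
    have h4θ : 0 < 4 / θ := by positivity
    have h1 := nw_sc (Φ := Φ) (x := x) (y := y) D hD k (fun ω h => (hk.2.1 ω h).1) hGk
    have h2 : (y k).l.T.pb (fun ω => ¬ Cpd (Φ.cp k) (g1 Φ x y D k ω)) ≤ η := by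
      have h3 : (y k).l.T.pb (fun ω => ¬ Cpd (Φ.cp k) (g1 Φ x y D k ω)) ≤
          (y k).l.T.pb (fun ω => ¬ Φ.φ k ((x k).l.p.π ((y k).l.p.π ω)) ((x k).g ((y k).l.p.π ω)) ≤
            2 ^ (η * (S.F k).n)) := by
        apply FSp.pb_mono
        intro ω h0 h3 h4
        apply h3
        have a1 : (x k).l.T.μ ((y k).l.p.π ω) ≠ 0 := (y k).l.p.supp ω h0
        apply g1_cpd hsm D hD k ω (fun A hA v => hcap _ ((x k).l.p.supp _ a1) A hA v) (by linarith)
          (hk.2.1 _ a1).1 (hGk ω h0)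
        refine h4.trans (Real.rpow_le_rpow_of_exponent_le (by norm_num) ?_)
        exact mul_le_mul_of_nonneg_right hη1 hn.le
      have h6 := pb_y (y := y) k (fun ω => ¬ Φ.φ k ((x k).l.p.π ω) ((x k).g ω) ≤ 2 ^ (η * (S.F k).n))
      have h7 := hk.2.2.1
      linarith
    rw [← sub_nonneg]
    have e1 : (nw Φ x y D k).sc / (S.F k).n - ((x k).sc / (S.F k).n + θ) =
        ((nw Φ x y D k).sc - (x k).sc - θ * (S.F k).n) / (S.F k).n := by
      field_simp
      ring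
    rw [e1]
    apply div_nonneg _ hn.le
    have h8 : (S.F k).n * D * (y k).l.T.pb (fun ω => ¬ Cpd (Φ.cp k) (g1 Φ x y D k ω)) ≤ (S.F k).n * (θ / 4) := by
      have a1 : D * (y k).l.T.pb (fun ω => ¬ Cpd (Φ.cp k) (g1 Φ x y D k ω)) ≤ θ / 4 :=
        (mul_le_mul_of_nonneg_left h2 hD).trans hη2
      calc _ = (S.F k).n * (D * (y k).l.T.pb (fun ω => ¬ Cpd (Φ.cp k) (g1 Φ x y D k ω))) := by ring
        _ ≤ _ := mul_le_mul_of_nonneg_left a1 hn.le
    have h9 : (S.F k).n * θ ≤ (S.F k).n * (y k).E (fex Φ x D k) := mul_le_mul_of_nonneg_left hEk hn.le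
    have h10 : 4 ≤ θ * (S.F k).n := by
      have : 4 / θ ≤ (S.F k).n := by linarith
      rw [div_le_iff₀ hθ] at this
      linarith
    nlinarith
  have h1 := ul_mono ((Φ.sc_UBc hx.1).add (UB_const θ)) (Φ.sc_UBc hAd) hgain
  rw [ul_add (Φ.sc_UBc hx.1) (UB_const θ), ul_const] at h1
  linarith

/-- THEOREM COST, abstract form, families: the resampling steps are done for a family `B` of conditions of the space over
the label, such that labels without leak for `B` have no leak for `A` -/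
theorem costc [Encodable κ] {A : κ → Part S} {i₀ : κ} (hA : (A i₀).Bd) (hsm : Gau.Hom Φ) (D : ℝ) (hD : 0 ≤ D)
    (hx : Φ.Optc A x) (hκ : Lab.IsMaxf (fun k => (x k).l) A) {κ' : Type} (B : κ' → Part (Ov x))
    (hBA : ∀ z : Lab (Ov x), z.DMf B → z.DMf (fun i => Lab.up (fun k => (x k).l) 1 one_pos (A i)))
    (CA : ℝ) (hCA : 0 ≤ CA) (Cp : κ' → ℝ) (hCp : ∀ i, Cp i ≤ CA) (ε : κ' → ℕ → ℝ) (hε : ∀ i, Tendsto (ε i) UF (𝓝 0))
    (sA : ∀ i, ∀ᶠ k in UF, ∀ z : CL ((Ov x).F k) (ι → ℝ), z.Good (GdC x k) →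
      z.E (fex Φ x D k) - Cp i * (z.l.leak (B i k) / ((Ov x).F k).n) - ε i k ≤ (z.rs (B i k)).E (fex Φ x D k))
    (y₀ : ∀ k, CL ((Ov x).F k) (ι → ℝ)) (h₀ : ∀ᶠ k in UF, (y₀ k).Good (GdC x k))
    (hU : UB (fun k => (y₀ k).l.info / ((Ov x).F k).n)) :
    ul (fun k => (y₀ k).E (fex Φ x D k)) ≤ CA * ul (fun k => (y₀ k).l.info / ((Ov x).F k).n) := by
  by_contra hcon
  rw [not_le] at hcon
  have hf0 : ∀ k (ω : ((Ov x).F k).Ω) (c : ι → ℝ), 0 ≤ fex Φ x D k ω c := fun k ω c => ex_nonneg (S.F k).pos hD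
  have hf1 : ∀ k (ω : ((Ov x).F k).Ω) (c : ι → ℝ), fex Φ x D k ω c ≤ D := fun k ω c => ex_le (S.F k).pos
  have hUE : UB (fun k => (y₀ k).E (fex Φ x D k)) := by
    apply UB_of_nonneg_le (C := D)
    · exact Eventually.of_forall fun k => (y₀ k).E_nonneg _ (hf0 k)
    · exact Eventually.of_forall fun k => (y₀ k).E_le _ _ (hf1 k)
  set e := ul (fun k => (y₀ k).E (fex Φ x D k)) with he
  set i := ul (fun k => (y₀ k).l.info / ((Ov x).F k).n) with hi
  have hi0 : 0 ≤ i := const_le_ul hU (Eventually.of_forall fun k =>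
    div_nonneg (FLab.info_nonneg _) ((Ov x).F k).pos.le)
  set θ : ℝ := e - CA * i with hθ
  have hθ0 : 0 < θ := by rw [hθ]; linarith
  set C : ℝ := CA + θ / (2 * (i + 1)) with hC
  have hC1 : CA < C := by
    have : 0 < θ / (2 * (i + 1)) := by positivity
    rw [hC]; linarith
  have hC2 : C * i ≤ CA * i + θ / 2 := by
    have h1 : θ / (2 * (i + 1)) * i ≤ θ / 2 := by
      rw [div_mul_eq_mul_div, div_le_div_iff₀ (by positivity) (by norm_num)]
      nlinarith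
    rw [hC]; nlinarith
  obtain ⟨y, hy1, hy2, hy3, hy4⟩ := varif (Ov x) (ι → ℝ) B
    (GdC x) (fun k ω ω' c h1 h2 hZ h => GdC_inv x k ω ω' c h1 h2 hZ h)
    (fex Φ x D) D hf1
    (fun z hz => (Lab.nul_over (fun k => (x k).l) 1 one_pos).mpr (Lab.IsMaxf.triv hκ hA z (hBA z hz)))
    Cp C (by linarith) (fun i => (hCp i).trans_lt hC1) ε hε sA y₀ h₀
  apply no_gainc (y := y) hsm D hD hx hy1 (hBA _ hy2) (θ / 4) (by linarith)
  have hlim : Tendsto (fun k => (y₀ k).E (fex Φ x D k) - C * ((y₀ k).l.info / ((Ov x).F k).n)) UF (𝓝 (e - C * i)) :=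
    (ul_tendsto hUE).sub ((ul_tendsto hU).const_mul C)
  have h5 : θ / 4 < e - C * i := by rw [hθ] at *; linarith
  filter_upwards [hy4, hlim.eventually (lt_mem_nhds h5)] with k a b
  linarith

end

end Pool.Agent.Helper89.LX
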