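import Pool.Agent.Helper31.EC.RobS

/-! GENERIC DIAGONALS AND ROBUST OBJECTS. A KIND is a type of finite data over finite spaces, with restrictions to
events of extensions; an OBJECT over a space of the exact calculus is a sequence of finite data. Diagonals of objects;
classes closed under diagonals and restrictions; functionals; rigid subclasses; classes of minimisers.
(Port of Helper31/EC/Rob and Helper52/{KP,SL}: nothing depends on the definition of a system.) -/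

set_option autoImplicit false

namespace Pool.Agent.Helper49.MD

open Finset Filter Topology Pool.Agent.Helper69.RK Pool.Agent.Helper31.EC Pool.Agent.Helper31.EC.Sp
open Pool.Agent.Helper40.EL

noncomputable section

/-- a KIND of finite data -/
structure FK where
  X : FSp → Type
  im : ∀ {F T : FSp} (p : FPj T F) (E : T.Ω → Prop), X F → X (FSp.im p E)

/-- the OBJECTS of a kind over a space -/
def FK.Ob (K : FK) (S : Sp) : Type := ∀ k, K.X (S.F k)

/-- restriction of an object to an event of an extension -/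
def FK.imo (K : FK) {S T : Sp} (x : K.Ob S) (p : Pj T S) (E : ∀ k, (T.F k).Ω → Prop) : K.Ob (Sp.im p E) :=
  fun k => K.im (p.fp k) (E k) (x k)

/-- the diagonal of a sequence of objects -/
def FK.dgo (K : FK) (S : ℕ → Sp) (x : ∀ j, K.Ob (S j)) (J : ℕ → ℕ)
    (h : Tendsto (fun k => ((S (J k)).F k).n) UF atTop) : K.Ob (dsp S J h) := fun k => x (J k) k

/-- `J` is slow for the conditions `E` -/
structure Slo (S : ℕ → Sp) (E : ℕ → ℕ → ℕ → Prop) (J : ℕ → ℕ) : Prop where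
  tend : Tendsto J UF atTop
  lim : Tendsto (fun k => ((S (J k)).F k).n) UF atTop
  slow : ∀ i, ∀ᶠ k in UF, E i (J k) k

theorem exists_slo (S : ℕ → Sp) (E : ℕ → ℕ → ℕ → Prop) (hE : ∀ i j, ∀ᶠ k in UF, E i j k) : ∃ J, Slo S E J := by
  have h1 : ∀ j : ℕ, ∀ᶠ k in UF, (j : ℝ) ≤ ((S j).F k).n ∧ ∀ i ∈ Finset.range (j + 1), E i j k := fun j =>
    ((S j).lim.eventually (eventually_ge_atTop (j : ℝ))).and ((Finset.eventually_all _).mpr fun i _ => hE i j)
  obtain ⟨J, hJ, hJ2⟩ := dia (fun j k => (j : ℝ) ≤ ((S j).F k).n ∧ ∀ i ∈ Finset.range (j + 1), E i j k) h1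
  refine ⟨J, hJ, ?_, fun i => ?_⟩
  · rw [tendsto_atTop]
    intro M
    filter_upwards [hJ2, hJ.eventually (eventually_ge_atTop ⌈M⌉₊)] with k a b
    have h1 : M ≤ (J k : ℝ) := (Nat.le_ceil M).trans (by exact_mod_cast b)
    exact h1.trans (a (J k) le_rfl).1
  · filter_upwards [hJ2, hJ.eventually (eventually_ge_atTop i)] with k a b
    exact (a (J k) le_rfl).2 i (Finset.mem_range.mpr (by omega))

namespace Slo

variable {S : ℕ → Sp} {E E' : ℕ → ℕ → ℕ → Prop} {J : ℕ → ℕ}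

theorem mono (h : Slo S E J) (he : ∀ i, ∀ᶠ k in UF, E i (J k) k → E' i (J k) k) : Slo S E' J :=
  ⟨h.tend, h.lim, fun i => by filter_upwards [h.slow i, he i] with k a b using b a⟩

theorem left (h : Slo S (fun i j k => E i j k ∧ E' i j k) J) : Slo S E J :=
  ⟨h.tend, h.lim, fun i => (h.slow i).mono fun _ hk => hk.1⟩

theorem right (h : Slo S (fun i j k => E i j k ∧ E' i j k) J) : Slo S E' J :=
  ⟨h.tend, h.lim, fun i => (h.slow i).mono fun _ hk => hk.2⟩

/-- conditions which depend on a parameter -/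
theorem prm {E : ℕ → ℕ → ℕ → ℕ → Prop} (h : Slo S (fun i j k => E (Nat.unpair i).1 (Nat.unpair i).2 j k) J) (q : ℕ) :
    Slo S (E q) J :=
  ⟨h.tend, h.lim, fun i => by
    have h2 := h.slow (Nat.pair q i)
    simp only [Nat.unpair_pair] at h2
    exact h2⟩

end Slo

/-- 1/(J+1) → 0 -/
theorem inv_tendsto {J : ℕ → ℕ} (hJ : Tendsto J UF atTop) : Tendsto (fun k => 1 / ((J k : ℝ) + 1)) UF (𝓝 0) :=
  tendsto_one_div_add_atTop_nhds_zero_nat.comp hJ

variable {K : FK}

/-- predicates on objects -/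
abbrev FK.Pd (K : FK) : Type 1 := ∀ S : Sp, K.Ob S → Prop

/-- `C'` holds for the (slow) diagonals of sequences of objects with the properties `C j` -/
def DiagTo (C : ℕ → K.Pd) (C' : K.Pd) : Prop :=
  ∀ (S : ℕ → Sp) (x : ∀ j, K.Ob (S j)), (∀ j, C j (S j) (x j)) →
    ∃ E : ℕ → ℕ → ℕ → Prop, (∀ i j, ∀ᶠ k in UF, E i j k) ∧
      ∀ (J : ℕ → ℕ) (h : Slo S E J), C' _ (K.dgo S x J h.lim)

/-- predicates closed under (slow) diagonals -/
def DiagCl (C : K.Pd) : Prop := DiagTo (fun _ => C) C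

/-- functionals which are usc along diagonals, in a class -/
def DiagUsc (C : K.Pd) (f : ∀ S : Sp, K.Ob S → ℝ) : Prop :=
  ∀ (S : ℕ → Sp) (x : ∀ j, K.Ob (S j)), (∀ j, C (S j) (x j)) →
    ∃ E : ℕ → ℕ → ℕ → Prop, (∀ i j, ∀ᶠ k in UF, E i j k) ∧
      ∀ (J : ℕ → ℕ) (h : Slo S E J), ul (fun k => f (S (J k)) (x (J k))) ≤ f _ (K.dgo S x J h.lim)

/-- functionals which are lsc along diagonals, in a class; only sequences with bounded values are considered -/
def DiagLsc (C : K.Pd) (f : ∀ S : Sp, K.Ob S → ℝ) : Prop :=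
  ∀ (S : ℕ → Sp) (x : ∀ j, K.Ob (S j)), (∀ j, C (S j) (x j)) →
    ∃ E : ℕ → ℕ → ℕ → Prop, (∀ i j, ∀ᶠ k in UF, E i j k) ∧
      ∀ (J : ℕ → ℕ) (h : Slo S E J) (M : ℝ), (∀ k, f (S (J k)) (x (J k)) ≤ M) →
        f _ (K.dgo S x J h.lim) ≤ ul (fun k => f (S (J k)) (x (J k)))

theorem DiagTo.and {C₁ C₂ : ℕ → K.Pd} {C₁' C₂' : K.Pd} (h : DiagTo C₁ C₁') (h' : DiagTo C₂ C₂') :
    DiagTo (fun j S x => C₁ j S x ∧ C₂ j S x) (fun S x => C₁' S x ∧ C₂' S x) := by
  intro S x hx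
  obtain ⟨E, hE, h1⟩ := h S x fun j => (hx j).1
  obtain ⟨E', hE', h1'⟩ := h' S x fun j => (hx j).2
  exact ⟨fun i j k => E i j k ∧ E' i j k, fun i j => (hE i j).and (hE' i j), fun J hd => ⟨h1 J hd.left, h1' J hd.right⟩⟩

theorem DiagTo.all {C : ℕ → ℕ → K.Pd} {C' : ℕ → K.Pd} (h : ∀ q, DiagTo (C q) (C' q)) :
    DiagTo (fun j S x => ∀ q, C q j S x) (fun S x => ∀ q, C' q S x) := by
  intro S x hx
  choose E hE h1 using fun q => h q S x fun j => hx j q
  exact ⟨fun i j k => E (Nat.unpair i).1 (Nat.unpair i).2 j k, fun i j => hE _ _ j,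
    fun J hd q => h1 q J (Slo.prm (E := E) hd q)⟩

theorem DiagTo.mono {C₁ C₂ : ℕ → K.Pd} {C₁' C₂' : K.Pd} (h : DiagTo C₁ C₁') (h1 : ∀ j S x, C₂ j S x → C₁ j S x)
    (h2 : ∀ S x, C₁' S x → C₂' S x) : DiagTo C₂ C₂' := by
  intro S x hx
  obtain ⟨E, hE, h3⟩ := h S x fun j => h1 j _ _ (hx j)
  exact ⟨E, hE, fun J hd => h2 _ _ (h3 J hd)⟩

theorem DiagCl.and {C C' : K.Pd} (h : DiagCl C) (h' : DiagCl C') : DiagCl (fun S x => C S x ∧ C' S x) :=
  DiagTo.and h h'

theorem DiagCl.all {C : ℕ → K.Pd} (h : ∀ q, DiagCl (C q)) : DiagCl (fun S x => ∀ q, C q S x) :=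
  DiagTo.all h

theorem DiagUsc.mono {C C' : K.Pd} {f : ∀ S : Sp, K.Ob S → ℝ} (hf : DiagUsc C f) (h : ∀ S x, C' S x → C S x) :
    DiagUsc C' f := fun S x hx => hf S x fun j => h _ _ (hx j)

theorem DiagLsc.mono {C C' : K.Pd} {f : ∀ S : Sp, K.Ob S → ℝ} (hf : DiagLsc C f) (h : ∀ S x, C' S x → C S x) :
    DiagLsc C' f := fun S x hx => hf S x fun j => h _ _ (hx j)

/-- `c ≤ f` is closed under diagonals for usc functionals -/
theorem DiagUsc.cl {C : K.Pd} {f : ∀ S : Sp, K.Ob S → ℝ} (hC : DiagCl C) (hf : DiagUsc C f) (c M : ℝ)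
    (hM : ∀ S x, C S x → f S x ≤ M) : DiagCl (fun S x => C S x ∧ c ≤ f S x) := by
  intro S x hx
  obtain ⟨E, hE, h1⟩ := hC S x fun j => (hx j).1
  obtain ⟨E', hE', h1'⟩ := hf S x fun j => (hx j).1
  refine ⟨fun i j k => E i j k ∧ E' i j k, fun i j => (hE i j).and (hE' i j), fun J hd => ⟨h1 J hd.left, ?_⟩⟩
  refine le_trans ?_ (h1' J hd.right)
  apply const_le_ul
  · refine ⟨|c| + |M|, Eventually.of_forall fun k => ?_⟩
    have a := (hx (J k)).2
    have b := hM _ _ (hx (J k)).1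
    rw [abs_le]
    constructor
    · have := neg_abs_le c
      have := abs_nonneg M
      linarith
    · have := le_abs_self M
      have := abs_nonneg c
      linarith
  · exact Eventually.of_forall fun k => (hx (J k)).2

/-- diagonals along functionals: approximate lower bounds -/
theorem DiagUsc.to {C : K.Pd} {f : ∀ S : Sp, K.Ob S → ℝ} (hf : DiagUsc C f) (c : ℕ → ℝ) (c' M : ℝ)
    (hc : Tendsto c atTop (𝓝 c')) (hM : ∀ S x, C S x → f S x ≤ M) :
    DiagTo (fun j S x => C S x ∧ c j ≤ f S x) (fun S x => c' ≤ f S x) := by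
  intro S x hx
  obtain ⟨E, hE, h1⟩ := hf S x fun j => (hx j).1
  refine ⟨E, hE, fun J hd => le_trans ?_ (h1 J hd)⟩
  have t1 : Tendsto (fun k => c (J k)) UF (𝓝 c') := hc.comp hd.tend
  have hU : UB (fun k => f (S (J k)) (x (J k))) := by
    obtain ⟨A, hA⟩ := UB_of_tendsto t1
    refine ⟨A + |M|, hA.mono fun k hk => ?_⟩
    have a := (hx (J k)).2
    have b := hM _ _ (hx (J k)).1
    have b1 := abs_le.mp hk
    rw [abs_le]
    constructor
    · have := abs_nonneg M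
      linarith
    · have := le_abs_self M
      have := (abs_nonneg (c (J k))).trans hk
      linarith
  exact le_of_tendsto_of_tendsto t1 (ul_tendsto hU) (Eventually.of_forall fun k => (hx (J k)).2)

/-- classes closed under restrictions to events of positive probability of extensions -/
def ImCl (C : K.Pd) : Prop :=
  ∀ (S : Sp) (x : K.Ob S), C S x → ∀ (T : Sp) (p : Pj T S) (E : ∀ k, (T.F k).Ω → Prop),
    0 < ul (T.pr E) → C (Sp.im p E) (K.imo x p E)

/-- predicates which depend on the object only up to null sets of the ultrafilter -/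
def Inv (C : K.Pd) : Prop := ∀ (S : Sp) (x y : K.Ob S), (∀ᶠ k in UF, x k = y k) → C S x → C S y

/-- nonempty classes closed under diagonals and restrictions -/
structure Cls (C : K.Pd) : Prop where
  dg : DiagCl C
  im : ImCl C
  ev : Inv C
  ne : ∃ (S : Sp) (x : K.Ob S), C S x

theorem ImCl.and {C C' : K.Pd} (h : ImCl C) (h' : ImCl C') : ImCl (fun S x => C S x ∧ C' S x) :=
  fun S x hx T p E hE => ⟨h S x hx.1 T p E hE, h' S x hx.2 T p E hE⟩

theorem Inv.and {C C' : K.Pd} (h : Inv C) (h' : Inv C') : Inv (fun S x => C S x ∧ C' S x) :=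
  fun S x y e hx => ⟨h S x y e hx.1, h' S x y e hx.2⟩

theorem Cls.and {C C' : K.Pd} (hC : Cls C) (hd : DiagCl C') (hi : ImCl C') (he : Inv C')
    (hne : ∃ (S : Sp) (x : K.Ob S), C S x ∧ C' S x) : Cls (fun S x => C S x ∧ C' S x) where
  dg := hC.dg.and hd
  im := hC.im.and hi
  ev := hC.ev.and he
  ne := hne

/-- nonnegative bounded functionals of a class, usc along diagonals, subadditive for events of extensions -/
structure Fnl (B : K.Pd) where
  f : ∀ S : Sp, K.Ob S → ℝ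
  M : ℝ
  nn : ∀ S x, B S x → 0 ≤ f S x
  le : ∀ S x, B S x → f S x ≤ M
  ev : ∀ (S : Sp) (x y : K.Ob S), B S x → (∀ᶠ k in UF, x k = y k) → f S y = f S x
  usc : DiagUsc B f
  spl : ∀ (S : Sp) (x : K.Ob S), B S x → ∀ (T : Sp) (p : Pj T S) (E : ∀ k, (T.F k).Ω → Prop), 0 < ul (T.pr E) →
    0 < ul (T.pr fun k ω => ¬ E k ω) →
    f S x ≤ ul (T.pr E) * f _ (K.imo x p E) + (1 - ul (T.pr E)) * f _ (K.imo x p (fun k ω => ¬ E k ω))
  typ : ∀ (S : Sp) (x : K.Ob S), B S x → ∀ (T : Sp) (p : Pj T S) (E : ∀ k, (T.F k).Ω → Prop),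
    Typ E → f S x ≤ f _ (K.imo x p E)

/-- restriction to a smaller class -/
def Fnl.mono {B B' : K.Pd} (Φ : Fnl B) (h : ∀ S x, B' S x → B S x) : Fnl B' where
  f := Φ.f
  M := Φ.M
  nn := fun S x hx => Φ.nn S x (h S x hx)
  le := fun S x hx => Φ.le S x (h S x hx)
  ev := fun S x y hx => Φ.ev S x y (h S x hx)
  usc := Φ.usc.mono h
  spl := fun S x hx => Φ.spl S x (h S x hx)
  typ := fun S x hx => Φ.typ S x (h S x hx)

/-- EXISTENCE OF RIGID OBJECTS. In a class closed under diagonals there is an object at which a countable list of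
bounded functionals, usc along diagonals, is rigid. -/
theorem exists_rigid (C : K.Pd) (hC : DiagCl C) (hne : ∃ (S : Sp) (x : K.Ob S), C S x)
    (f : ℕ → ∀ S : Sp, K.Ob S → ℝ) (hf : ∀ q, DiagUsc C (f q)) (M : ℝ)
    (h0 : ∀ q S x, C S x → 0 ≤ f q S x) (h1 : ∀ q S x, C S x → f q S x ≤ M) :
    ∃ (S : Sp) (x : K.Ob S), C S x ∧ ∀ (S₁ : Sp) (x₁ : K.Ob S₁) (S₂ : Sp) (x₂ : K.Ob S₂) (p : ℝ), C S₁ x₁ → C S₂ x₂ →
      0 < p → p ≤ 1 → (∀ q, f q S x ≤ p * f q S₁ x₁ + (1 - p) * f q S₂ x₂) → ∀ q, f q S₁ x₁ = f q S x := by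
  classical
  set V : Set ℝ := {r | ∃ (S : Sp) (x : K.Ob S), C S x ∧ r = wsq (fun q => f q S x)} with hV
  have hVb : BddAbove V := by
    refine ⟨2 * M ^ 2, ?_⟩
    rintro r ⟨S, s, hs, rfl⟩
    exact wsq_le (fun q => h0 q S s hs) (fun q => h1 q S s hs)
  have hVn : V.Nonempty := by
    obtain ⟨S, s, hs⟩ := hne
    exact ⟨_, S, s, hs, rfl⟩
  have h2 : ∀ j : ℕ, ∃ r ∈ V, sSup V - 1 / ((j : ℝ) + 1) < r := by
    intro j
    apply exists_lt_of_lt_csSup hVn
    have : (0 : ℝ) < 1 / ((j : ℝ) + 1) := by positivity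
    linarith
  choose r hr hr' using h2
  choose S s hs hrs using hr
  obtain ⟨E₁, hE₁, c1⟩ := hC S s hs
  choose E₂ hE₂ c2 using fun q => hf q S s hs
  obtain ⟨J, hd⟩ := exists_slo S
    (fun i j k => E₁ i j k ∧ E₂ (Nat.unpair i).1 (Nat.unpair i).2 j k) (fun i j => (hE₁ i j).and (hE₂ _ _ j))
  set u := K.dgo S s J hd.lim with hud
  have hu : C _ u := c1 J hd.left
  have hfu : ∀ q, ul (fun k => f q (S (J k)) (s (J k))) ≤ f q _ u := fun q => c2 q J (Slo.prm (E := E₂) hd.right q)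
  have b0 : ∀ k q, 0 ≤ f q (S (J k)) (s (J k)) := fun k q => h0 q _ _ (hs _)
  have b1 : ∀ k q, f q (S (J k)) (s (J k)) ≤ M := fun k q => h1 q _ _ (hs _)
  have h4 := wsq_ul (a := fun k q => f q (S (J k)) (s (J k))) b0 b1
  have h5 : Tendsto (fun j : ℕ => wsq (fun q => f q (S j) (s j))) atTop (𝓝 (sSup V)) := by
    have h6 : Tendsto (fun j : ℕ => sSup V - 1 / ((j : ℝ) + 1)) atTop (𝓝 (sSup V)) := by
      have := (tendsto_one_div_add_atTop_nhds_zero_nat (𝕜 := ℝ)).const_sub (sSup V)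
      simpa using this
    refine tendsto_of_tendsto_of_tendsto_of_le_of_le h6 tendsto_const_nhds (fun j => ?_) (fun j => ?_)
    · have h7 := (hr' j).le
      rw [hrs j] at h7
      exact h7
    · exact le_csSup hVb ⟨S j, s j, hs j, rfl⟩
  have h6 : wsq (fun q => ul fun k => f q (S (J k)) (s (J k))) = sSup V :=
    tendsto_nhds_unique h4 (h5.comp hd.tend)
  have hbq : ∀ q, UB (fun k => f q (S (J k)) (s (J k))) := fun q =>
    UB_of_nonneg_le (Eventually.of_forall fun k => b0 k q) (Eventually.of_forall fun k => b1 k q)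
  have h7 : sSup V ≤ wsq (fun q => f q _ u) := by
    rw [← h6]
    exact wsq_mono (M := M) (fun q => const_le_ul (hbq q) (Eventually.of_forall fun k => b0 k q))
      (fun q => h1 q _ u hu) hfu
  refine ⟨_, u, hu, fun S₁ s₁ S₂ s₂ p hs₁ hs₂ hp0 hp1 hle q => ?_⟩
  exact wsq_conv (M := M) (fun q => h0 q _ u hu) (fun q => h0 q _ _ hs₁) (fun q => h0 q _ _ hs₂)
    (fun q => h1 q _ _ hs₁) (fun q => h1 q _ _ hs₂) hp0 hp1 hle
    ((le_csSup hVb ⟨S₁, s₁, hs₁, rfl⟩).trans h7) ((le_csSup hVb ⟨S₂, s₂, hs₂, rfl⟩).trans h7) q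

theorem Fnl.M_nonneg {B : K.Pd} (Φ : Fnl B) (hne : ∃ (S : Sp) (x : K.Ob S), B S x) : 0 ≤ Φ.M := by
  obtain ⟨S, x, hx⟩ := hne
  exact (Φ.nn S x hx).trans (Φ.le S x hx)

/-- lower bounds for countably many usc functionals -/
theorem diagCl_ge {C : K.Pd} (hC : DiagCl C) (Φ : ℕ → Fnl C) (v : ℕ → ℝ) :
    DiagCl (fun S x => C S x ∧ ∀ q, v q ≤ (Φ q).f S x) := by
  have h1 : DiagCl (fun (S : Sp) (x : K.Ob S) => ∀ q, C S x ∧ v q ≤ (Φ q).f S x) :=
    DiagCl.all fun q => DiagUsc.cl hC (Φ q).usc (v q) (Φ q).M (Φ q).le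
  have e : (fun (S : Sp) (x : K.Ob S) => C S x ∧ ∀ q, v q ≤ (Φ q).f S x) =
      fun (S : Sp) (x : K.Ob S) => ∀ q, C S x ∧ v q ≤ (Φ q).f S x := by
    funext S s
    apply propext
    exact ⟨fun h q => ⟨h.1, h.2 q⟩, fun h => ⟨(h 0).1, fun q => (h q).2⟩⟩
  rw [e]
  exact h1

/-- ONE STEP: a subclass on which countably many functionals are constant -/
theorem stage {C : K.Pd} (hC : Cls C) (Φ : ℕ → Fnl C) :
    ∃ v : ℕ → ℝ, Cls (fun S x => C S x ∧ ∀ q, (Φ q).f S x = v q) := by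
  have hM : ∀ q, 0 ≤ (Φ q).M := fun q => (Φ q).M_nonneg hC.ne
  have hpos : ∀ q, 0 < (Φ q).M + 1 := fun q => by linarith [hM q]
  obtain ⟨S0, u, hu, hr⟩ := exists_rigid C hC.dg hC.ne (fun q S x => (Φ q).f S x / ((Φ q).M + 1)) (by
    intro q S x hx
    obtain ⟨E, hE, h1⟩ := (Φ q).usc S x hx
    refine ⟨E, hE, fun J hd => ?_⟩
    have hU : UB (fun k => (Φ q).f (S (J k)) (x (J k))) := UB_of_nonneg_le
      (Eventually.of_forall fun k => (Φ q).nn _ _ (hx _)) (Eventually.of_forall fun k => (Φ q).le _ _ (hx _))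
    have h2 : ul (fun k => (Φ q).f (S (J k)) (x (J k)) / ((Φ q).M + 1)) =
        ul (fun k => (Φ q).f (S (J k)) (x (J k))) / ((Φ q).M + 1) := ul_eq ((ul_tendsto hU).div_const _)
    show ul (fun k => (Φ q).f (S (J k)) (x (J k)) / ((Φ q).M + 1)) ≤ _ / _
    rw [h2]
    exact div_le_div_of_nonneg_right (h1 J hd) (hpos q).le) 1
    (fun q S x hx => div_nonneg ((Φ q).nn S x hx) (hpos q).le)
    (fun q S x hx => by
      rw [div_le_one (hpos q)]
      linarith [(Φ q).le S x hx])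
  have hr' : ∀ (S₁ : Sp) (x₁ : K.Ob S₁) (S₂ : Sp) (x₂ : K.Ob S₂) (p : ℝ), C S₁ x₁ → C S₂ x₂ →
      0 < p → p ≤ 1 → (∀ q, (Φ q).f S0 u ≤ p * (Φ q).f S₁ x₁ + (1 - p) * (Φ q).f S₂ x₂) →
        ∀ q, (Φ q).f S₁ x₁ = (Φ q).f S0 u := by
    intro S₁ x₁ S₂ x₂ p a b c d h q
    have h3 := hr S₁ x₁ S₂ x₂ p a b c d (fun q => by
      have h4 := div_le_div_of_nonneg_right (h q) (hpos q).le
      refine h4.trans (le_of_eq ?_)
      ring) q
    have h5 := (div_left_inj' (hpos q).ne').mp h3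
    exact h5
  -- members above `u` have the same values
  have key : ∀ (S : Sp) (s : K.Ob S), C S s → (∀ q, (Φ q).f S0 u ≤ (Φ q).f S s) → ∀ q, (Φ q).f S s = (Φ q).f S0 u := by
    intro S s hs h
    refine hr' S s S s 1 hs hs one_pos le_rfl fun q => ?_
    have := h q
    linarith
  have heq : (fun (S : Sp) (s : K.Ob S) => C S s ∧ ∀ q, (Φ q).f S s = (Φ q).f S0 u) =
      fun (S : Sp) (s : K.Ob S) => C S s ∧ ∀ q, (Φ q).f S0 u ≤ (Φ q).f S s := by
    funext S s
    apply propext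
    exact ⟨fun h => ⟨h.1, fun q => (h.2 q).ge⟩, fun h => ⟨h.1, key S s h.1 h.2⟩⟩
  refine ⟨fun q => (Φ q).f S0 u, ?_, ?_, fun S x y e hx => ⟨hC.ev S x y e hx.1, fun q =>
    ((Φ q).ev S x y hx.1 e).trans (hx.2 q)⟩, S0, u, hu, fun _ => rfl⟩
  · rw [heq]
    exact diagCl_ge hC.dg Φ _
  · intro S s hs T p E hE
    have hs1 := hC.im S s hs.1 T p E hE
    refine ⟨hs1, ?_⟩
    rcases typ_or E with ht | hE'
    · exact key _ _ hs1 fun q => (hs.2 q).ge.trans ((Φ q).typ S s hs.1 T p E ht)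
    · exact hr' _ (K.imo s p E) _ (K.imo s p (fun k ω => ¬ E k ω)) (ul (T.pr E)) hs1
        (hC.im S s hs.1 T p _ hE') hE (ul_pr_le_one E) fun q =>
          (hs.2 q).ge.trans ((Φ q).spl S s hs.1 T p E hE hE')

/-- ONE STEP, functionals of a larger class, indexed by a countable type -/
theorem stage' {C B : K.Pd} (hC : Cls C) (hB : ∀ S x, C S x → B S x) {ι : Type} [Countable ι] [Nonempty ι]
    (Φ : ι → Fnl B) : ∃ v : ι → ℝ, Cls (fun S x => C S x ∧ ∀ q, (Φ q).f S x = v q) := by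
  obtain ⟨g, hg⟩ := exists_surjective_nat ι
  obtain ⟨v, hv⟩ := stage hC (fun n => (Φ (g n)).mono hB)
  obtain ⟨S0, u, hu⟩ := hv.ne
  have heq : (fun (S : Sp) (s : K.Ob S) => C S s ∧ ∀ q, (Φ q).f S s = (Φ q).f S0 u) =
      fun (S : Sp) (s : K.Ob S) => C S s ∧ ∀ n, ((Φ (g n)).mono hB).f S s = v n := by
    funext S s
    apply propext
    constructor
    · rintro ⟨h1, h2⟩
      exact ⟨h1, fun n => (h2 (g n)).trans (hu.2 n)⟩
    · rintro ⟨h1, h2⟩
      refine ⟨h1, fun q => ?_⟩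
      obtain ⟨n, rfl⟩ := hg q
      exact (h2 n).trans (hu.2 n).symm
  refine ⟨fun q => (Φ q).f S0 u, ?_⟩
  rw [heq]
  exact hv

/-- the functional does not change under restrictions to events of positive probability of extensions -/
def Rob (f : ∀ S : Sp, K.Ob S → ℝ) {S : Sp} (x : K.Ob S) : Prop :=
  ∀ (T : Sp) (p : Pj T S) (E : ∀ k, (T.F k).Ω → Prop), 0 < ul (T.pr E) → f _ (K.imo x p E) = f S x

/-- members of a class with constant values are robust -/
theorem Cls.rob {C : K.Pd} (hC : Cls C) {f : ∀ S : Sp, K.Ob S → ℝ} {v : ℝ} (hv : ∀ S x, C S x → f S x = v)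
    {S : Sp} {x : K.Ob S} (hx : C S x) : Rob f x := fun T p E hE =>
  (hv _ _ (hC.im S x hx T p E hE)).trans (hv S x hx).symm

/-! ### superadditive functionals -/

/-- nonnegative functionals of a class, lsc along diagonals, superadditive for events of extensions -/
structure SFn (B : K.Pd) where
  f : ∀ S : Sp, K.Ob S → ℝ
  nn : ∀ S x, B S x → 0 ≤ f S x
  ev : ∀ (S : Sp) (x y : K.Ob S), B S x → (∀ᶠ k in UF, x k = y k) → f S y = f S x
  lsc : DiagLsc B f
  spl : ∀ (S : Sp) (x : K.Ob S), B S x → ∀ (T : Sp) (p : Pj T S) (E : ∀ k, (T.F k).Ω → Prop), 0 < ul (T.pr E) →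
    0 < ul (T.pr fun k ω => ¬ E k ω) →
    ul (T.pr E) * f _ (K.imo x p E) + (1 - ul (T.pr E)) * f _ (K.imo x p (fun k ω => ¬ E k ω)) ≤ f S x
  typ : ∀ (S : Sp) (x : K.Ob S), B S x → ∀ (T : Sp) (p : Pj T S) (E : ∀ k, (T.F k).Ω → Prop),
    Typ E → f _ (K.imo x p E) ≤ f S x

def SFn.mono {B B' : K.Pd} (Φ : SFn B) (h : ∀ S x, B' S x → B S x) : SFn B' where
  f := Φ.f
  nn := fun S x hx => Φ.nn S x (h S x hx)
  ev := fun S x y hx => Φ.ev S x y (h S x hx)
  lsc := Φ.lsc.mono h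
  spl := fun S x hx => Φ.spl S x (h S x hx)
  typ := fun S x hx => Φ.typ S x (h S x hx)

/-- the difference of the bound and of a functional -/
def SFn.ofFnl {B : K.Pd} (Φ : Fnl B) : SFn B where
  f := fun S x => Φ.M - Φ.f S x
  nn := fun S x hx => sub_nonneg.mpr (Φ.le S x hx)
  ev := fun S x y hx e => by rw [Φ.ev S x y hx e]
  lsc := by
    intro S x hx
    obtain ⟨E, hE, h1⟩ := Φ.usc S x hx
    refine ⟨E, hE, fun J hd M hM => ?_⟩
    have h2 := h1 J hd
    have hU : UB (fun k => Φ.f (S (J k)) (x (J k))) := UB_of_nonneg_le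
      (Eventually.of_forall fun k => Φ.nn _ _ (hx _)) (Eventually.of_forall fun k => Φ.le _ _ (hx _))
    have h3 : ul (fun k => Φ.M - Φ.f (S (J k)) (x (J k))) = Φ.M - ul (fun k => Φ.f (S (J k)) (x (J k))) :=
      ul_eq ((ul_tendsto hU).const_sub Φ.M)
    rw [h3]
    linarith
  spl := by
    intro S x hx T p E hE hE'
    have := Φ.spl S x hx T p E hE hE'
    nlinarith
  typ := by
    intro S x hx T p E ht
    have := Φ.typ S x hx T p E ht
    linarith

/-- sums -/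
def SFn.add {B : K.Pd} (Φ Ψ : SFn B) : SFn B where
  f := fun S x => Φ.f S x + Ψ.f S x
  nn := fun S x hx => add_nonneg (Φ.nn S x hx) (Ψ.nn S x hx)
  ev := fun S x y hx e => by rw [Φ.ev S x y hx e, Ψ.ev S x y hx e]
  lsc := by
    intro S x hx
    obtain ⟨E, hE, h1⟩ := Φ.lsc S x hx
    obtain ⟨E', hE', h1'⟩ := Ψ.lsc S x hx
    refine ⟨fun i j k => E i j k ∧ E' i j k, fun i j => (hE i j).and (hE' i j), fun J hd M hM => ?_⟩
    have a1 := h1 J hd.left M fun k => by have := hM k; have := Ψ.nn (S (J k)) (x (J k)) (hx _); linarith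
    have a2 := h1' J hd.right M fun k => by have := hM k; have := Φ.nn (S (J k)) (x (J k)) (hx _); linarith
    have u1 : UB (fun k => Φ.f (S (J k)) (x (J k))) := UB_of_nonneg_le
      (Eventually.of_forall fun k => Φ.nn _ _ (hx _))
      (Eventually.of_forall fun k => by have := hM k; have := Ψ.nn (S (J k)) (x (J k)) (hx _); linarith)
    have u2 : UB (fun k => Ψ.f (S (J k)) (x (J k))) := UB_of_nonneg_le
      (Eventually.of_forall fun k => Ψ.nn _ _ (hx _))
      (Eventually.of_forall fun k => by have := hM k; have := Φ.nn (S (J k)) (x (J k)) (hx _); linarith)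
    rw [ul_add u1 u2]
    linarith
  spl := by
    intro S x hx T p E hE hE'
    have := Φ.spl S x hx T p E hE hE'
    have := Ψ.spl S x hx T p E hE hE'
    linarith
  typ := by
    intro S x hx T p E ht
    have := Φ.typ S x hx T p E ht
    have := Ψ.typ S x hx T p E ht
    linarith

/-- partial sums -/
def psm {B : K.Pd} (f : ℕ → SFn B) (la : ℕ → ℝ) (N : ℕ) {S : Sp} (x : K.Ob S) : ℝ :=
  ∑ j ∈ Finset.range N, la j * (f j).f S x

section
variable {B : K.Pd} {f : ℕ → SFn B} {la : ℕ → ℝ}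

theorem psm_mono (hla : ∀ j, 0 ≤ la j) {N N' : ℕ} (h : N ≤ N') {S : Sp} {x : K.Ob S} (hx : B S x) :
    psm f la N x ≤ psm f la N' x :=
  Finset.sum_le_sum_of_subset_of_nonneg (Finset.range_mono h) fun j _ _ => mul_nonneg (hla j) ((f j).nn S x hx)

theorem psm_nn (hla : ∀ j, 0 ≤ la j) (N : ℕ) {S : Sp} {x : K.Ob S} (hx : B S x) : 0 ≤ psm f la N x :=
  Finset.sum_nonneg fun j _ => mul_nonneg (hla j) ((f j).nn S x hx)

theorem psm_spl (hla : ∀ j, 0 ≤ la j) (N : ℕ) {S : Sp} {x : K.Ob S} (hx : B S x) {T : Sp} (p : Pj T S)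
    (E : ∀ k, (T.F k).Ω → Prop) (hE : 0 < ul (T.pr E)) (hE' : 0 < ul (T.pr fun k ω => ¬ E k ω)) :
    ul (T.pr E) * psm f la N (K.imo x p E) + (1 - ul (T.pr E)) * psm f la N (K.imo x p (fun k ω => ¬ E k ω)) ≤
      psm f la N x := by
  unfold psm
  rw [Finset.mul_sum, Finset.mul_sum, ← Finset.sum_add_distrib]
  refine Finset.sum_le_sum fun j _ => ?_
  have h1 := mul_le_mul_of_nonneg_left ((f j).spl S x hx T p E hE hE') (hla j)
  linarith

theorem psm_typ (hla : ∀ j, 0 ≤ la j) (N : ℕ) {S : Sp} {x : K.Ob S} (hx : B S x) {T : Sp} (p : Pj T S)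
    (E : ∀ k, (T.F k).Ω → Prop) (ht : Typ E) : psm f la N (K.imo x p E) ≤ psm f la N x :=
  Finset.sum_le_sum fun j _ => mul_le_mul_of_nonneg_left ((f j).typ S x hx T p E ht) (hla j)

theorem psm_ev (N : ℕ) {S : Sp} {x y : K.Ob S} (hx : B S x) (e : ∀ᶠ k in UF, x k = y k) :
    psm f la N y = psm f la N x :=
  Finset.sum_congr rfl fun j _ => by rw [(f j).ev S x y hx e]

/-- each term is bounded by the sum -/
theorem le_psm (hla : ∀ j, 0 ≤ la j) {S : Sp} {x : K.Ob S} (hx : B S x) {b : ℝ} (h : ∀ N, psm f la N x ≤ b) (j : ℕ) :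
    la j * (f j).f S x ≤ b := by
  refine le_trans ?_ (h (j + 1))
  exact Finset.single_le_sum (f := fun j => la j * (f j).f S x) (fun j _ => mul_nonneg (hla j) ((f j).nn S x hx))
    (Finset.mem_range.mpr (Nat.lt_succ_self j))

/-- a diagonal of objects with bounded sums -/
theorem psm_diag (hla : ∀ j, 0 < la j) (S : ℕ → Sp) (s : ∀ j, K.Ob (S j)) (hs : ∀ j, B (S j) (s j)) (b : ℕ → ℝ) (M : ℝ)
    (hM : ∀ j, b j ≤ M) (hB : ∀ j N, psm f la N (s j) ≤ b j) :
    ∃ E : ℕ → ℕ → ℕ → Prop, (∀ i j, ∀ᶠ k in UF, E i j k) ∧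
      ∀ (J : ℕ → ℕ) (h : Slo S E J) (N : ℕ), psm f la N (K.dgo S s J h.lim) ≤ ul (fun k => b (J k)) := by
  have hla' : ∀ j, 0 ≤ la j := fun j => (hla j).le
  choose E hE h1 using fun q => (f q).lsc S s hs
  refine ⟨fun i j k => E (Nat.unpair i).1 (Nat.unpair i).2 j k, fun i j => hE _ _ j, fun J hd N => ?_⟩
  have hub : ∀ q k, (f q).f (S (J k)) (s (J k)) ≤ M / la q := by
    intro q k
    rw [le_div_iff₀ (hla q), mul_comm]
    exact (le_psm hla' (hs (J k)) (hB (J k)) q).trans (hM _)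
  have hU : ∀ q, UB (fun k => (f q).f (S (J k)) (s (J k))) := fun q =>
    UB_of_nonneg_le (Eventually.of_forall fun k => (f q).nn _ _ (hs _)) (Eventually.of_forall fun k => hub q k)
  have hUB : UB (fun k => b (J k)) :=
    UB_of_nonneg_le (Eventually.of_forall fun k => (psm_nn hla' 0 (hs (J k))).trans (hB (J k) 0))
      (Eventually.of_forall fun k => hM _)
  have t1 : Tendsto (fun k => psm f la N (s (J k))) UF
      (𝓝 (∑ q ∈ Finset.range N, la q * ul (fun k => (f q).f (S (J k)) (s (J k))))) := by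
    unfold psm
    exact tendsto_finsetSum _ fun q _ => (ul_tendsto (hU q)).const_mul (la q)
  have h3 : ∑ q ∈ Finset.range N, la q * ul (fun k => (f q).f (S (J k)) (s (J k))) ≤ ul (fun k => b (J k)) :=
    le_of_tendsto_of_tendsto t1 (ul_tendsto hUB) (Eventually.of_forall fun k => hB (J k) N)
  refine le_trans (Finset.sum_le_sum fun q _ => ?_) h3
  exact mul_le_mul_of_nonneg_left (h1 q J (Slo.prm (E := E) hd q) (M / la q) fun k => hub q k) (hla' q)

/-- THE CLASS OF MINIMISERS of a weighted sum of superadditive functionals, in a class -/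
theorem exists_min {C : K.Pd} (hC : Cls C) {f : ℕ → SFn C} (hla : ∀ j, 0 < la j) {S0 : Sp} {s0 : K.Ob S0}
    (hs0 : C S0 s0) {b : ℝ} (h0 : ∀ N, psm f la N s0 ≤ b) :
    ∃ b0 : ℝ, b0 ≤ b ∧ Cls (fun (S : Sp) (s : K.Ob S) => C S s ∧ ∀ N, psm f la N s ≤ b0) := by
  have hla' : ∀ j, 0 ≤ la j := fun j => (hla j).le
  set V : Set ℝ := {r | ∃ (S : Sp) (s : K.Ob S), C S s ∧ ∀ N, psm f la N s ≤ r} with hV
  have hVb : BddBelow V := ⟨0, by rintro r ⟨S, s, hs, h⟩; exact (psm_nn hla' 0 hs).trans (h 0)⟩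
  have hVn : V.Nonempty := ⟨b, S0, s0, hs0, h0⟩
  have hmin : ∀ (S : Sp) (s : K.Ob S) (r : ℝ), C S s → (∀ N, psm f la N s ≤ r) → sInf V ≤ r :=
    fun S s r hs h => csInf_le hVb ⟨S, s, hs, h⟩
  refine ⟨sInf V, csInf_le hVb ⟨S0, s0, hs0, h0⟩, ?_, ?_, fun S x y e hx => ⟨hC.ev S x y e hx.1, fun N =>
    (psm_ev N hx.1 e).trans_le (hx.2 N)⟩, ?_⟩
  · -- diagonals
    intro S s hs
    obtain ⟨E₁, hE₁, c1⟩ := hC.dg S s fun j => (hs j).1
    obtain ⟨E, hE, h1⟩ := psm_diag hla S s (fun j => (hs j).1) (fun _ => sInf V) (sInf V) (fun _ => le_rfl)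
      fun j => (hs j).2
    refine ⟨fun i j k => E₁ i j k ∧ E i j k, fun i j => (hE₁ i j).and (hE i j), fun J hd => ⟨c1 J hd.left, fun N => ?_⟩⟩
    have := h1 J hd.right N
    rwa [ul_const] at this
  · -- restrictions
    intro S s hs T p E hE
    have hi := hC.im S s hs.1 T p E hE
    refine ⟨hi, ?_⟩
    rcases typ_or E with ht | hE'
    · exact fun N => (psm_typ hla' N hs.1 p E ht).trans (hs.2 N)
    · have hi' := hC.im S s hs.1 T p _ hE'
      intro N
      apply le_of_forall_pos_le_add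
      intro e he
      set P := ul (T.pr E) with hP
      have hP1 : P ≤ 1 := ul_pr_le_one E
      -- the other part has nearly the minimal value
      obtain ⟨N1, hN1⟩ : ∃ N1, sInf V - e * P ≤ psm f la N1 (K.imo s p (fun k ω => ¬ E k ω)) := by
        by_contra hc
        push Not at hc
        have := hmin _ _ _ hi' fun N => (hc N).le
        have := mul_pos he hE
        linarith
      have h2 := psm_spl (f := f) hla' (max N N1) hs.1 p E hE hE'
      have h3 := psm_mono (f := f) hla' (le_max_left N N1) hi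
      have h4 := psm_mono (f := f) hla' (le_max_right N N1) hi'
      have h5 := hs.2 (max N N1)
      have h6 : P * psm f la N (K.imo s p E) ≤ P * (sInf V + e) := by
        have a1 := mul_le_mul_of_nonneg_left h3 hE.le
        have a2 := mul_le_mul_of_nonneg_left (hN1.trans h4) (sub_nonneg.mpr hP1)
        have a3 : (1 - P) * (e * P) ≤ 1 * (e * P) :=
          mul_le_mul_of_nonneg_right (by linarith) (mul_pos he hE).le
        have a4 : (1 - P) * (sInf V - e * P) = sInf V - P * sInf V - (1 - P) * (e * P) := by ring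
        rw [a4] at a2
        have a5 : P * (sInf V + e) = P * sInf V + e * P := by ring
        rw [a5]
        linarith
      exact le_of_mul_le_mul_left h6 hE
  · -- existence
    have h2 : ∀ j : ℕ, ∃ r ∈ V, r < sInf V + 1 / ((j : ℝ) + 1) := by
      intro j
      apply exists_lt_of_csInf_lt hVn
      have : (0 : ℝ) < 1 / ((j : ℝ) + 1) := by positivity
      linarith
    choose r hr hr' using h2
    choose S s hs hs2 using hr
    have hM : ∀ j, r j ≤ sInf V + 1 := by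
      intro j
      refine (hr' j).le.trans ?_
      have : (1 : ℝ) / ((j : ℝ) + 1) ≤ 1 := by
        rw [div_le_one (by positivity)]
        have : (0 : ℝ) ≤ j := Nat.cast_nonneg j
        linarith
      linarith
    obtain ⟨E₁, hE₁, c1⟩ := hC.dg S s hs
    obtain ⟨E, hE, h1⟩ := psm_diag hla S s hs r (sInf V + 1) hM (fun j N => hs2 j N)
    obtain ⟨J, hd⟩ := exists_slo S (fun i j k => E₁ i j k ∧ E i j k) (fun i j => (hE₁ i j).and (hE i j))
    refine ⟨_, K.dgo S s J hd.lim, c1 J hd.left, fun N => (h1 J hd.right N).trans (le_of_eq ?_)⟩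
    apply ul_eq
    have t0 : Tendsto (fun k => sInf V + 1 / ((J k : ℝ) + 1)) UF (𝓝 (sInf V)) := by
      have := (tendsto_one_div_add_atTop_nhds_zero_nat (𝕜 := ℝ)).comp hd.tend
      have h3 := this.const_add (sInf V)
      rwa [add_zero] at h3
    exact tendsto_of_tendsto_of_tendsto_of_le_of_le tendsto_const_nhds t0
      (fun k => csInf_le hVb ⟨S (J k), s (J k), hs (J k), hs2 (J k)⟩) (fun k => (hr' (J k)).le)

end

end

end Pool.Agent.Helper49.MD
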