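import Mathlib

/-! MAXIMAL INEQUALITY for near-linear paths: if a path grows at least with the speed `W` and on the whole at most with
the speed `W + ε`, then outside a small set of times all difference quotients are at most `W + η`. -/

set_option autoImplicit false

namespace Pool.Agent.Helper49.MD

open MeasureTheory Set

/-- rising sun, monotone functions: the times with a large left difference quotient -/
theorem rising_left {M : ℝ → ℝ} (hM : Monotone M) {b η δ : ℝ} (hb : 0 ≤ b) (hη : 0 < η) (hδ : M b - M 0 ≤ δ) :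
    volume {s : ℝ | s ∈ Icc 0 b ∧ ∃ t ∈ Icc 0 b, t < s ∧ η * (s - t) < M s - M t} ≤ ENNReal.ofReal (δ / η) := by
  classical
  set g : ℝ → ℝ := fun s => M s - η * s with hg
  have hg0 : ∀ s ∈ Icc 0 b, ∀ t, s ≤ t → g s - η * (t - s) ≤ g t := by
    intro s _ t hst
    simp only [hg]
    have := hM hst
    linarith
  -- running infimum
  have hbd : ∀ s, BddBelow (g '' Icc 0 s) := by
    intro s
    refine ⟨M 0 - η * s, ?_⟩
    rintro _ ⟨t, ht, rfl⟩
    simp only [hg]
    have h1 := hM ht.1
    have h2 : η * t ≤ η * s := mul_le_mul_of_nonneg_left ht.2 hη.le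
    linarith
  set m : ℝ → ℝ := fun s => sInf (g '' Icc 0 s) with hm
  have hne : ∀ s, 0 ≤ s → (g '' Icc 0 s).Nonempty := fun s hs => ⟨g 0, 0, ⟨le_rfl, hs⟩, rfl⟩
  have m_le : ∀ s t, t ∈ Icc 0 s → m s ≤ g t := fun s t ht => csInf_le (hbd s) ⟨t, ht, rfl⟩
  have m_anti : ∀ s t, 0 ≤ s → s ≤ t → m t ≤ m s := fun s t hs hst =>
    csInf_le_csInf (hbd t) (hne s hs) (image_mono (Icc_subset_Icc le_rfl hst))
  have m_lip : ∀ s t, 0 ≤ s → s ≤ t → m s - η * (t - s) ≤ m t := by
    intro s t hs hst
    refine le_csInf (hne t (hs.trans hst)) ?_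
    rintro _ ⟨r, hr, rfl⟩
    rcases le_total r s with h | h
    · have h1 := m_le s r ⟨hr.1, h⟩
      have h2 : 0 ≤ η * (t - s) := mul_nonneg hη.le (by linarith)
      linarith
    · have h1 := m_le s s ⟨hs, le_rfl⟩
      have h2 : g s - η * (r - s) ≤ g r := by
        simp only [hg]
        have := hM h
        linarith
      have h3 : η * (r - s) ≤ η * (t - s) := mul_le_mul_of_nonneg_left (by linarith [hr.2]) hη.le
      linarith
  have m0 : m 0 = g 0 := by
    simp only [hm, Icc_self, image_singleton, csInf_singleton]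
  -- Lipschitz
  have hL : LipschitzOnWith (Real.toNNReal η) m (Icc 0 b) := by
    refine LipschitzOnWith.of_dist_le_mul fun s hs t ht => ?_
    rw [Real.dist_eq, Real.dist_eq, Real.coe_toNNReal _ hη.le]
    rcases le_total s t with h | h
    · have h1 := m_anti s t hs.1 h
      have h2 := m_lip s t hs.1 h
      rw [abs_of_nonneg (by linarith), abs_of_nonpos (by linarith)]
      linarith
    · have h1 := m_anti t s ht.1 h
      have h2 := m_lip t s ht.1 h
      rw [abs_of_nonpos (by linarith), abs_of_nonneg (by linarith)]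
      linarith
  have hc : ContinuousOn m (Icc 0 b) := hL.continuousOn
  -- the good times
  set G : Set ℝ := {s | s ∈ Icc 0 b ∧ g s ≤ m s} with hG
  set Cn : Set ℝ := {s | ¬ ContinuousAt M s} with hCn
  have hCc : Cn.Countable := hM.countable_not_continuousAt
  have hgm : Measurable g := hM.measurable.sub (measurable_const.mul measurable_id)
  have hGm : MeasurableSet G := by
    have h1 : Measurable (fun s => m (max 0 (min s b))) := by
      have : Continuous (fun s : ℝ => m (max 0 (min s b))) := by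
        exact ContinuousOn.comp_continuous (g := m) (f := fun s : ℝ => max 0 (min s b)) hc (by fun_prop)
          fun s => ⟨le_max_left _ _, max_le hb (min_le_right _ _)⟩
      exact this.measurable
    have e : G = Icc 0 b ∩ {s | g s ≤ m (max 0 (min s b))} := by
      ext s
      constructor
      · rintro ⟨h1, h2⟩
        refine ⟨h1, ?_⟩
        show g s ≤ m (max 0 (min s b))
        rw [min_eq_left h1.2, max_eq_right h1.1]
        exact h2
      · rintro ⟨h1, h2⟩
        refine ⟨h1, ?_⟩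
        have h3 : g s ≤ m (max 0 (min s b)) := h2
        rw [min_eq_left h1.2, max_eq_right h1.1] at h3
        exact h3
    rw [e]
    exact measurableSet_Icc.inter (measurableSet_le hgm h1)
  -- the image of the good times
  have himg : Ioc (m b) (m 0) ⊆ m '' (G ∪ (Cn ∩ Icc 0 b)) := by
    intro v hv
    -- first time
    set A : Set ℝ := Icc 0 b ∩ m ⁻¹' {v} with hA
    have hAc : IsCompact A := by
      refine IsCompact.of_isClosed_subset isCompact_Icc ?_ inter_subset_left
      exact hc.preimage_isClosed_of_isClosed isClosed_Icc isClosed_singleton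
    have hAn : A.Nonempty := by
      have h1 : Icc (m b) (m 0) ⊆ m '' Icc 0 b := intermediate_value_Icc' hb hc
      obtain ⟨s, hs, hsv⟩ := h1 ⟨hv.1.le, hv.2⟩
      exact ⟨s, hs, hsv⟩
    obtain ⟨s, hs⟩ := hAc.exists_isLeast hAn
    have hs1 : s ∈ Icc 0 b := hs.1.1
    have hsv : m s = v := hs.1.2
    refine ⟨s, ?_, hsv⟩
    by_contra hn
    rw [mem_union, not_or] at hn
    have hcs : ContinuousAt M s := by
      by_contra h
      exact hn.2 ⟨h, hs1⟩
    have h1 : m s < g s := by
      by_contra h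
      exact hn.1 ⟨hs1, not_lt.mp h⟩
    -- g > m s near s, so the infimum is attained before
    have hgc : ContinuousAt g s := hcs.sub (continuousAt_const.mul continuousAt_id)
    have hs0 : 0 < s := by
      rcases hs1.1.lt_or_eq with h | h
      · exact h
      · exfalso
        rw [← h, m0] at h1
        exact lt_irrefl _ h1
    obtain ⟨r, hr, h2⟩ : ∃ r, 0 < r ∧ ∀ t, |t - s| < r → (m s + g s) / 2 < g t := by
      have h3 := (hgc.eventually (lt_mem_nhds (show (m s + g s) / 2 < g s by linarith)))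
      rw [Metric.eventually_nhds_iff] at h3
      obtain ⟨r, hr, h4⟩ := h3
      exact ⟨r, hr, fun t ht => h4 (by rwa [Real.dist_eq])⟩
    set t : ℝ := max 0 (s - r / 2) with ht
    have ht0 : 0 ≤ t := le_max_left _ _
    have hts : t < s := max_lt hs0 (by linarith)
    have h5 : m t ≤ m s := by
      by_contra hcon
      rw [not_le] at hcon
      obtain ⟨y, ⟨q, hq, rfl⟩, hy⟩ := exists_lt_of_csInf_lt (hne s hs1.1)
        (show sInf (g '' Icc 0 s) < min (m t) ((m s + g s) / 2) from lt_min hcon (by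
          show m s < (m s + g s) / 2
          linarith))
      rcases le_total q t with h6 | h6
      · have := m_le t q ⟨hq.1, h6⟩
        exact absurd (hy.trans_le (min_le_left _ _)) (not_lt.mpr this)
      · have h7 : |q - s| < r := by
          rw [abs_of_nonpos (by linarith [hq.2])]
          have : s - r / 2 ≤ q := (le_max_right 0 (s - r / 2)).trans h6
          linarith
        exact absurd (hy.trans_le (min_le_right _ _)) (not_lt.mpr (h2 q h7).le)
    have h6 : m t = v := by
      rw [← hsv]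
      exact le_antisymm h5 (m_anti t s ht0 hts.le)
    have h7 := hs.2 (show t ∈ A from ⟨⟨ht0, hts.le.trans hs1.2⟩, h6⟩)
    linarith
  -- measure
  have h1 : ENNReal.ofReal (m 0 - m b) ≤ ENNReal.ofReal η * volume G := by
    have h2 : volume (Ioc (m b) (m 0)) ≤ volume (m '' (G ∪ (Cn ∩ Icc 0 b))) := measure_mono himg
    rw [Real.volume_Ioc] at h2
    have h3 : volume (m '' (G ∪ (Cn ∩ Icc 0 b))) ≤ ENNReal.ofReal η * volume (G ∪ (Cn ∩ Icc 0 b)) := by
      have hL' : LipschitzOnWith (Real.toNNReal η) m (G ∪ (Cn ∩ Icc 0 b)) :=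
        hL.mono (union_subset (fun s hs => hs.1) inter_subset_right)
      have h4 := hL'.hausdorffMeasure_image_le (d := 1) zero_le_one
      rw [hausdorffMeasure_real, ENNReal.rpow_one] at h4
      exact h4
    have h5 : volume (G ∪ (Cn ∩ Icc 0 b)) ≤ volume G := by
      refine (measure_union_le _ _).trans ?_
      rw [(hCc.mono inter_subset_left).measure_zero volume, add_zero]
    exact h2.trans (h3.trans (mul_le_mul_right h5 _))
  have h2 : η * b - δ ≤ m 0 - m b := by
    have h3 := m_le b b ⟨hb, le_rfl⟩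
    rw [m0]
    simp only [hg] at h3 ⊢
    linarith
  -- the bad times
  have hBG : {s : ℝ | s ∈ Icc 0 b ∧ ∃ t ∈ Icc 0 b, t < s ∧ η * (s - t) < M s - M t} ⊆ Icc 0 b \ G := by
    rintro s ⟨hs, t, ht, hts, h⟩
    refine ⟨hs, fun hsG => ?_⟩
    have h3 := hsG.2.trans (m_le s t ⟨ht.1, hts.le⟩)
    simp only [hg] at h3
    linarith
  refine (measure_mono hBG).trans ?_
  have hGs : G ⊆ Icc 0 b := fun s hs => hs.1
  have hfin : volume G ≠ ⊤ := ne_top_of_le_ne_top (by rw [Real.volume_Icc]; exact ENNReal.ofReal_ne_top)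
    (measure_mono hGs)
  rw [measure_sdiff hGs hGm.nullMeasurableSet hfin, Real.volume_Icc, sub_zero]
  rw [tsub_le_iff_right]
  -- b ≤ δ/η + vol G
  have h3 : ENNReal.ofReal (η * b - δ) ≤ ENNReal.ofReal η * volume G :=
    (ENNReal.ofReal_le_ofReal h2).trans h1
  have hδ0 : 0 ≤ δ := (sub_nonneg.mpr (hM hb)).trans hδ
  set x : ℝ := (volume G).toReal with hx
  have hx0 : 0 ≤ x := ENNReal.toReal_nonneg
  have hxe : volume G = ENNReal.ofReal x := (ENNReal.ofReal_toReal hfin).symm
  rw [hxe] at h3 ⊢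
  rw [← ENNReal.ofReal_mul hη.le, ENNReal.ofReal_le_ofReal_iff (mul_nonneg hη.le hx0)] at h3
  rw [← ENNReal.ofReal_add (div_nonneg hδ0 hη.le) hx0]
  apply ENNReal.ofReal_le_ofReal
  have h4 : δ / η + x = (δ + η * x) / η := by field_simp
  rw [h4, le_div_iff₀ hη]
  linarith

/-- the times with a large right difference quotient -/
theorem rising_right {M : ℝ → ℝ} (hM : Monotone M) {b η δ : ℝ} (hb : 0 ≤ b) (hη : 0 < η) (hδ : M b - M 0 ≤ δ) :
    volume {s : ℝ | s ∈ Icc 0 b ∧ ∃ t ∈ Icc 0 b, s < t ∧ η * (t - s) < M t - M s} ≤ ENNReal.ofReal (δ / η) := by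
  have hM' : Monotone (fun s => -M (b - s)) := fun s t h => neg_le_neg (hM (by linarith))
  have h1 := rising_left hM' hb hη (δ := δ) (by
    show -M (b - b) - -M (b - 0) ≤ δ
    rw [sub_self, sub_zero]
    linarith)
  refine le_trans (le_of_eq ?_) h1
  have h2 := (Measure.measurePreserving_sub_left volume b).measure_preimage_equiv
    (f := MeasurableEquiv.subLeft b) {s : ℝ | s ∈ Icc 0 b ∧ ∃ t ∈ Icc 0 b, t < s ∧ η * (s - t) < -M (b - s) - -M (b - t)}
  rw [← h2]
  congr 1
  ext s
  show _ ↔ (0 ≤ b - s ∧ b - s ≤ b) ∧ ∃ t ∈ Icc 0 b, t < b - s ∧ η * ((b - s) - t) < -M (b - (b - s)) - -M (b - t)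
  simp only [mem_Icc]
  show ((0 ≤ s ∧ s ≤ b) ∧ ∃ t, (0 ≤ t ∧ t ≤ b) ∧ s < t ∧ η * (t - s) < M t - M s) ↔ _
  constructor
  · rintro ⟨hs, t, ht, hst, h⟩
    refine ⟨⟨by linarith, by linarith⟩, b - t, ⟨by linarith, by linarith⟩, by linarith, ?_⟩
    rw [sub_sub_cancel b s, sub_sub_cancel b t]
    have e : η * (b - s - (b - t)) = η * (t - s) := by ring
    rw [e]
    linarith
  · rintro ⟨hs, t, ht, hst, h⟩
    refine ⟨⟨by linarith, by linarith⟩, b - t, ⟨by linarith, by linarith⟩, by linarith, ?_⟩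
    rw [sub_sub_cancel b s] at h
    have e : η * (b - t - s) = η * (b - s - t) := by ring
    rw [e]
    linarith

/-- MAXIMAL INEQUALITY FOR NEAR-LINEAR PATHS: `Lam` grows at least with the speed `W`, and at most by `(W + ε) b` on the
whole; outside a set of times of measure `2 ε b / η` all difference quotients are at most `W + η`. -/
theorem max_path {Lam : ℝ → ℝ} {b W ε η : ℝ} (hb : 0 ≤ b) (hη : 0 < η)
    (h1 : ∀ s t, 0 ≤ s → s ≤ t → t ≤ b → W * (t - s) ≤ Lam t - Lam s) (h2 : Lam b - Lam 0 ≤ (W + ε) * b) :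
    volume {s : ℝ | s ∈ Icc 0 b ∧ ∃ t ∈ Icc 0 b, t ≠ s ∧ (W + η) * |t - s| < |Lam t - Lam s - W * (t - s)| + W * |t - s|}
      ≤ 2 * ENNReal.ofReal (ε * b / η) := by
  set M : ℝ → ℝ := fun s => Lam (max 0 (min s b)) - W * max 0 (min s b) with hMdef
  have hcl : ∀ s ∈ Icc (0 : ℝ) b, max 0 (min s b) = s := fun s hs => by
    rw [min_eq_left hs.2, max_eq_right hs.1]
  have hM : Monotone M := by
    intro s t h
    have a1 : max 0 (min s b) ≤ max 0 (min t b) := max_le_max le_rfl (min_le_min h le_rfl)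
    have a2 := h1 _ _ (le_max_left 0 (min s b)) a1 (max_le hb (min_le_right _ _))
    simp only [hMdef]
    linarith
  have hd : M b - M 0 ≤ ε * b := by
    simp only [hMdef]
    rw [hcl b ⟨hb, le_rfl⟩, hcl 0 ⟨le_rfl, hb⟩]
    linarith
  have h3 := rising_left hM hb hη hd
  have h4 := rising_right hM hb hη hd
  rw [two_mul]
  refine le_trans (le_trans (measure_mono ?_) (measure_union_le _ _)) (add_le_add h3 h4)
  rintro s ⟨hs, t, ht, hne, h⟩
  rcases lt_or_gt_of_ne hne with hlt | hgt
  · left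
    refine ⟨hs, t, ht, hlt, ?_⟩
    have a2 := h1 t s ht.1 hlt.le hs.2
    simp only [hMdef]
    rw [hcl s hs, hcl t ht]
    rw [abs_of_nonpos (show Lam t - Lam s - W * (t - s) ≤ 0 by linarith), abs_of_neg (show t - s < 0 by linarith)] at h
    linarith
  · right
    refine ⟨hs, t, ht, hgt, ?_⟩
    have a2 := h1 s t hs.1 hgt.le ht.2
    simp only [hMdef]
    rw [hcl s hs, hcl t ht]
    rw [abs_of_nonneg (show 0 ≤ Lam t - Lam s - W * (t - s) by linarith), abs_of_pos (show 0 < t - s by linarith)] at h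
    linarith

/-- a good time in a set of times: `Lam t - Lam s ≤ (W + η) (t - s)` for all `t > s` and
`Lam s - Lam t ≤ (W + η) (s - t)` for all `t < s` -/
theorem exists_good_time {Lam : ℝ → ℝ} {b W ε η : ℝ} (hb : 0 ≤ b) (hη : 0 < η)
    (h1 : ∀ s t, 0 ≤ s → s ≤ t → t ≤ b → W * (t - s) ≤ Lam t - Lam s) (h2 : Lam b - Lam 0 ≤ (W + ε) * b)
    (A : Set ℝ) (hA : A ⊆ Icc 0 b) (hAv : 2 * ENNReal.ofReal (ε * b / η) < volume A) :
    ∃ s ∈ A, (∀ t ∈ Icc 0 b, s ≤ t → Lam t - Lam s ≤ (W + η) * (t - s)) ∧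
      ∀ t ∈ Icc 0 b, t ≤ s → Lam s - Lam t ≤ (W + η) * (s - t) := by
  have h3 := max_path hb hη h1 h2
  have h4 : ¬ A ⊆ {s : ℝ | s ∈ Icc 0 b ∧ ∃ t ∈ Icc 0 b, t ≠ s ∧
      (W + η) * |t - s| < |Lam t - Lam s - W * (t - s)| + W * |t - s|} := fun h =>
    absurd (measure_mono h) (not_le.mpr (h3.trans_lt hAv))
  rw [not_subset] at h4
  obtain ⟨s, hs, h5⟩ := h4
  have h6 : ∀ t ∈ Icc 0 b, t ≠ s → |Lam t - Lam s - W * (t - s)| + W * |t - s| ≤ (W + η) * |t - s| := by
    intro t ht hne
    by_contra hn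
    exact h5 ⟨hA hs, t, ht, hne, not_le.mp hn⟩
  refine ⟨s, hs, fun t ht hst => ?_, fun t ht hst => ?_⟩
  · rcases hst.eq_or_lt with h | h
    · rw [← h]; simp
    · have h7 := h6 t ht h.ne'
      have h8 := le_abs_self (Lam t - Lam s - W * (t - s))
      rw [abs_of_pos (show 0 < t - s by linarith)] at h7
      linarith
  · rcases hst.eq_or_lt with h | h
    · rw [h]; simp
    · have h7 := h6 t ht h.ne
      have h8 := neg_abs_le (Lam t - Lam s - W * (t - s))
      rw [abs_of_neg (show t - s < 0 by linarith)] at h7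
      linarith

end Pool.Agent.Helper49.MD
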